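import Pool.Agent.V5helper41.ST.Rk

/-!
# The rank of `E_D` over `k(ω)` is twice the rank over `k`
-/

set_option autoImplicit false
set_option linter.unusedSectionVars false

open WeierstrassCurve

namespace Pool.Agent.V5helper41.ST

open Pool.Agent.TH841.NF (Sc tF tF_some tF_add)
open Pool.Agent.R432.C
open scoped Classical

variable {k K : Type} [Field k] [CharZero k] [Field K] [CharZero K] [Algebra k K]

theorem rank_quad {ω : K} (hω : ω ^ 2 + ω + 1 = 0) (σ : K ≃ₐ[k] K) (hσω : σ ω = ω ^ 2)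
    (hσσ : ∀ y, σ (σ y) = y) (hfix : ∀ y, σ y = y → ∃ x, algebraMap k K x = y) {D : k}
    (hD : D ≠ 0) :
    Module.rank ℤ (ED (algebraMap k K D)).toAffine.Point =
      2 * Module.rank ℤ (ED D).toAffine.Point := by
  obtain ⟨a, ha⟩ : ∃ a, a = algebraMap k K D := ⟨_, rfl⟩
  have ha0 : a ≠ 0 := by rw [ha]; exact (map_ne_zero _).2 hD
  have hω3 := cube_of hω
  have hω0 : ω ≠ 0 := by
    rintro rfl
    norm_num at hω
  have S : Sc (RingHom.id K) ω (ED a) (ED a) := sED _ hω0 (by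
    rw [RingHom.id_apply, hω3, mul_one])
  set A : (ED a).toAffine.Point →+ (ED a).toAffine.Point := tH S with hA
  have hAs : ∀ x y (h : (ED a).toAffine.Nonsingular x y), ∃ h',
      A (.some x y h) = .some (ω ^ 2 * x) y h' := by
    intro x y h
    obtain ⟨h1, e1⟩ := tH_some S x y h
    have e2 : (RingHom.id K) x * ω ^ 2 = ω ^ 2 * x := by rw [RingHom.id_apply, mul_comm]
    have e3 : (RingHom.id K) y * ω ^ 3 = y := by rw [RingHom.id_apply, hω3, mul_one]
    rw [hA]
    refine ⟨by rw [← e2, ← e3]; exact h1, ?_⟩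
    rw [e1, Affine.Point.some.injEq]
    exact ⟨e2, e3⟩
  have hA3 : ∀ P, P + A (A P) + A P = 0 := by
    rintro (_ | ⟨x, y, h⟩)
    · change (0 : (ED a).toAffine.Point) + A (A 0) + A 0 = 0
      rw [map_zero, map_zero, add_zero, add_zero]
    · obtain ⟨h1, e1⟩ := hAs x y h
      obtain ⟨h2, e2⟩ := hAs _ _ h1
      rw [e1, e2]
      refine add3 (V := ED a) rfl rfl rfl rfl rfl ha0 hω _ _ _ ?_ ?_
      · linear_combination (ω * x) * hω3
      · ring
  have hAA : ∀ P, A (A P) = -P - A P := by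
    intro P
    have h1 := hA3 P
    have h2 : A (A P) = P + A (A P) + A P - P - A P := by abel
    rw [h2, h1]
    abel
  have Ss : Sc (σ : K →+* K) 1 (ED a) (ED a) := sED _ one_ne_zero (by
    rw [one_pow, mul_one, ha]
    exact (σ.commutes D).symm)
  set s : (ED a).toAffine.Point →+ (ED a).toAffine.Point := tH Ss with hs
  have hss : ∀ x y (h : (ED a).toAffine.Nonsingular x y), ∃ h',
      s (.some x y h) = .some (σ x) (σ y) h' := by
    intro x y h
    obtain ⟨h1, e1⟩ := tH_some Ss x y h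
    have e2 : (σ : K →+* K) x * 1 ^ 2 = σ x := by rw [one_pow, mul_one]; rfl
    have e3 : (σ : K →+* K) y * 1 ^ 3 = σ y := by rw [one_pow, mul_one]; rfl
    rw [hs]
    refine ⟨by rw [← e2, ← e3]; exact h1, ?_⟩
    rw [e1, Affine.Point.some.injEq]
    exact ⟨e2, e3⟩
  have hs2 : ∀ P, s (s P) = P := by
    rintro (_ | ⟨x, y, h⟩)
    · change s (s 0) = 0
      rw [map_zero, map_zero]
    · obtain ⟨h1, e1⟩ := hss x y h
      obtain ⟨h2, e2⟩ := hss _ _ h1
      rw [e1, e2, Affine.Point.some.injEq]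
      exact ⟨hσσ x, hσσ y⟩
  have hsA : ∀ P, s (A P) = A (A (s P)) := by
    rintro (_ | ⟨x, y, h⟩)
    · change s (A 0) = A (A (s 0))
      simp only [map_zero]
    · obtain ⟨h1, e1⟩ := hAs x y h
      obtain ⟨h2, e2⟩ := hss _ _ h1
      obtain ⟨h3, e3⟩ := hss x y h
      obtain ⟨h4, e4⟩ := hAs _ _ h3
      obtain ⟨h5, e5⟩ := hAs _ _ h4
      rw [e1, e2, e3, e4, e5, Affine.Point.some.injEq]
      refine ⟨?_, rfl⟩
      rw [map_mul, map_pow, hσω]
      ring
  set θ : (ED a).toAffine.Point →+ (ED a).toAffine.Point := A - A.comp A with hθ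
  have hθa : ∀ P, θ P = A P - A (A P) := fun P => rfl
  have hθθ : ∀ P, θ (θ P) = -((3 : ℕ) • P) := by
    intro P
    simp only [hθa, map_sub, map_neg, hAA]
    abel
  have hsθ : ∀ P, s (θ P) = -θ (s P) := by
    intro P
    rw [hθa, hθa, map_sub, hsA, hsA, hsA]
    have h1 : A (A (A (A (s P)))) = A (s P) := by
      rw [hAA (A (A (s P))), hAA (A (s P)), hAA]
      abel
    rw [h1]
    abel
  -- the base change
  have Sb : Sc (algebraMap k K) 1 (ED D) (ED a) := sED _ one_ne_zero (by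
    rw [one_pow, mul_one, ha])
  set b : (ED D).toAffine.Point →+ (ED a).toAffine.Point := tH Sb with hb
  have hbs : ∀ x y (h : (ED D).toAffine.Nonsingular x y), ∃ h',
      b (.some x y h) = .some (algebraMap k K x) (algebraMap k K y) h' := by
    intro x y h
    obtain ⟨h1, e1⟩ := tH_some Sb x y h
    have e2 : algebraMap k K x * 1 ^ 2 = algebraMap k K x := by rw [one_pow, mul_one]
    have e3 : algebraMap k K y * 1 ^ 3 = algebraMap k K y := by rw [one_pow, mul_one]
    rw [hb]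
    refine ⟨by rw [← e2, ← e3]; exact h1, ?_⟩
    rw [e1, Affine.Point.some.injEq]
    exact ⟨e2, e3⟩
  have hbinj : ∀ P, b P = 0 → P = 0 := by
    rintro (_ | ⟨x, y, h⟩) hP
    · rfl
    · exfalso
      obtain ⟨h1, e1⟩ := hbs x y h
      rw [e1] at hP
      exact Affine.Point.some_ne_zero h1 hP
  have hsb : ∀ P, s (b P) = b P := by
    rintro (_ | ⟨x, y, h⟩)
    · change s (b 0) = b 0
      rw [map_zero, map_zero]
    · obtain ⟨h1, e1⟩ := hbs x y h
      obtain ⟨h2, e2⟩ := hss _ _ h1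
      rw [e1, e2, Affine.Point.some.injEq]
      exact ⟨σ.commutes x, σ.commutes y⟩
  have hdesc : ∀ P, s P = P → ∃ Q, b Q = P := by
    rintro (_ | ⟨X, Y, h⟩) hP
    · exact ⟨0, map_zero b⟩
    · obtain ⟨h1, e1⟩ := hss X Y h
      rw [e1, Affine.Point.some.injEq] at hP
      obtain ⟨X0, rfl⟩ := hfix X hP.1
      obtain ⟨Y0, rfl⟩ := hfix Y hP.2
      have hns : (ED D).toAffine.Nonsingular X0 Y0 := by
        apply (Pool.Agent.TH841.NF.ns_iff Sb X0 Y0).1
        rw [one_pow, one_pow, mul_one, mul_one]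
        exact h
      refine ⟨.some X0 Y0 hns, ?_⟩
      obtain ⟨h3, e3⟩ := hbs X0 Y0 hns
      exact e3
  rw [← ha]
  set f : (ED D).toAffine.Point × (ED D).toAffine.Point →+ (ED a).toAffine.Point :=
    AddMonoidHom.coprod b (θ.comp b) with hf
  have hfa : ∀ P Q, f (P, Q) = b P + θ (b Q) := fun P Q => rfl
  refine rank_two f (m := 6) (by norm_num) ?_ (n := 6) (by norm_num) ?_
  · rintro ⟨P, Q⟩ h
    rw [hfa] at h
    have h1 : b P - θ (b Q) = 0 := by
      have h2 := congrArg s h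
      rw [map_add, hsθ, hsb, hsb, map_zero] at h2
      rw [sub_eq_add_neg]
      exact h2
    have h2 : b ((2 : ℕ) • P) = 0 := by
      rw [map_nsmul]
      have : (2 : ℕ) • b P = (b P + θ (b Q)) + (b P - θ (b Q)) := by abel
      rw [this, h, h1, add_zero]
    have h3 : b ((6 : ℕ) • Q) = 0 := by
      rw [map_nsmul]
      have h4 : (2 : ℕ) • θ (b Q) = (b P + θ (b Q)) - (b P - θ (b Q)) := by abel
      rw [h, h1, sub_zero] at h4
      have h5 : θ ((2 : ℕ) • θ (b Q)) = 0 := by rw [h4, map_zero]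
      rw [map_nsmul, hθθ] at h5
      have h6 : (6 : ℕ) • b Q = -((2 : ℕ) • -((3 : ℕ) • b Q)) := by abel
      rw [h6, h5, neg_zero]
    have h4 := hbinj _ h2
    have h5 := hbinj _ h3
    refine Prod.ext ?_ h5
    change (6 : ℕ) • P = 0
    have h6 : (6 : ℕ) • P = (3 : ℕ) • ((2 : ℕ) • P) := by abel
    rw [h6, h4, smul_zero]
  · intro P
    obtain ⟨P1, hP1⟩ := hdesc (P + s P) (by rw [map_add, hs2, add_comm])
    obtain ⟨Q1, hQ1⟩ := hdesc (θ (P - s P)) (by
      rw [hsθ, map_sub, hs2, ← map_neg, neg_sub])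
    refine ⟨((3 : ℕ) • P1, -Q1), ?_⟩
    rw [hfa, map_nsmul, map_neg, map_neg, hP1, hQ1, hθθ]
    abel

end Pool.Agent.V5helper41.ST
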