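import Pool.Agent.V5helper41.ST.CoreG
import Pool.Agent.R432.R4

/-!
# The abelian fields `L = ℚ(θ_i)`, `θ_i ^ 3 = 3 N_i θ_i + T_i`
-/

set_option autoImplicit false
set_option linter.unusedSectionVars false

open NumberField IsDedekindDomain Polynomial
open scoped Classical

namespace Pool.Agent.V5helper41.ST

open Pool.Agent.Y692.QS hiding chi
open Pool.Agent.Y715.T.Rec (cs nn)
open Pool.Agent.Y715.T.RecG (Pq cs_spec)
open Pool.Agent.Y696.CT (cs_mul')
open Pool.Agent.Y350.CT (pq_star cs_star)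
open Pool.Agent.R432.C
open Pool.Agent.R432.V
open Pool.Agent.R432.Q (cyc_le)

/-! ### the algebra -/

section alg

variable {F : Type} [Field F] [CharZero F] {θ N T d d' : F}

lemma th_ne (h1 : θ ^ 3 = 3 * N * θ + T) (h2 : d + d' = T) (h3 : d * d' = N ^ 3) (h : d ≠ d') :
    θ ^ 2 - N ≠ 0 := by
  intro h0
  apply h
  have h4 : (d - d') ^ 2 = 0 := by
    have hN : N = θ ^ 2 := by linear_combination -h0
    subst hN
    have hT : T = -2 * θ ^ 3 := by linear_combination -h1
    have e : (d - d') ^ 2 = (d + d') ^ 2 - 4 * (d * d') := by ring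
    rw [e, h2, h3, hT]
    ring
  exact sub_eq_zero.1 (pow_eq_zero_iff (by norm_num) |>.1 h4)

lemma th_sq (h1 : θ ^ 3 = 3 * N * θ + T) (h2 : d + d' = T) (h3 : d * d' = N ^ 3) (h : d ≠ d') :
    ((d - d') / (θ ^ 2 - N)) ^ 2 = θ ^ 2 - 4 * N := by
  have h0 := th_ne h1 h2 h3 h
  rw [div_pow, div_eq_iff (pow_ne_zero 2 h0)]
  have hT : T = θ ^ 3 - 3 * N * θ := by linear_combination -h1
  have e : (d - d') ^ 2 = (d + d') ^ 2 - 4 * (d * d') := by ring
  rw [e, h2, h3, hT]
  ring

/-- the cube root -/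
lemma th_cube (h1 : θ ^ 3 = 3 * N * θ + T) (h2 : d + d' = T) (h3 : d * d' = N ^ 3) (h : d ≠ d') :
    ((θ + (d - d') / (θ ^ 2 - N)) / 2) ^ 3 = d ∧
    ((θ + (d - d') / (θ ^ 2 - N)) / 2) * (θ - (θ + (d - d') / (θ ^ 2 - N)) / 2) = N := by
  have h0 := th_ne h1 h2 h3 h
  have h4 := th_sq h1 h2 h3 h
  set δ := (d - d') / (θ ^ 2 - N) with hδ
  have h5 : δ * (θ ^ 2 - N) = d - d' := by rw [hδ, div_mul_cancel₀ _ h0]
  have hT : T = θ ^ 3 - 3 * N * θ := by linear_combination -h1
  have hd : d = (T + (d - d')) / 2 := by rw [← h2]; ring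
  constructor
  · rw [hd, hT, ← h5]
    linear_combination ((3 * θ + δ) / 8) * h4
  · linear_combination (-1 / 4) * h4

end alg

/-! ### the degree -/

section deg

variable {L : Type} [Field L] [NumberField L]

lemma finrank_le3 {ι : Type} (r : ι → L) (S : Finset ι)
    (hr : ∀ l ∈ S, ∃ b c : ℚ, r l ^ 3 = algebraMap ℚ L b * r l + algebraMap ℚ L c) :
    Module.finrank ℚ (S.sup fun l => IntermediateField.adjoin ℚ {r l} : IntermediateField ℚ L) ≤
      3 ^ S.card := by
  induction S using Finset.induction_on with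
  | empty =>
    rw [Finset.sup_empty, Finset.card_empty, pow_zero, IntermediateField.finrank_bot]
  | insert l S hl ih =>
    rw [Finset.sup_insert, Finset.card_insert_of_notMem hl, pow_succ]
    refine (IntermediateField.finrank_sup_le _ _).trans ?_
    rw [mul_comm]
    refine Nat.mul_le_mul (ih fun m hm => hr m (Finset.mem_insert_of_mem hm)) ?_
    obtain ⟨b, c, hc⟩ := hr l (Finset.mem_insert_self _ _)
    have hint : IsIntegral ℚ (r l) := Algebra.IsIntegral.isIntegral _
    rw [IntermediateField.adjoin.finrank hint]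
    have h1 : (X ^ 3 - (C b * X + C c) : ℚ[X]).natDegree = 3 := by
      rw [natDegree_sub_eq_left_of_natDegree_lt]
      · exact natDegree_X_pow 3
      · rw [natDegree_X_pow]
        exact lt_of_le_of_lt natDegree_linear_le (by norm_num)
    rw [← h1]
    refine natDegree_le_of_dvd (minpoly.dvd _ _ ?_) (fun h => ?_)
    · rw [map_sub, map_pow, map_add, map_mul, aeval_X, aeval_C, aeval_C, hc, sub_self]
    · rw [h, natDegree_zero] at h1
      exact absurd h1 (by norm_num)

lemma finrank_le3' {k : ℕ} (r : Fin k → L)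
    (hr : ∀ l, ∃ b c : ℚ, r l ^ 3 = algebraMap ℚ L b * r l + algebraMap ℚ L c)
    (hgen : ∀ M : Subfield L, (∀ l, r l ∈ M) → M = ⊤) : Module.finrank ℚ L ≤ 3 ^ k := by
  have h1 := finrank_le3 r Finset.univ fun l _ => hr l
  have h2 : (Finset.univ.sup fun l => IntermediateField.adjoin ℚ {r l} :
      IntermediateField ℚ L) = ⊤ := by
    have h3 := hgen (Finset.univ.sup fun l => IntermediateField.adjoin ℚ {r l} :
      IntermediateField ℚ L).toSubfield (fun l => by
        have h4 : IntermediateField.adjoin ℚ {r l} ≤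
            (Finset.univ.sup fun l => IntermediateField.adjoin ℚ {r l} : IntermediateField ℚ L) :=
          Finset.le_sup (f := fun l => IntermediateField.adjoin ℚ {r l}) (Finset.mem_univ l)
        exact h4 (IntermediateField.mem_adjoin_simple_self ℚ (r l)))
    rw [eq_top_iff]
    intro y _
    have h5 : y ∈ (Finset.univ.sup fun l => IntermediateField.adjoin ℚ {r l} :
      IntermediateField ℚ L).toSubfield := by rw [h3]; trivial
    exact h5
  rw [h2, IntermediateField.finrank_top', Finset.card_univ, Fintype.card_fin] at h1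
  exact h1

end deg

/-- **The context.** -/
theorem exists_ctx {D : Ei} {k : ℕ} {d : Fin k → Ei} (hT : Tow D d) {N : Fin k → ℕ}
    {T : Fin k → ℤ} (hN : ∀ i, d i * star (d i) = ((N i : ℕ) : Ei) ^ 3)
    (hTr : ∀ i, d i + star (d i) = ((T i : ℤ) : Ei)) (hne : ∀ i, d i ≠ star (d i))
    {L : Type} [Field L] [NumberField L] (θ : Fin k → L)
    (hθ : ∀ i, θ i ^ 3 = 3 * (N i : L) * θ i + (T i : L))
    (hgen : ∀ M : Subfield L, (∀ i, θ i ∈ M) → M = ⊤) {M : ℕ}
    (hM : ∀ i, d i ∣ ((M : ℕ) : Ei)) :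
    ∃ (j : Ei ≃+* 𝓞 (CyclotomicField 3 ℚ)) (F : Type) (_ : Field F) (_ : NumberField F)
      (_ : Algebra (CyclotomicField 3 ℚ) F) (_ : Algebra L F) (x : Fin k → 𝓞 F),
      CtxG L j d M x ∧ Module.finrank ℚ L = 3 ^ k := by
  have hle := finrank_le3' θ (fun i => ⟨3 * (N i : ℚ), (T i : ℚ), by rw [hθ i]; simp⟩) hgen
  have hcyc : IsCyclotomicExtension {3} ℚ (CyclotomicField 3 ℚ) :=
    Pool.Agent.Y948.CTP.cyc_rat _ _ (CyclotomicField.isCyclotomicExtension 3 ℚ)
  obtain ⟨⟨j, -⟩, -⟩ := Pool.Agent.Y455.CTK.jex (CyclotomicField 3 ℚ)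
  obtain ⟨F, hF1, hF2, hF3, hF4⟩ : ∃ (F : Type) (_ : Field F) (_ : NumberField F) (_ : Algebra L F),
      IsCyclotomicExtension {3} L F :=
    ⟨CyclotomicField 3 L, inferInstance, inferInstance, inferInstance, inferInstance⟩
  have hirrQ : Irreducible (cyclotomic 3 ℚ) := cyclotomic.irreducible_rat (by norm_num)
  have hζ : IsPrimitiveRoot (IsCyclotomicExtension.zeta 3 ℚ (CyclotomicField 3 ℚ)) 3 :=
    IsCyclotomicExtension.zeta_spec 3 ℚ (CyclotomicField 3 ℚ)
  have hζF : IsPrimitiveRoot (IsCyclotomicExtension.zeta 3 L F) 3 :=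
    IsCyclotomicExtension.zeta_spec 3 L F
  let φ : CyclotomicField 3 ℚ →ₐ[ℚ] F := (hζ.embeddingsEquivPrimitiveRoots F hirrQ).symm
    ⟨_, (mem_primitiveRoots (by norm_num)).2 hζF⟩
  have hφ : φ (IsCyclotomicExtension.zeta 3 ℚ (CyclotomicField 3 ℚ)) =
      IsCyclotomicExtension.zeta 3 L F := by
    have h1 := hζ.embeddingsEquivPrimitiveRoots_apply_coe F hirrQ φ
    rw [← h1, Equiv.apply_symm_apply]
  let hAl : Algebra (CyclotomicField 3 ℚ) F := φ.toRingHom.toAlgebra
  have hω := om_K j
  -- the field over `L` generated by `ω`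
  have hgenL : ∀ M : Subfield F, (∀ y : L, algebraMap L F y ∈ M) →
      IsCyclotomicExtension.zeta 3 L F ∈ M → M = ⊤ := by
    intro M h4 h5
    have h6 : (Algebra.adjoin L {IsCyclotomicExtension.zeta 3 L F} : Subalgebra L F) = ⊤ :=
      IsCyclotomicExtension.adjoin_primitive_root_eq_top hζF
    rw [eq_top_iff]
    intro y _
    have h7 : y ∈ (Algebra.adjoin L {IsCyclotomicExtension.zeta 3 L F} : Subalgebra L F) := by
      rw [h6]; trivial
    refine Algebra.adjoin_induction (p := fun z _ => z ∈ M) ?_ ?_ ?_ ?_ h7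
    · rintro z hz
      rw [Set.mem_singleton_iff.1 hz]
      exact h5
    · exact h4
    · intro x y _ _ hx hy
      exact M.add_mem hx hy
    · intro x y _ _ hx hy
      exact M.mul_mem hx hy
  -- the cube roots
  set ψ : Ei →+* F := (algebraMap (𝓞 F) F).comp (io F j) with hψ
  have hψi : Function.Injective ψ := (injective_iff_map_eq_zero ψ).2 (fun a ha => by
    have h1 : io F j a = 0 := RingOfIntegers.ext ha
    exact io_inj (F := F) j (by rw [h1, map_zero]))
  have e1 : ∀ i, algebraMap L F (θ i) ^ 3 =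
      3 * ((N i : ℕ) : F) * algebraMap L F (θ i) + ((T i : ℤ) : F) := by
    intro i
    rw [← map_pow, hθ i, map_add, map_mul, map_mul, map_ofNat, map_natCast, map_intCast]
  have e2 : ∀ i, ψ (d i) + ψ (star (d i)) = ((T i : ℤ) : F) := by
    intro i
    rw [← map_add, hTr i, map_intCast]
  have e3 : ∀ i, ψ (d i) * ψ (star (d i)) = ((N i : ℕ) : F) ^ 3 := by
    intro i
    rw [← map_mul, hN i, map_pow, map_natCast]
  have e4 : ∀ i, ψ (d i) ≠ ψ (star (d i)) := fun i h => hne i (hψi h)
  set x : Fin k → F := fun i => (algebraMap L F (θ i) + (ψ (d i) - ψ (star (d i))) /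
    (algebraMap L F (θ i) ^ 2 - ((N i : ℕ) : F))) / 2 with hx
  have hx3 : ∀ i, x i ^ 3 = ψ (d i) := fun i => (th_cube (e1 i) (e2 i) (e3 i) (e4 i)).1
  have hxN : ∀ i, x i * (algebraMap L F (θ i) - x i) = ((N i : ℕ) : F) := fun i =>
    (th_cube (e1 i) (e2 i) (e3 i) (e4 i)).2
  have hx0 : ∀ i, x i ≠ 0 := by
    intro i h
    have h1 := hx3 i
    rw [h, zero_pow (by norm_num)] at h1
    exact hT.d0 i (hψi (by rw [← h1, map_zero]))
  have hgen' : ∀ M : Subfield F, (∀ k : CyclotomicField 3 ℚ, algebraMap (CyclotomicField 3 ℚ) F k ∈ M) →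
      (∀ i, x i ∈ M) → M = ⊤ := by
    intro M h1 h2
    have h3 := hgen (M.comap (algebraMap L F)) fun i => by
      show algebraMap L F (θ i) ∈ M
      have h4 : algebraMap L F (θ i) = x i + ((N i : ℕ) : F) * (x i)⁻¹ := by
        have h5 := hxN i
        rw [← h5]
        field_simp [hx0 i]
        ring
      rw [h4]
      exact M.add_mem (h2 i) (M.mul_mem (natCast_mem M _) (M.inv_mem (h2 i)))
    refine hgenL M (fun y => ?_) ?_
    · have h5 : y ∈ M.comap (algebraMap L F) := by rw [h3]; trivial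
      exact h5
    · rw [← hφ]
      exact h1 _
  have hx3' : ∀ i, x i ^ 3 = algebraMap (CyclotomicField 3 ℚ) F
      ((j (d i) : 𝓞 (CyclotomicField 3 ℚ)) : CyclotomicField 3 ℚ) := fun i => hx3 i
  obtain ⟨hgal, g1⟩ := degG j hT x hx3' hgen'
  have ht : IsScalarTower ℚ (CyclotomicField 3 ℚ) F :=
    IsScalarTower.of_algebraMap_eq fun q => (φ.commutes q).symm
  have ht' : IsScalarTower ℚ L F := IsScalarTower.of_algebraMap_eq fun q => by simp
  have f1 : Module.finrank ℚ (CyclotomicField 3 ℚ) * Module.finrank (CyclotomicField 3 ℚ) F =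
      Module.finrank ℚ F := Module.finrank_mul_finrank ℚ _ F
  have f2 : Module.finrank ℚ L * Module.finrank L F = Module.finrank ℚ F :=
    Module.finrank_mul_finrank ℚ L F
  have f3 : Module.finrank ℚ (CyclotomicField 3 ℚ) = 2 := by
    rw [IsCyclotomicExtension.finrank (CyclotomicField 3 ℚ) hirrQ]
    decide
  have f4 : Module.finrank L F ≤ 2 := cyc_le
  have f0 : Module.finrank ℚ L = 3 ^ k := by
    rw [g1, f3] at f1
    have h1 : 0 < 3 ^ k := by positivity
    have h2 : Module.finrank ℚ L * Module.finrank L F ≤ Module.finrank ℚ L * 2 :=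
      Nat.mul_le_mul_left _ f4
    omega
  have f5 : Module.finrank L F = 2 := by
    rw [g1, f3] at f1
    have h1 : 0 < 3 ^ k := by positivity
    rw [f0] at f2
    have h4 : 3 ^ k * Module.finrank L F = 3 ^ k * 2 := by rw [f2, ← f1, mul_comm]
    exact Nat.eq_of_mul_eq_mul_left h1 h4
  have hint : ∀ i, IsIntegral ℤ (x i) := by
    intro i
    refine IsIntegral.of_pow (n := 3) (by norm_num) ?_
    rw [hx3 i]
    exact (io F j (d i)).2
  refine ⟨j, F, hF1, hF2, hAl, hF3, fun i => ⟨x i, hint i⟩, ?_, f0⟩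
  refine ⟨hgal, IsCyclotomicExtension.isGalois {3} L F, by rw [g1, Fintype.card_fin], f5, ?_, ?_,
    ?_, hM, ?_⟩
  · intro i
    apply RingOfIntegers.ext
    exact hx3 i
  · intro M h1 h2
    exact hgen' M h1 h2
  · intro g hg
    have hgw : g ((io F j w : 𝓞 F) : F) = ((io F j w : 𝓞 F) : F) :=
      congrArg (fun z : 𝓞 F => (z : F)) hg
    have h5 := hgenL (RingHom.eqLocusField (g : F →+* F) (RingHom.id F))
      (fun y => g.commutes y) (by
        have hw : (((io F j w : 𝓞 F) : F)) ^ 2 + ((io F j w : 𝓞 F) : F) + 1 = 0 := by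
          rw [io_coe, ← map_pow, ← map_add, ← map_one (algebraMap (CyclotomicField 3 ℚ) F),
            ← map_add, hω, map_zero]
        have h6 : (IsCyclotomicExtension.zeta 3 L F) ^ 3 = (1 : F) ^ 3 := by
          rw [hζF.pow_eq_one, one_pow]
        obtain ⟨c, hc⟩ := cube_roots hw h6
        show g _ = _
        rw [hc, mul_one, map_pow, hgw]
        rfl)
    ext y
    have h7 : y ∈ RingHom.eqLocusField (g : F →+* F) (RingHom.id F) := by rw [h5]; trivial
    exact h7
  · intro α hα hαM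
    have hstM : star ((M : ℕ) : Ei) = ((M : ℕ) : Ei) := by
      rw [star_natCast]
    have key : ∀ i, cs (star α) (d i) = cs α (d i) := by
      intro i
      have h1 : ¬ α ∣ d i := fun h => hαM (h.trans (hM i))
      have h2 : star (d i) ∣ ((M : ℕ) : Ei) := by
        obtain ⟨c, hc⟩ := hM i
        refine ⟨star c, ?_⟩
        rw [← star_mul', ← hc, hstM]
      have h3 : ¬ α ∣ star (d i) := fun h => hαM (h.trans h2)
      have h4 : ¬ α ∣ ((N i : ℕ) : Ei) := by
        intro h
        have h5 : α ∣ d i * star (d i) := by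
          rw [hN i]
          exact h.trans (dvd_pow_self _ (by norm_num))
        rcases hα.prime.dvd_or_dvd h5 with h | h
        · exact h1 h
        · exact h3 h
      have h5 := cs_star hα h3
      rw [star_star] at h5
      have h6 := cs_mul' hα h1 h3
      have h7 : cs α (((N i : ℕ) : Ei) ^ 3) = 0 := by
        have h8 := cs_cube hα hα.prime.not_dvd_one h4 (a := 1)
        rw [one_mul] at h8
        rw [h8]
        have h9 := cs_mul' hα hα.prime.not_dvd_one hα.prime.not_dvd_one
        rw [one_mul] at h9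
        exact add_eq_left.1 h9.symm
      rw [hN i, h7] at h6
      rw [h5]
      exact (eq_neg_of_add_eq_zero_left h6.symm).symm
    unfold fo
    by_cases h : ∀ i, cs α (d i) = 0
    · rw [if_pos h, if_pos fun i => by rw [key, h]]
    · rw [if_neg h, if_neg fun h' => h fun i => by rw [← key, h']]

end Pool.Agent.V5helper41.ST
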