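import Pool.Agent.V5helper41.ST.Rat
import Pool.Agent.R419.KF.NS

/-!
# The class of the curves, the fields, and the uniqueness of the order of vanishing
-/

set_option autoImplicit false
set_option linter.unusedSectionVars false

open NumberField IsDedekindDomain Filter Complex WeierstrassCurve
open scoped Topology Classical

namespace Pool.Agent.V5helper41.ST

open Pool.Agent.Y692.QS hiding chi
open Pool.Agent.Y715.T.RecG (Pq)
open Pool.Agent.Y715.T.Gi (CF)
open Pool.Agent.Y699.E (PD mem_PD prm)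
open Pool.Agent.R419.KF (el ex_pair)

/-- the primes of `m` -/
theorem pw_el {m : Ei} (hm : m ≠ 0) {A S : Finset Ei} (hS : ∀ q ∈ S, Pq q) (hA : A ⊆ S)
    (hp : ∀ p : Ei, Prime p → p ∣ el A S → p ∣ m) :
    el A S = pw (PD m) (fun x => (if x ∈ S then 1 else 0) + if x ∈ A then 1 else 0) := by
  have hsub : S ⊆ PD m := by
    intro x hx
    refine (mem_PD hm).2 ⟨hS x hx, hp x (hS x hx).prime ?_⟩
    unfold el
    exact (Finset.dvd_prod_of_mem (fun π => π) hx).mul_right _
  unfold pw
  rw [← Finset.prod_subset hsub (fun x _ hx => by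
    show x ^ (((if x ∈ S then 1 else 0) + if x ∈ A then 1 else 0 : ZMod 3)).val = 1
    rw [if_neg hx, if_neg fun h => hx (hA h), add_zero, ZMod.val_zero, pow_zero])]
  have h1 : ∀ x ∈ S, x ^ (((if x ∈ S then 1 else 0) + if x ∈ A then 1 else 0 : ZMod 3)).val =
      x * (if x ∈ A then x else 1) := by
    intro x hx
    rw [if_pos hx]
    by_cases h : x ∈ A
    · rw [if_pos h, if_pos h]
      have : ((1 : ZMod 3) + 1).val = 2 := by decide
      rw [this, pow_two]
    · rw [if_neg h, if_neg h]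
      have : ((1 : ZMod 3) + 0).val = 1 := by decide
      rw [this, pow_one, mul_one]
  rw [Finset.prod_congr rfl h1, Finset.prod_mul_distrib]
  unfold el
  congr 1
  rw [Finset.prod_ite_mem, Finset.inter_eq_right.2 hA]

theorem br {m D : Ei} (hm : m ≠ 0) (h3 : (3 : Ei) ∣ D - 1 ∨ (3 : Ei) ∣ D + 1)
    (hcf : ∀ x : Ei, x ^ 3 ∣ D → IsUnit x) (h9 : ¬ (9 : ℤ) ∣ nr D - 1)
    (hp : ∀ p : Ei, Prime p → p ∣ D → p ∣ m) :
    ∃ w : Ei → ZMod 3, (D = pw (PD m) w ∨ D = -pw (PD m) w) ∧
      ¬ (9 : ℤ) ∣ nr (pw (PD m) w) - 1 := by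
  have key : ∀ D' : Ei, (3 : Ei) ∣ D' - 1 → (∀ x : Ei, x ^ 3 ∣ D' → IsUnit x) →
      (∀ p : Ei, Prime p → p ∣ D' → p ∣ m) → ∃ w : Ei → ZMod 3, D' = pw (PD m) w := by
    intro D' h1 h2 h4
    obtain ⟨A, S, hS, hA, hD⟩ := ex_pair (D := D') h1
      ⟨Pool.Agent.Y699.E.prm_ne_zero h1, h2⟩
    exact ⟨_, by rw [hD]; exact pw_el hm hS hA (by rw [← hD]; exact h4)⟩
  rcases h3 with h3 | h3
  · obtain ⟨w, hw⟩ := key D h3 hcf hp
    exact ⟨w, Or.inl hw, by rw [← hw]; exact h9⟩
  · obtain ⟨w, hw⟩ := key (-D) (by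
      have e : -D - 1 = -(D + 1) := by ring
      rw [e]
      exact (dvd_neg).2 h3) (fun x hx => hcf x ((dvd_neg).1 hx))
      (fun p h1 h2 => hp p h1 ((dvd_neg).1 h2))
    refine ⟨w, Or.inr (by rw [← hw, neg_neg]), ?_⟩
    rw [← hw]
    have : nr (-D) = nr D := by
      unfold nr
      show (-D.re) ^ 2 - (-D.re) * (-D.im) + (-D.im) ^ 2 = _
      ring
    rw [this]
    exact h9

section fields

variable {K : Type} [Field K] [NumberField K]

/-- the fields exist -/
theorem exists_field (d : ℕ → K) (k : ℕ) :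
    ∃ (F : Type) (_ : Field F) (_ : NumberField F) (_ : Algebra K F) (x : ℕ → F),
      (∀ i, i < k → x i ^ 3 = algebraMap K F (d i)) ∧
      ∀ L : Subfield F, (∀ y : K, algebraMap K F y ∈ L) → (∀ i, i < k → x i ∈ L) → L = ⊤ := by
  let p : Polynomial K := ∏ i ∈ Finset.range k, (Polynomial.X ^ 3 - Polynomial.C (d i))
  let F : Type := p.SplittingField
  have hp0 : p ≠ 0 := Finset.prod_ne_zero_iff.2 fun l _ =>
    Polynomial.X_pow_sub_C_ne_zero (by norm_num) _
  have hsp : (p.map (algebraMap K F)).Splits := Polynomial.SplittingField.splits p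
  have hp0' : p.map (algebraMap K F) ≠ 0 :=
    (Polynomial.map_ne_zero_iff (algebraMap K F).injective).2 hp0
  have hroot : ∀ i : ℕ, ∃ x : F, i < k → x ^ 3 = algebraMap K F (d i) := by
    intro i
    by_cases hi : i < k
    · have h1 : ((Polynomial.X ^ 3 - Polynomial.C (d i)).map (algebraMap K F)).Splits :=
        hsp.of_dvd hp0' (Polynomial.map_dvd _ (Finset.dvd_prod_of_mem _ (Finset.mem_range.2 hi)))
      obtain ⟨x, hx⟩ := h1.exists_eval_eq_zero (by
        rw [Polynomial.degree_map, Polynomial.degree_X_pow_sub_C (by norm_num)]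
        norm_num)
      refine ⟨x, fun _ => ?_⟩
      simp at hx
      linear_combination hx
    · exact ⟨0, fun h => absurd h hi⟩
  choose r hr using hroot
  let M : IntermediateField K F := IntermediateField.adjoin K (r '' {i | i < k})
  have hrM : ∀ i, i < k → r i ∈ M := fun i hi => IntermediateField.subset_adjoin K _ ⟨i, hi, rfl⟩
  have hMn : NumberField M := NumberField.of_module_finite K M
  refine ⟨M, inferInstance, hMn, inferInstance, fun i => if h : i < k then ⟨r i, hrM i h⟩ else 0,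
    fun i hi => ?_, fun L hL1 hL2 => ?_⟩
  · simp only [dif_pos hi]
    apply Subtype.ext
    exact hr i hi
  · rw [eq_top_iff]
    intro y _
    let L' : IntermediateField K F :=
      { (L.map (algebraMap M F)) with
        algebraMap_mem' := fun c => ⟨algebraMap K M c, hL1 c, rfl⟩ }
    have h1 : M ≤ L' := by
      apply IntermediateField.adjoin_le_iff.2
      rintro _ ⟨i, hi, rfl⟩
      have h2 := hL2 i hi
      simp only [dif_pos (show i < k from hi)] at h2
      exact ⟨_, h2, rfl⟩
    obtain ⟨y', hy', h2⟩ := h1 y.2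
    have h3 : y' = y := Subtype.ext h2
    rw [← h3]
    exact hy'

end fields

/-- meromorphic functions that agree in a half plane have the same order of vanishing -/
theorem order_unique {f g : ℂ → ℂ} (hf : MeromorphicOn f Set.univ) (hg : MeromorphicOn g Set.univ)
    (hf1 : AnalyticAt ℂ f 1) (hg1 : AnalyticAt ℂ g 1) (h : ∀ s : ℂ, 3 / 2 < s.re → f s = g s) :
    analyticOrderAt f 1 = analyticOrderAt g 1 := by
  have hm : MeromorphicOn (f - g) Set.univ := hf.sub hg
  have h2 : meromorphicOrderAt (f - g) 2 = ⊤ := by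
    rw [meromorphicOrderAt_eq_top_iff]
    have h3 : ∀ᶠ s in 𝓝 (2 : ℂ), (f - g) s = 0 := by
      have ho : IsOpen {s : ℂ | 3 / 2 < s.re} := isOpen_lt continuous_const Complex.continuous_re
      filter_upwards [ho.mem_nhds (show (2 : ℂ) ∈ {s : ℂ | 3 / 2 < s.re} by
        show (3 : ℝ) / 2 < (2 : ℂ).re
        norm_num)] with s hs
      rw [Pi.sub_apply, h s hs, sub_self]
    exact h3.filter_mono nhdsWithin_le_nhds
  have h1 : meromorphicOrderAt (f - g) 1 = ⊤ := by
    by_contra hc
    have hconn : IsConnected (Set.univ : Set ℂ) := isConnected_univ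
    have h4 := (hm.exists_meromorphicOrderAt_ne_top_iff_forall_mem hconn).1
      ⟨1, Set.mem_univ _, hc⟩ 2 (Set.mem_univ _)
    exact h4 h2
  have h5 : analyticOrderAt (f - g) 1 = ⊤ := by
    have h6 := (hf1.sub hg1).meromorphicOrderAt_eq
    rw [h1] at h6
    by_contra hc
    obtain ⟨n, hn⟩ := ENat.ne_top_iff_exists.1 hc
    rw [← hn] at h6
    simp at h6
  rw [analyticOrderAt_eq_top] at h5
  refine analyticOrderAt_congr ?_
  filter_upwards [h5] with s hs
  exact sub_eq_zero.1 hs

end Pool.Agent.V5helper41.ST
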