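import Pool.Agent.V5helper41.ST.SeqS
import Pool.Agent.V5helper41.ST.Ab
import Pool.Agent.V5helper41.ST.Br

/-!
# The curves over the abelian fields
-/

set_option autoImplicit false
set_option linter.unusedSectionVars false

open NumberField IsDedekindDomain Filter Complex WeierstrassCurve
open scoped Topology Classical

namespace Pool.Agent.V5helper41.ST

open Pool.Agent.Y692.QS hiding chi
open Pool.Agent.Y715.T.Rec (cs nn)
open Pool.Agent.Y715.T.RecG (Pq cs_spec)
open Pool.Agent.Y703.CT (IsHL chD Dt pD Ker)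
open Pool.Agent.Y350.CT (pq_star cs_star)
open Pool.Agent.R432.C
open Pool.Agent.R432.V
open Pool.Agent.R433.MD (lf)
open Pool.Agent.H341R2.EC (IsMinAt)
open Pool.Agent.Y699.E (PD mem_PD prm)

lemma two_cancel {a b : Cardinal.{0}} (h : 2 * a = 2 * b) : a = b := by
  have key : ∀ a b : Cardinal.{0}, 2 * a = 2 * b → a < Cardinal.aleph0 → a = b := by
    intro a b h ha
    obtain ⟨n, rfl⟩ := Cardinal.lt_aleph0.1 ha
    have hb : b < Cardinal.aleph0 := by
      have h1 : b ≤ 2 * b := Cardinal.le_mul_left two_ne_zero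
      rw [← h] at h1
      exact lt_of_le_of_lt h1 (Cardinal.mul_lt_aleph0 (by
        have := Cardinal.natCast_lt_aleph0 (n := 2)
        exact_mod_cast this) ha)
    obtain ⟨m, rfl⟩ := Cardinal.lt_aleph0.1 hb
    have h2 : 2 * n = 2 * m := by exact_mod_cast h
    have h3 : n = m := by omega
    rw [h3]
  by_cases ha : a < Cardinal.aleph0
  · exact key a b h ha
  · by_cases hb : b < Cardinal.aleph0
    · exact (key b a h.symm hb).symm
    · rw [not_lt] at ha hb
      have h2 : ∀ c : Cardinal.{0}, Cardinal.aleph0 ≤ c → 2 * c = c := fun c hc =>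
        Cardinal.mul_eq_right hc (le_trans (by
          have := (Cardinal.natCast_lt_aleph0 (n := 2)).le
          exact_mod_cast this) hc) two_ne_zero
      rw [h2 a ha, h2 b hb] at h
      exact h

section

variable {M : Finset Ei} {z : Ei} {Q : ℕ → Finset Ei}

/-- the product of the norms -/
noncomputable def NQ (Q : ℕ → Finset Ei) (i : ℕ) : ℕ := ∏ x ∈ Q i, (nr x).natAbs

/-- the trace of the radicand -/
noncomputable def TQ (Q : ℕ → Finset Ei) (i : ℕ) : ℤ := 2 * (dS Q i).re - (dS Q i).im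

lemma star_dS (Q : ℕ → Finset Ei) (i : ℕ) : star (dS Q i) = ∏ x ∈ Q i, star x * x ^ 2 := by
  unfold dS
  have h : ∀ S : Finset Ei, star (∏ x ∈ S, x * star x ^ 2) = ∏ x ∈ S, star x * x ^ 2 := by
    intro S
    induction S using Finset.induction_on with
    | empty => rw [Finset.prod_empty, Finset.prod_empty, star_one]
    | insert a S ha ih =>
      rw [Finset.prod_insert ha, Finset.prod_insert ha, star_mul', ih, star_mul', star_pow,
        star_star]
  exact h _

lemma dS_norm (Q : ℕ → Finset Ei) (i : ℕ) : dS Q i * star (dS Q i) = ((NQ Q i : ℕ) : Ei) ^ 3 := by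
  rw [star_dS]
  unfold dS NQ
  rw [← Finset.prod_mul_distrib, Nat.cast_prod, ← Finset.prod_pow]
  refine Finset.prod_congr rfl fun x _ => ?_
  have h1 : (((nr x).natAbs : ℕ) : Ei) = ((nr x : ℤ) : Ei) := by
    have h2 : (((nr x).natAbs : ℕ) : ℤ) = nr x := Int.natAbs_of_nonneg (nr_nonneg x)
    conv_rhs => rw [← h2]
    exact (Int.cast_natCast _).symm
  rw [h1, ← mul_star]
  ring

lemma dS_trace (Q : ℕ → Finset Ei) (i : ℕ) : dS Q i + star (dS Q i) = ((TQ Q i : ℤ) : Ei) := by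
  unfold TQ
  ext
  · rw [QuadraticAlgebra.re_add, star_re, QuadraticAlgebra.re_intCast]
    simp
    ring
  · rw [QuadraticAlgebra.im_add, star_im, QuadraticAlgebra.im_intCast]
    simp

lemma dS_star_ne (hQ : SeqS M z Q) (i : ℕ) : dS Q i ≠ star (dS Q i) := by
  intro h
  obtain ⟨x, hx⟩ := (hQ i).ne
  have hxP := (hQ i).pq x hx
  have h1 : x * x ∣ dS Q i := by
    rw [h, star_dS]
    have h2 : star x * x ^ 2 ∣ ∏ x ∈ Q i, star x * x ^ 2 :=
      Finset.dvd_prod_of_mem (fun x => star x * x ^ 2) hx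
    exact (Dvd.intro_left (star x) (by ring)).trans h2
  have h3 : dS Q i = x * (star x ^ 2 * ∏ y ∈ (Q i).erase x, y * star y ^ 2) := by
    unfold dS
    rw [← Finset.mul_prod_erase _ _ hx]
    ring
  rw [h3] at h1
  have h4 := (mul_dvd_mul_iff_left hxP.prime.ne_zero).1 h1
  rcases hxP.prime.dvd_or_dvd h4 with h5 | h5
  · have h6 := pq_dvd hxP (pq_star hxP) (hxP.prime.dvd_of_dvd_pow h5)
    exact (hQ i).st x hx (by rw [← h6]; exact hx)
  · obtain ⟨y, hy, hy'⟩ := (hxP.prime.dvd_finsetProd_iff _).1 h5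
    have hyQ := Finset.mem_of_mem_erase hy
    have hyP := (hQ i).pq y hyQ
    rcases hxP.prime.dvd_or_dvd hy' with h6 | h6
    · exact Finset.ne_of_mem_erase hy (pq_dvd hxP hyP h6).symm
    · have h7 := pq_dvd hxP (pq_star hyP) (hxP.prime.dvd_of_dvd_pow h6)
      exact (hQ i).st y hyQ (by rw [← h7]; exact hx)

lemma NQ_ne (hQ : SeqS M z Q) (i : ℕ) : NQ Q i ≠ 0 := by
  intro h
  have h1 := dS_norm Q i
  rw [h, Nat.cast_zero, zero_pow (by norm_num)] at h1
  rcases mul_eq_zero.1 h1 with h2 | h2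
  · exact dS_ne hQ i h2
  · exact dS_ne hQ i (star_eq_zero.1 h2)

/-- **The curves over the abelian field.** -/
theorem overAb (hM : ∀ p ∈ M, Pq p) (hMs : ∀ p ∈ M, star p ∈ M) (hz : z ∈ M) (hQ : SeqS M z Q)
    {w : Ei → ZMod 3} (hw : w z ≠ 0) (hw' : w (star z) = w z)
    (h9 : ¬ (9 : ℤ) ∣ nr (pw M w) - 1) {D : ℕ} (hD0 : D ≠ 0)
    (hD : ((D : ℕ) : Ei) = pw M w ∨ ((D : ℕ) : Ei) = -pw M w) {F0 : ℂ → ℂ}
    (hF0 : IsHL (fun x : Act M w => x.1) (fun x => -w x.1) F0) {k : ℕ}
    {L : Type} [Field L] [NumberField L] (θ : Fin k → L)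
    (hθ : ∀ i, θ i ^ 3 = 3 * ((NQ Q i : ℕ) : L) * θ i + ((TQ Q i : ℤ) : L))
    (hgen : ∀ M : Subfield L, (∀ i, θ i ∈ M) → M = ⊤) :
    Module.finrank ℚ L = 3 ^ k ∧
    Module.rank ℤ (ED ((D : ℕ) : L)).toAffine.Point =
      Module.rank ℤ (ED ((D : ℕ) : ℚ)).toAffine.Point ∧
    ∃ Λ : ℂ → ℂ, MeromorphicOn Λ Set.univ ∧ AnalyticAt ℂ Λ 1 ∧
      (∀ V : HeightOneSpectrum (𝓞 L) → WeierstrassCurve (𝓞 L),
        (∀ v, IsMinAt (ED ((D : ℕ) : L)) v (V v)) → ∀ s : ℂ, 3 / 2 < s.re →
          HasProd (fun v => (lf V s v)⁻¹) (Λ s)) ∧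
      analyticOrderAt Λ 1 = analyticOrderAt F0 1 ∧ analyticOrderAt Λ 1 ≠ ⊤ := by
  have hT := tow_S hM hMs hz hQ hw hw' h9 hD k
  obtain ⟨B, hB⟩ : ∃ B : ℕ, B = 3 * D * ∏ i : Fin k, NQ Q i ^ 3 := ⟨_, rfl⟩
  have hB0 : B ≠ 0 := by
    rw [hB]
    exact mul_ne_zero (mul_ne_zero (by norm_num) hD0)
      (Finset.prod_ne_zero_iff.2 fun i _ => pow_ne_zero 3 (NQ_ne hQ i))
  have hB0' : ((B : ℕ) : Ei) ≠ 0 := by
    intro h
    have h1 := nat_dvd_nat (a := 0) (b := B) (by rw [h]; exact dvd_zero _)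
    exact hB0 (Nat.eq_zero_of_zero_dvd h1)
  have hDB : ((D : ℕ) : Ei) ∣ ((B : ℕ) : Ei) := by
    rw [hB]
    push_cast
    exact ((dvd_refl _).mul_left _).mul_right _
  have hdB : ∀ i : Fin k, dS Q i ∣ ((B : ℕ) : Ei) := by
    intro i
    have h1 : dS Q i ∣ ((NQ Q i : ℕ) : Ei) ^ 3 := by
      rw [← dS_norm]
      exact dvd_mul_right _ _
    refine h1.trans ?_
    rw [hB]
    push_cast
    exact (Finset.dvd_prod_of_mem (fun i : Fin k => ((NQ Q i : ℕ) : Ei) ^ 3)
      (Finset.mem_univ i)).mul_left _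
  obtain ⟨j, F, iF, iN, iK, iL, x, hC, hdeg⟩ := exists_ctx hT (N := fun i : Fin k => NQ Q i)
    (T := fun i : Fin k => TQ Q i) (fun i => dS_norm Q i) (fun i => dS_trace Q i)
    (fun i => dS_star_ne hQ i) θ hθ hgen hdB
  have hcyc : IsCyclotomicExtension {3} ℚ (CyclotomicField 3 ℚ) :=
    Pool.Agent.Y948.CTP.cyc_rat _ _ (CyclotomicField.isCyclotomicExtension 3 ℚ)
  refine ⟨hdeg, ?_, ?_⟩
  · -- the rank
    have hx : ∀ i : Fin k, ((x i : 𝓞 F) : F) ^ 3 = algebraMap (CyclotomicField 3 ℚ) F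
        ((j (dS Q i) : 𝓞 (CyclotomicField 3 ℚ)) : CyclotomicField 3 ℚ) := by
      intro i
      have h1 := congrArg (fun y : 𝓞 F => (y : F)) (hC.cube i)
      exact h1
    have h1 := rankG j hT (fun i => ((x i : 𝓞 F) : F)) hx hC.gen
    have h2 := rank_KQ (K := CyclotomicField 3 ℚ) (D := ((D : ℕ) : ℚ)) (Nat.cast_ne_zero.2 hD0)
    have hgal := hC.gal'
    have hω : (((io F j Pool.Agent.Y692.QS.w : 𝓞 F) : F)) ^ 2 +
        ((io F j Pool.Agent.Y692.QS.w : 𝓞 F) : F) + 1 = 0 := by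
      rw [io_coe, ← map_pow, ← map_add, ← map_one (algebraMap (CyclotomicField 3 ℚ) F),
        ← map_add, om_K j, map_zero]
    have h3 := rank_LF hC.deg' hω (fun g hg => hC.gen' g (RingOfIntegers.ext hg))
      (D := ((D : ℕ) : L)) (Nat.cast_ne_zero.2 hD0)
    have e1 : ((j ((D : ℕ) : Ei) : 𝓞 (CyclotomicField 3 ℚ)) : CyclotomicField 3 ℚ) =
        ((D : ℕ) : CyclotomicField 3 ℚ) := by
      rw [map_natCast]
      push_cast
      rfl
    rw [e1, map_natCast] at h1
    rw [map_natCast] at h2 h3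
    rw [h1, h2] at h3
    exact (two_cancel h3).symm
  · -- the `L`-function
    have hL : ∀ t : Fin k → ZMod 3, ∃ G : ℂ → ℂ,
        HL (tw ((D : ℕ) : Ei) (fun i : Fin k => dS Q i) t) ((B : ℕ) : Ei) G ∧
        (t ≠ 0 → G 1 ≠ 0) ∧ (t = 0 → analyticOrderAt G 1 = analyticOrderAt F0 1) := by
      intro t
      by_cases ht : t = 0
      · subst ht
        obtain ⟨b, hb1, hb2, hb3⟩ := hl_of (net_dt hM w) (D := ((D : ℕ) : Ei))
          (by rw [net_pD]; exact hD) hF0 hB0' hDB
        refine ⟨fun s => F0 s * b s, by rw [tw_zero]; exact hb3, fun h => absurd rfl h,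
          fun _ => ?_⟩
        have e := analyticOrderAt_mul (hF0.1.analyticAt 1) (hb1.analyticAt 1)
        have h0 : analyticOrderAt b 1 = 0 := by
          rw [(hb1.analyticAt 1).analyticOrderAt_eq_zero]
          exact hb2
        rw [h0, add_zero] at e
        exact e
      · obtain ⟨G, h1, h2⟩ := hlG hT ht hB0' (fun α hα h => by
          unfold tw at h
          rcases hα.prime.dvd_or_dvd h with h | h
          · exact h.trans hDB
          · obtain ⟨i, -, hi⟩ := (hα.prime.dvd_finsetProd_iff _).1 h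
            exact (hα.prime.dvd_of_dvd_pow hi).trans (hdB i))
        exact ⟨G, h1, fun _ => h2, fun h => absurd h ht⟩
    choose G hG1 hG2 hG3 using hL
    obtain ⟨Λ, h1, h2, h3, h4, h5⟩ := ordLG hC (D := D) hB0 (by
      rw [hB]
      exact Dvd.intro _ rfl) hG1 hG2
    exact ⟨Λ, h1, h2, h3, by rw [h4, hG3 0 rfl], h5⟩

end

/-- the fields exist -/
theorem exists_fieldQ (N : ℕ → ℕ) (T : ℕ → ℤ) (k : ℕ) :
    ∃ (L : Type) (_ : Field L) (_ : NumberField L) (θ : ℕ → L),
      (∀ i, i < k → θ i ^ 3 = 3 * (N i : L) * θ i + (T i : L)) ∧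
      ∀ M : Subfield L, (∀ i, i < k → θ i ∈ M) → M = ⊤ := by
  let q : ℕ → Polynomial ℚ := fun i => Polynomial.X ^ 3 -
    (Polynomial.C (3 * (N i : ℚ)) * Polynomial.X + Polynomial.C (T i : ℚ))
  have hq : ∀ i, (q i).natDegree = 3 := by
    intro i
    show (Polynomial.X ^ 3 - (Polynomial.C (3 * (N i : ℚ)) * Polynomial.X +
      Polynomial.C (T i : ℚ))).natDegree = 3
    rw [Polynomial.natDegree_sub_eq_left_of_natDegree_lt]
    · exact Polynomial.natDegree_X_pow 3
    · rw [Polynomial.natDegree_X_pow]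
      exact lt_of_le_of_lt Polynomial.natDegree_linear_le (by norm_num)
  have hq0 : ∀ i, q i ≠ 0 := fun i h => by
    have := hq i
    rw [h, Polynomial.natDegree_zero] at this
    exact absurd this (by norm_num)
  let p : Polynomial ℚ := ∏ i ∈ Finset.range k, q i
  let F : Type := p.SplittingField
  have : NumberField F := NumberField.of_module_finite ℚ F
  have hp0 : p ≠ 0 := Finset.prod_ne_zero_iff.2 fun l _ => hq0 l
  have hsp : (p.map (algebraMap ℚ F)).Splits := Polynomial.SplittingField.splits p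
  have hp0' : p.map (algebraMap ℚ F) ≠ 0 :=
    (Polynomial.map_ne_zero_iff (algebraMap ℚ F).injective).2 hp0
  have hroot : ∀ i : ℕ, ∃ x : F, i < k → x ^ 3 = 3 * (N i : F) * x + (T i : F) := by
    intro i
    by_cases hi : i < k
    · have h1 : ((q i).map (algebraMap ℚ F)).Splits :=
        hsp.of_dvd hp0' (Polynomial.map_dvd _ (Finset.dvd_prod_of_mem _ (Finset.mem_range.2 hi)))
      obtain ⟨x, hx⟩ := h1.exists_eval_eq_zero (by
        rw [Polynomial.degree_map, Polynomial.degree_eq_natDegree (hq0 i), hq i]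
        norm_num)
      refine ⟨x, fun _ => ?_⟩
      have h2 : x ^ 3 - (3 * (N i : F) * x + (T i : F)) = 0 := by
        have h3 : ((q i).map (algebraMap ℚ F)).eval x =
            x ^ 3 - (3 * (N i : F) * x + (T i : F)) := by
          show ((Polynomial.X ^ 3 - (Polynomial.C (3 * (N i : ℚ)) * Polynomial.X +
            Polynomial.C (T i : ℚ))).map (algebraMap ℚ F)).eval x = _
          simp
        rw [← h3]
        exact hx
      exact sub_eq_zero.1 h2
    · exact ⟨0, fun h => absurd h hi⟩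
  choose r hr using hroot
  let M : IntermediateField ℚ F := IntermediateField.adjoin ℚ (r '' {i | i < k})
  have hMn : NumberField M := NumberField.of_module_finite ℚ M
  have hrM : ∀ i, i < k → r i ∈ M := fun i hi =>
    IntermediateField.subset_adjoin ℚ _ ⟨i, hi, rfl⟩
  refine ⟨M, inferInstance, hMn, fun i => if h : i < k then ⟨r i, hrM i h⟩ else 0,
    fun i hi => ?_, fun L hL2 => ?_⟩
  · simp only [dif_pos hi]
    apply Subtype.ext
    have h1 := hr i hi
    push_cast
    exact h1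
  · rw [eq_top_iff]
    intro y _
    let L' : IntermediateField ℚ F :=
      { (L.map (algebraMap M F)) with
        algebraMap_mem' := fun k => ⟨algebraMap ℚ M k, by
          have h := SubfieldClass.ratCast_mem L k
          rwa [← eq_ratCast (algebraMap ℚ M) k] at h, rfl⟩ }
    have h1 : M ≤ L' := by
      apply IntermediateField.adjoin_le_iff.2
      rintro _ ⟨i, hi, rfl⟩
      have h2 := hL2 i hi
      simp only [dif_pos (show i < k from hi)] at h2
      exact ⟨_, h2, rfl⟩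
    obtain ⟨y', hy', h2⟩ := h1 y.2
    have h3 : y' = y := Subtype.ext h2
    rw [← h3]
    exact hy'

end Pool.Agent.V5helper41.ST
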