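import Pool.Agent.R432.JG.Full

/-!
# From the Euler product over the good places to the `L`-function with all its Euler factors

Adapted from `R432/JG/Full.lean`: the coefficient is any algebraic integer.
-/

set_option autoImplicit false
set_option linter.unusedSectionVars false

open NumberField IsDedekindDomain Filter Topology

namespace Pool.Agent.V5helper41.ST

open Pool.Agent.R432.C (ED)
open Pool.Agent.R432.V (qv cn ef qv_eq)
open Pool.Agent.R433.MD (lf exists_minimal differentiable_lf)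
open Pool.Agent.H341R2.EC (IsModel IsMinAt red aff trc dlt)
open Pool.Agent.H921R2.TatePole (nm two_le_nm)
open Pool.Agent.R432.JG (lf_congr lf_one)

section

variable {L : Type} [Field L] [NumberField L]

theorem fin_pl {b : 𝓞 L} (hb : b ≠ 0) :
    {v : HeightOneSpectrum (𝓞 L) | b ∈ v.asIdeal}.Finite := by
  have h := Ideal.finite_factors (I := Ideal.span {b}) (by simpa using hb)
  refine h.subset fun v hv => ?_
  show v.asIdeal ∣ Ideal.span {b}
  rw [Ideal.dvd_span_singleton]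
  exact hv

/-- the integral model -/
noncomputable def Wc (c : 𝓞 L) : WeierstrassCurve (𝓞 L) := ⟨0, 0, c, 0, 0⟩

theorem Wc_map (c : 𝓞 L) : (Wc c).map (algebraMap (𝓞 L) L) = ED (c : L) := by
  unfold Wc ED
  simp [WeierstrassCurve.map]

theorem Wc_Δ (c : 𝓞 L) : (Wc c).Δ = -27 * c ^ 4 := by
  unfold Wc
  simp only [WeierstrassCurve.Δ, WeierstrassCurve.b₂, WeierstrassCurve.b₄, WeierstrassCurve.b₆,
    WeierstrassCurve.b₈]
  ring

theorem ellc {c : 𝓞 L} (hc : c ≠ 0) : (ED (c : L)).IsElliptic := by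
  rw [← Wc_map]
  constructor
  rw [WeierstrassCurve.map_Δ, Wc_Δ, isUnit_iff_ne_zero]
  simp [hc]

theorem min_goodc {c : 𝓞 L} {v : HeightOneSpectrum (𝓞 L)} (h : 3 * c ∉ v.asIdeal) :
    (Wc c).Δ ∉ v.asIdeal ∧ IsMinAt (ED (c : L)) v (Wc c) := by
  have hΔ : (Wc c).Δ ∉ v.asIdeal := by
    rw [Wc_Δ]
    intro h1
    apply h
    have hp := v.isPrime
    rcases hp.mem_or_mem h1 with h2 | h2
    · have h3 : (3 : 𝓞 L) ^ 3 ∈ v.asIdeal := by
        have h4 := neg_mem h2
        have h5 : -(-27 : 𝓞 L) = 3 ^ 3 := by norm_num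
        rwa [h5] at h4
      exact Ideal.mul_mem_right _ _ (hp.mem_of_pow_mem _ h3)
    · exact Ideal.mul_mem_left _ _ (hp.mem_of_pow_mem _ h2)
  refine ⟨hΔ, ⟨1, by rw [one_smul, Wc_map]⟩, fun W _ n hn => ?_⟩
  cases n with
  | zero => simp
  | succ n => exact absurd (Ideal.pow_le_self (Nat.succ_ne_zero n) hn) hΔ

theorem aff_Wc (c : 𝓞 L) (v : HeightOneSpectrum (𝓞 L)) :
    aff (red v (Wc c)) = cn c v := by
  unfold aff cn red Wc
  refine Nat.card_congr (Equiv.subtypeEquivRight fun p => ?_)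
  show p.2 ^ 2 + Ideal.Quotient.mk v.asIdeal 0 * p.1 * p.2 +
    Ideal.Quotient.mk v.asIdeal c * p.2 = p.1 ^ 3 + Ideal.Quotient.mk v.asIdeal 0 * p.1 ^ 2 +
    Ideal.Quotient.mk v.asIdeal 0 * p.1 + Ideal.Quotient.mk v.asIdeal 0 ↔ _
  have h0 : Ideal.Quotient.mk v.asIdeal (0 : 𝓞 L) = 0 := map_zero _
  rw [h0]
  constructor
  · intro h
    linear_combination h
  · intro h
    linear_combination h

theorem lf_goodc {c : 𝓞 L} (hc : c ≠ 0)
    {V : HeightOneSpectrum (𝓞 L) → WeierstrassCurve (𝓞 L)} {v : HeightOneSpectrum (𝓞 L)}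
    (h : 3 * c ∉ v.asIdeal) (hV : IsMinAt (ED (c : L)) v (V v)) (s : ℂ) :
    (lf V s v)⁻¹ = ef c s v := by
  obtain ⟨h1, h2⟩ := min_goodc h
  rw [lf_congr (V' := fun _ => Wc c) (ellc hc) hV h2 s]
  unfold lf trc dlt ef
  rw [aff_Wc, if_neg h1, qv_eq]
  push_cast
  ring_nf

/-- **The `L`-function with all Euler factors.** -/
theorem fullc {b c : 𝓞 L} (hb : b ≠ 0) (hbc : 3 * c ∣ b) {G : ℂ → ℂ}
    (hP : ∀ s : ℂ, 3 / 2 < s.re →
      HasProd (fun u : {u : HeightOneSpectrum (𝓞 L) | b ∉ u.asIdeal} => ef c s u.1) (G s)) :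
    ∃ C : ℂ → ℂ, MeromorphicOn C Set.univ ∧ AnalyticAt ℂ C 1 ∧ C 1 ≠ 0 ∧
      ∀ V : HeightOneSpectrum (𝓞 L) → WeierstrassCurve (𝓞 L),
        (∀ v, IsMinAt (ED (c : L)) v (V v)) → ∀ s : ℂ, 3 / 2 < s.re →
          HasProd (fun v => (lf V s v)⁻¹) (C s * G s) := by
  classical
  have hc : c ≠ 0 := by
    rintro rfl
    rw [mul_zero, zero_dvd_iff] at hbc
    exact hb hbc
  have hE : (ED (c : L)).IsElliptic := ellc hc
  obtain ⟨V0, hV0⟩ := exists_minimal (ED (c : L)) hE
  set T := (fin_pl hb).toFinset with hT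
  have hTc : ((T : Set (HeightOneSpectrum (𝓞 L))))ᶜ = {u | b ∉ u.asIdeal} := by
    ext u
    simp [hT]
  have hmem : ∀ w : HeightOneSpectrum (𝓞 L), 3 * c ∈ w.asIdeal → b ∈ w.asIdeal := by
    intro w hw
    obtain ⟨y, hy⟩ := hbc
    rw [hy]
    exact Ideal.mul_mem_right _ _ hw
  have hsplit : ∀ s : ℂ, 3 / 2 < s.re →
      HasProd (fun v => (lf V0 s v)⁻¹) ((∏ v ∈ T, (lf V0 s v)⁻¹) * G s) := by
    intro s hs
    have h1 : HasProd ((fun v => (lf V0 s v)⁻¹) ∘ ((↑) : T → HeightOneSpectrum (𝓞 L)))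
        (∏ v ∈ T, (lf V0 s v)⁻¹) := T.hasProd _
    have h2 : HasProd ((fun v => (lf V0 s v)⁻¹) ∘
        ((↑) : (((T : Set (HeightOneSpectrum (𝓞 L))))ᶜ : Set (HeightOneSpectrum (𝓞 L))) →
          HeightOneSpectrum (𝓞 L))) (G s) := by
      rw [hTc]
      refine (hP s hs).congr_fun fun u => ?_
      exact lf_goodc hc (fun h3 => u.2 (hmem u.1 h3)) (hV0 u.1) s
    exact HasProd.mul_compl (s := (T : Set (HeightOneSpectrum (𝓞 L)))) h1 h2
  have han : ∀ (v : HeightOneSpectrum (𝓞 L)) (z : ℂ), AnalyticAt ℂ (fun s => lf V0 s v) z :=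
    fun v z => (differentiable_lf V0 v).analyticAt z
  refine ⟨fun s => ∏ v ∈ T, (lf V0 s v)⁻¹, fun z _ => ?_, ?_, ?_, fun V hV s hs => ?_⟩
  · refine MeromorphicAt.fun_prod fun v _ => ?_
    exact ((han v z).meromorphicAt).fun_inv
  · refine Finset.analyticAt_fun_prod _ fun v _ => ?_
    exact (han v 1).fun_inv (lf_one V0 v)
  · exact Finset.prod_ne_zero_iff.2 fun v _ => inv_ne_zero (lf_one V0 v)
  · refine (hsplit s hs).congr_fun fun v => ?_
    rw [lf_congr hE (hV v) (hV0 v) s]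

end

/-- the order of vanishing does not change under `s ↦ conj (f (conj s))` -/
theorem order_conj {f : ℂ → ℂ} (hf : Differentiable ℂ f) :
    analyticOrderAt (fun s => (starRingEnd ℂ) (f ((starRingEnd ℂ) s))) 1 = analyticOrderAt f 1 := by
  have hg : ∀ {g : ℂ → ℂ} {z : ℂ}, AnalyticAt ℂ g ((starRingEnd ℂ) z) →
      AnalyticAt ℂ (fun s => (starRingEnd ℂ) (g ((starRingEnd ℂ) s))) z := by
    intro g z h
    rw [Complex.analyticAt_iff_eventually_differentiableAt] at h ⊢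
    have hc : Tendsto (fun s : ℂ => (starRingEnd ℂ) s) (𝓝 z) (𝓝 ((starRingEnd ℂ) z)) :=
      (Complex.continuous_conj).tendsto z
    filter_upwards [hc.eventually h] with s hs
    have h1 := hs.conj_conj
    rwa [Complex.conj_conj] at h1
  have hconj : Differentiable ℂ (fun s => (starRingEnd ℂ) (f ((starRingEnd ℂ) s))) := by
    intro s
    have h1 := (hf ((starRingEnd ℂ) s)).conj_conj
    rwa [Complex.conj_conj] at h1
  by_cases htop : analyticOrderAt f 1 = ⊤
  · rw [htop, analyticOrderAt_eq_top]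
    rw [analyticOrderAt_eq_top] at htop
    have hc : Tendsto (fun s : ℂ => (starRingEnd ℂ) s) (𝓝 1) (𝓝 1) := by
      have := (Complex.continuous_conj).tendsto 1
      rwa [map_one] at this
    filter_upwards [hc.eventually htop] with s hs
    rw [hs, map_zero]
  · obtain ⟨n, hn⟩ := ENat.ne_top_iff_exists.1 htop
    rw [← hn]
    have h1 := (hf.analyticAt 1).analyticOrderAt_eq_natCast (n := n)
    obtain ⟨g, hg1, hg2, hg3⟩ := h1.1 hn.symm
    rw [(hconj.analyticAt 1).analyticOrderAt_eq_natCast]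
    refine ⟨fun s => (starRingEnd ℂ) (g ((starRingEnd ℂ) s)), hg (by rwa [map_one]), ?_, ?_⟩
    · show (starRingEnd ℂ) (g ((starRingEnd ℂ) 1)) ≠ 0
      rw [map_one]
      exact (map_ne_zero _).2 hg2
    · have hc : Tendsto (fun s : ℂ => (starRingEnd ℂ) s) (𝓝 1) (𝓝 1) := by
        have := (Complex.continuous_conj).tendsto 1
        rwa [map_one] at this
      filter_upwards [hc.eventually hg3] with s hs
      rw [hs, smul_eq_mul, smul_eq_mul, map_mul, map_pow, map_sub, Complex.conj_conj, map_one]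

end Pool.Agent.V5helper41.ST
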