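import Pool.Agent.V5helper41.ST.Seq
import Pool.Agent.V5helper41.ST.RkQ
import Pool.Agent.V5helper41.ST.Full

/-!
# The tower over `K = ℚ(ω)`
-/

set_option autoImplicit false
set_option linter.unusedSectionVars false

open NumberField IsDedekindDomain Filter Complex WeierstrassCurve
open scoped Topology Classical

namespace Pool.Agent.V5helper41.ST

open Pool.Agent.Y692.QS hiding chi
open Pool.Agent.Y715.T.Rec (cs nn)
open Pool.Agent.Y715.T.RecG (Pq cs_spec)
open Pool.Agent.Y703.CT (IsHL chD Dt pD Ker descK)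
open Pool.Agent.R432.C
open Pool.Agent.R432.V
open Pool.Agent.R433.MD (lf)
open Pool.Agent.H341R2.EC (IsMinAt)
open Pool.Agent.TH841.NF (Sc)

/-! ### small facts -/

/-- the instance of `Fintype` does not matter -/
lemma hasProd_inst {ι I : Type} {g : ι → ℂ} {i1 i2 : Fintype I} {f : I → ℂ}
    (h : HasProd g (@Finset.prod I ℂ _ (@Finset.univ I i1) f)) :
    HasProd g (@Finset.prod I ℂ _ (@Finset.univ I i2) f) := by
  rw [Subsingleton.elim i2 i1]
  exact h

/-- the instance of `DecidableEq` does not matter -/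
lemma rank_inst {F : Type} [Field F] (W : WeierstrassCurve F) (d1 d2 : DecidableEq F) :
    @Module.rank ℤ W.toAffine.Point _ (@AddCommGroup.toAddCommMonoid _
      (@Affine.Point.instAddCommGroup F _ W.toAffine d1)) (@AddCommGroup.toIntModule _
      (@Affine.Point.instAddCommGroup F _ W.toAffine d1)) =
    @Module.rank ℤ W.toAffine.Point _ (@AddCommGroup.toAddCommMonoid _
      (@Affine.Point.instAddCommGroup F _ W.toAffine d2)) (@AddCommGroup.toIntModule _
      (@Affine.Point.instAddCommGroup F _ W.toAffine d2)) := by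
  have e : d1 = d2 := Subsingleton.elim _ _
  subst e
  rfl

lemma fin_neg {K : Type} [Field K] [CharZero K] {a : K} (h : Finite (ED a).toAffine.Point) :
    Finite (ED (-a)).toAffine.Point := by
  have S : Sc (RingHom.id K) (-1) (ED (-a)) (ED a) := sED _ (by norm_num) (by
    rw [RingHom.id_apply]; ring)
  refine Finite.of_injective (tH S) ?_
  rw [injective_iff_map_eq_zero]
  rintro (_ | ⟨x, y, hxy⟩) hP
  · rfl
  · exfalso
    obtain ⟨h', e⟩ := tH_some S x y hxy
    rw [e] at hP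
    exact Affine.Point.some_ne_zero h' hP

lemma ef_ne {F : Type} [Field F] [NumberField F] {c : 𝓞 F} {v : HeightOneSpectrum (𝓞 F)} {x : ℂ}
    (h : Tr c v x) {s : ℂ} (hs : 3 / 2 < s.re) : ef c s v ≠ 0 := by
  rw [ef_eq h]
  apply inv_ne_zero
  have hq0 : (1 : ℝ) < (qv v : ℝ) := by
    have h1 := Pool.Agent.H921R2.TatePole.two_le_nm v
    rw [← qv_eq] at h1
    have h2 : 1 < qv v := by omega
    exact_mod_cast h2
  have hX : ‖(qv v : ℂ) ^ (-s)‖ = (qv v : ℝ) ^ (-s.re) := by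
    have h2 : (qv v : ℂ) = ((qv v : ℝ) : ℂ) := by push_cast; rfl
    rw [h2, Complex.norm_cpow_eq_rpow_re_of_pos (by linarith), Complex.neg_re]
  have key : ∀ y : ℂ, ‖y‖ = (qv v : ℝ) ^ (1 / 2 : ℝ) → 1 - y * (qv v : ℂ) ^ (-s) ≠ 0 := by
    intro y hy h0
    have h1 : ‖y * (qv v : ℂ) ^ (-s)‖ < 1 := by
      rw [norm_mul, hy, hX, ← Real.rpow_add (by linarith)]
      exact Real.rpow_lt_one_of_one_lt_of_neg hq0 (by linarith)
    rw [← sub_eq_zero.1 h0, norm_one] at h1
    exact lt_irrefl _ h1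
  exact mul_ne_zero (key _ (tr_norm h)) (key _ (by rw [RCLike.norm_conj]; exact tr_norm h))

/-- the Euler product is not zero -/
theorem eul_ne {F : Type} [Field F] [NumberField F] {c : 𝓞 F}
    {U : Set (HeightOneSpectrum (𝓞 F))} (hU : ∀ v ∈ U, ∃ x, Tr c v x) {s : ℂ}
    (hs : 3 / 2 < s.re) {G : ℂ} (hG : HasProd (fun v : U => ef c s v.1) G) : G ≠ 0 := by
  have hsum0 := Pool.Agent.H921R2.TatePole.nm_summable (K := F) (x := s.re - 1 / 2) (by linarith)
  have hsum := hsum0.subtype U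
  have h5 : Summable (fun v : U => ‖ef c s v.1 - 1‖) := by
    refine Summable.of_norm_bounded_eventually (hsum.mul_left 12) ?_
    have h6 := hsum.tendsto_cofinite_zero.eventually (Iio_mem_nhds (by norm_num : (0 : ℝ) < 1 / 4))
    filter_upwards [h6] with v hv
    rw [norm_norm]
    obtain ⟨x, hx⟩ := hU v.1 v.2
    have hq0 : (0 : ℝ) < (qv v.1 : ℝ) := by
      have h1 := Pool.Agent.H921R2.TatePole.two_le_nm v.1
      rw [← qv_eq] at h1
      have h2 : 0 < qv v.1 := by omega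
      exact_mod_cast h2
    have hX : ‖(qv v.1 : ℂ) ^ (-s)‖ = (qv v.1 : ℝ) ^ (-s.re) := by
      have h2 : (qv v.1 : ℂ) = ((qv v.1 : ℝ) : ℂ) := by push_cast; rfl
      rw [h2, Complex.norm_cpow_eq_rpow_re_of_pos hq0, Complex.neg_re]
    have hw : ∀ y : ℂ, ‖y‖ = (qv v.1 : ℝ) ^ (1 / 2 : ℝ) →
        ‖y * (qv v.1 : ℂ) ^ (-s)‖ ≤
          (Pool.Agent.H921R2.TatePole.nm v.1 : ℝ) ^ (-(s.re - 1 / 2)) := by
      intro y hy
      rw [norm_mul, hy, hX, ← Real.rpow_add hq0, ← qv_eq]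
      apply le_of_eq
      congr 1
      ring
    rw [ef_eq hx]
    exact inv_bound (hw _ (tr_norm hx)) (hw _ (by rw [RCLike.norm_conj]; exact tr_norm hx))
      (le_of_lt hv)
  have h7 := tprod_one_add_ne_zero_of_summable (f := fun v : U => ef c s v.1 - 1) (fun v => by
    rw [add_sub_cancel]
    obtain ⟨x, hx⟩ := hU v.1 v.2
    exact ef_ne hx hs) h5
  rw [← hG.tprod_eq]
  refine ne_of_eq_of_ne (tprod_congr fun v => ?_) h7
  rw [add_sub_cancel]

/-- the order of a product with factors that are not zero -/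
theorem order_prod {I : Type} [Fintype I] [DecidableEq I] {f : I → ℂ → ℂ}
    (hf : ∀ t, Differentiable ℂ (f t)) (t0 : I) (h : ∀ t, t ≠ t0 → f t 1 ≠ 0) :
    analyticOrderAt (fun s => ∏ t, f t s) 1 = analyticOrderAt (f t0) 1 := by
  have e : (fun s => ∏ t, f t s) = f t0 * fun s => ∏ t ∈ Finset.univ.erase t0, f t s := by
    funext s
    rw [Pi.mul_apply]
    exact (Finset.mul_prod_erase _ _ (Finset.mem_univ t0)).symm
  have hd : Differentiable ℂ fun s => ∏ t ∈ Finset.univ.erase t0, f t s :=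
    Differentiable.fun_finsetProd fun t _ => hf t
  rw [e, analyticOrderAt_mul ((hf t0).analyticAt 1) (hd.analyticAt 1)]
  have h0 : analyticOrderAt (fun s => ∏ t ∈ Finset.univ.erase t0, f t s) 1 = 0 := by
    rw [(hd.analyticAt 1).analyticOrderAt_eq_zero]
    exact Finset.prod_ne_zero_iff.2 fun t ht => h t (Finset.ne_of_mem_erase ht)
  rw [h0, add_zero]

/-! ### the tower -/

section tower

variable {K : Type} [Field K] [NumberField K] (j : Ei ≃+* 𝓞 K)
variable {M : Finset Ei} {Q : ℕ → Finset Ei}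

lemma dd_ne (hQ : Seq M Q) (k : ℕ) : dd Q k ≠ 0 :=
  Finset.prod_ne_zero_iff.2 fun x hx => ((hQ k).pq x hx).prime.ne_zero

lemma jne {z : Ei} (hz : z ≠ 0) : ((j z : 𝓞 K) : K) ≠ 0 := by
  intro h
  have h1 : (j z : 𝓞 K) = 0 := by exact_mod_cast h
  exact hz ((map_eq_zero_iff j j.injective).1 h1)

lemma j_prod {k : ℕ} (D : Ei) (d : Fin k → Ei) (t : Fin k → ZMod 3) :
    ((j (tw D d t) : 𝓞 K) : K) = ((j D : 𝓞 K) : K) * ∏ i, ((j (d i) : 𝓞 K) : K) ^ (t i).val := by
  unfold tw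
  rw [map_mul, map_prod]
  push_cast
  congr 1
  refine Finset.prod_congr rfl fun i _ => ?_
  rw [map_pow]
  push_cast
  rfl

/-- the radicands are independent modulo cubes -/
theorem ind (hM : ∀ p ∈ M, Pq p) (hQ : Seq M Q) {k : ℕ} (a : Fin k → ZMod 3)
    (ha : ∃ i, a i ≠ 0) : ¬ ∃ z : K, z ^ 3 = ∏ i : Fin k, ((j (dd Q i) : 𝓞 K) : K) ^ (a i).val := by
  obtain ⟨i, hi⟩ := ha
  obtain ⟨x, hx⟩ := (hQ i).ne
  have h1 := indK (K := K) j (S := PP M Q k) (Seq.pq hM hQ k)
    (fun y => uT M Q (fun _ => 0) a y.1)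
    ⟨⟨x, mem_PP.2 (Or.inr ⟨i, i.2, hx⟩)⟩, by
      show uT M Q (fun _ => 0) a x ≠ 0
      rw [uT_Q hQ a hx]
      exact hi⟩
  rintro ⟨z, hz⟩
  apply h1
  refine ⟨z, ?_⟩
  rw [hz]
  have h2 := pw_T hQ (fun _ => (0 : ZMod 3)) a
  have h3 : pw M (fun _ => (0 : ZMod 3)) = 1 := by
    unfold pw
    exact Finset.prod_eq_one fun x _ => by rw [ZMod.val_zero, pow_zero]
  rw [h3, one_mul] at h2
  have h4 := congrArg (fun y : Ei => ((j y : 𝓞 K) : K)) h2
  unfold pw at h4
  rw [map_prod, map_prod] at h4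
  push_cast at h4
  rw [Finset.prod_coe_sort (PP M Q k)
    (fun y => ((j y : 𝓞 K) : K) ^ (uT M Q (fun _ => 0) a y).val)]
  calc ∏ i : Fin k, ((j (dd Q i) : 𝓞 K) : K) ^ (a i).val
      = ∏ i : Fin k, ((j (dd Q i ^ (a i).val) : 𝓞 K) : K) :=
        Finset.prod_congr rfl fun i _ => by rw [map_pow]; push_cast; rfl
    _ = ∏ i ∈ PP M Q k, ((j (i ^ (uT M Q (fun _ => 0) a i).val) : 𝓞 K) : K) := h4.symm
    _ = _ := Finset.prod_congr rfl fun i _ => by rw [map_pow]; push_cast; rfl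

theorem degree (hM : ∀ p ∈ M, Pq p) (hQ : Seq M Q) {k : ℕ} {F : Type} [Field F] [NumberField F]
    [Algebra K F] (x : Fin k → F)
    (hx : ∀ i, x i ^ 3 = algebraMap K F ((j (dd Q i) : 𝓞 K) : K))
    (hgen : ∀ L : Subfield F, (∀ y : K, algebraMap K F y ∈ L) → (∀ i, x i ∈ L) → L = ⊤) :
    IsGalois K F ∧ Module.finrank K F = 3 ^ k := by
  have hω := om_K j
  obtain ⟨hfd, hgal⟩ := gal3 (F := F) hω (fun i : Fin k => ((j (dd Q i) : 𝓞 K) : K)) x hx hgen
  refine ⟨hgal, ?_⟩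
  have h1 := kummer3_card (K := F) hω three_ne_zero x
    (fun i : Fin k => ((j (dd Q i) : 𝓞 K) : K)) (fun i => jne j (dd_ne hQ i)) hx
    (ind j hM hQ) (fun σ hσ => by
      have h5 := hgen (RingHom.eqLocusField (σ : F →+* F) (RingHom.id F))
        (fun y => σ.commutes y) hσ
      ext y
      have h7 : y ∈ RingHom.eqLocusField (σ : F →+* F) (RingHom.id F) := by rw [h5]; trivial
      exact h7)
  rw [Fintype.card_fin] at h1
  rw [← h1]
  exact (IsGalois.card_aut_eq_finrank K F).symm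

/-- the twists have finitely many points -/
theorem fin_T (hM : ∀ p ∈ M, Pq p) (hQ : Seq M Q) {w : Ei → ZMod 3}
    (h9 : ¬ (9 : ℤ) ∣ nr (pw M w) - 1) {D : Ei} (hD : D = pw M w ∨ D = -pw M w) {k : ℕ}
    {t : Fin k → ZMod 3} (ht : t ≠ 0) :
    Finite (ED ((j (tw D (fun i : Fin k => dd Q i) t) : 𝓞 K) : K)).toAffine.Point := by
  have hDt := net_dt (Seq.pq hM hQ k) (uT M Q w t)
  have hKt := net_ker (good_T hQ w ht)
  have h9t := nine_T hQ h9 t
  have hne := act_ne h9t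
  rw [← net_pD] at h9t
  have h0 : pD (fun x : Act (PP M Q k) (uT M Q w t) => x.1) (fun x => uT M Q w t x.1) ≠ 0 :=
    Pool.Agent.Y153.CTRAM.ne_zero_of hDt
  have hfin := (Pool.Agent.Y696.CTK.parts.mwt Pool.Agent.Y696.CTK.parts.trf K j _ h0
        fun i₀ hi u a hT => (descK hDt hKt h9t hT).2).1
  rw [net_pD, pw_T hQ] at hfin
  rcases hD with h | h
  · rw [h]
    exact hfin
  · have h1 := fin_neg hfin
    have h2 : -((j (pw M w * ∏ i : Fin k, dd Q i ^ (t i).val) : 𝓞 K) : K) =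
        ((j (tw D (fun i : Fin k => dd Q i) t) : 𝓞 K) : K) := by
      unfold tw
      rw [h, neg_mul, map_neg]
      push_cast
      rfl
    rw [← h2]
    exact h1

/-- **The rank is the same over all the fields of the tower.** -/
theorem rank_T (hM : ∀ p ∈ M, Pq p) (hQ : Seq M Q) {w : Ei → ZMod 3}
    (h9 : ¬ (9 : ℤ) ∣ nr (pw M w) - 1) {D : Ei} (hD : D = pw M w ∨ D = -pw M w) {k : ℕ}
    {F : Type} [Field F] [NumberField F] [Algebra K F] (x : Fin k → F)
    (hx : ∀ i, x i ^ 3 = algebraMap K F ((j (dd Q i) : 𝓞 K) : K))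
    (hgen : ∀ L : Subfield F, (∀ y : K, algebraMap K F y ∈ L) → (∀ i, x i ∈ L) → L = ⊤) :
    Module.rank ℤ (ED (algebraMap K F ((j D : 𝓞 K) : K))).toAffine.Point =
      Module.rank ℤ (ED ((j D : 𝓞 K) : K)).toAffine.Point := by
  have hω := om_K j
  obtain ⟨hfd, hgal⟩ := gal3 (F := F) hω (fun i : Fin k => ((j (dd Q i) : 𝓞 K) : K)) x hx hgen
  have hD0 : D ≠ 0 := by
    have h1 : pw M w ≠ 0 := Finset.prod_ne_zero_iff.2 fun x hx =>
      pow_ne_zero _ (hM x hx).prime.ne_zero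
    rcases hD with h | h
    · rw [h]; exact h1
    · rw [h]; exact neg_ne_zero.2 h1
  refine rank_stab hω (fun i : Fin k => ((j (dd Q i) : 𝓞 K) : K)) x (fun i => jne j (dd_ne hQ i))
    hx hgen (jne j hD0) fun t ht => ?_
  rw [← j_prod]
  exact fin_T j hM hQ h9 hD ht

/-- **The order of vanishing is the same over all the fields of the tower.** -/
theorem ord_T (hM : ∀ p ∈ M, Pq p) (hQ : Seq M Q) {w : Ei → ZMod 3}
    (h9 : ¬ (9 : ℤ) ∣ nr (pw M w) - 1) {D : Ei} (hD : D = pw M w ∨ D = -pw M w)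
    {F0 : ℂ → ℂ} (hF0 : IsHL (fun x : Act M w => x.1) (fun x => -w x.1) F0) {k : ℕ}
    {F : Type} [Field F] [NumberField F] [Algebra K F] (x : Fin k → F)
    (hx : ∀ i, x i ^ 3 = algebraMap K F ((j (dd Q i) : 𝓞 K) : K))
    (hgen : ∀ L : Subfield F, (∀ y : K, algebraMap K F y ∈ L) → (∀ i, x i ∈ L) → L = ⊤) :
    ∃ Λ : ℂ → ℂ, MeromorphicOn Λ Set.univ ∧ AnalyticAt ℂ Λ 1 ∧
      (∀ V : HeightOneSpectrum (𝓞 F) → WeierstrassCurve (𝓞 F),
        (∀ v, IsMinAt (ED (algebraMap K F ((j D : 𝓞 K) : K))) v (V v)) → ∀ s : ℂ, 3 / 2 < s.re →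
          HasProd (fun v => (lf V s v)⁻¹) (Λ s)) ∧
      analyticOrderAt Λ 1 = 2 * analyticOrderAt F0 1 ∧ analyticOrderAt Λ 1 ≠ ⊤ := by
  obtain ⟨hgal, hdeg⟩ := degree j hM hQ x hx hgen
  have hD0 : D ≠ 0 := by
    have h1 : pw M w ≠ 0 := Finset.prod_ne_zero_iff.2 fun x hx =>
      pow_ne_zero _ (hM x hx).prime.ne_zero
    rcases hD with h | h
    · rw [h]; exact h1
    · rw [h]; exact neg_ne_zero.2 h1
  -- the cube roots as integers
  have hint : ∀ i, IsIntegral ℤ (x i) := by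
    intro i
    refine IsIntegral.of_pow (n := 3) (by norm_num) ?_
    rw [hx i]
    exact (j (dd Q i)).2.map ((algebraMap K F).toIntAlgHom)
  set x' : Fin k → 𝓞 F := fun i => ⟨x i, hint i⟩ with hx'd
  have hx' : ∀ i, x' i ^ 3 = io F j (dd Q i) := by
    intro i
    apply RingOfIntegers.ext
    rw [io_coe, ← hx i]
    rfl
  obtain ⟨B, hB⟩ : ∃ B : Ei, B = 3 * D * ∏ i : Fin k, dd Q i := ⟨_, rfl⟩
  have hB0 : B ≠ 0 := by
    rw [hB]
    exact mul_ne_zero (mul_ne_zero (by decide) hD0)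
      (Finset.prod_ne_zero_iff.2 fun i _ => dd_ne hQ i)
  have hDB : D ∣ B := ⟨3 * ∏ i : Fin k, dd Q i, by rw [hB]; ring⟩
  have h3B : 3 ∣ B := ⟨D * ∏ i : Fin k, dd Q i, by rw [hB]; ring⟩
  have hdB : ∀ i : Fin k, dd Q i ∣ B := fun i => by
    rw [hB]
    exact (Finset.dvd_prod_of_mem (fun i : Fin k => dd Q i) (Finset.mem_univ i)).mul_left _
  -- the twists are not divisible by other primes
  have hT : ∀ t : Fin k → ZMod 3,
      tw D (fun i : Fin k => dd Q i) t =
        pD (fun x : Act (PP M Q k) (uT M Q w t) => x.1) (fun x => uT M Q w t x.1) ∨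
      tw D (fun i : Fin k => dd Q i) t =
        -pD (fun x : Act (PP M Q k) (uT M Q w t) => x.1) (fun x => uT M Q w t x.1) := by
    intro t
    rw [net_pD, pw_T hQ]
    unfold tw
    rcases hD with h | h
    · left; rw [h]
    · right; rw [h, neg_mul]
  -- the functions
  have hL : ∀ t : Fin k → ZMod 3, ∃ L : ℂ → ℂ, HL (tw D (fun i : Fin k => dd Q i) t) B L ∧
      (t ≠ 0 → L 1 ≠ 0) ∧ (t = 0 → analyticOrderAt L 1 = analyticOrderAt F0 1) := by
    intro t
    by_cases ht : t = 0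
    · subst ht
      obtain ⟨b, hb1, hb2, hb3⟩ := hl_of (net_dt hM w) (D := D) (by rw [net_pD]; exact hD) hF0 hB0
        hDB
      refine ⟨fun s => F0 s * b s, by rw [tw_zero]; exact hb3, fun h => absurd rfl h, fun _ => ?_⟩
      have e := analyticOrderAt_mul (hF0.1.analyticAt 1) (hb1.analyticAt 1)
      have h0 : analyticOrderAt b 1 = 0 := by
        rw [(hb1.analyticAt 1).analyticOrderAt_eq_zero]
        exact hb2
      rw [h0, add_zero] at e
      exact e
    · have hDt := net_dt (Seq.pq hM hQ k) (uT M Q w t)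
      have hKt := net_ker (good_T hQ w ht)
      have h9t := nine_T hQ h9 t
      have hne := act_ne h9t
      rw [← net_pD] at h9t
      obtain ⟨L0, h1, h2⟩ := Pool.Agent.Y696.CTE.val_ne hDt hKt h9t
      -- the primes dividing the twist divide `B`
      obtain ⟨B', hB'⟩ : ∃ B' : Ei, B' = B * tw D (fun i : Fin k => dd Q i) t := ⟨_, rfl⟩
      have htw0 : tw D (fun i : Fin k => dd Q i) t ≠ 0 := by
        unfold tw
        exact mul_ne_zero hD0 (Finset.prod_ne_zero_iff.2 fun i _ => pow_ne_zero _ (dd_ne hQ i))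
      obtain ⟨b, hb1, hb2, hb3⟩ := hl_of hDt (hT t) h1 (M := B')
        (by rw [hB']; exact mul_ne_zero hB0 htw0) ⟨B, by rw [hB', mul_comm]⟩
      have hiff : ∀ α : Ei, Pq α → (α ∣ B' ↔ α ∣ B) := by
        intro α hα
        constructor
        · intro h
          rw [hB'] at h
          rcases hα.prime.dvd_or_dvd h with h | h
          · exact h
          · unfold tw at h
            rcases hα.prime.dvd_or_dvd h with h | h
            · exact h.trans hDB
            · obtain ⟨i, -, hi⟩ := (hα.prime.dvd_finsetProd_iff _).1 h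
              exact (hα.prime.dvd_of_dvd_pow hi).trans (hdB i)
        · intro h
          rw [hB']
          exact h.mul_right _
      refine ⟨fun s => L0 s * b s, ⟨hb3.1, fun s hs => ?_⟩, fun _ => mul_ne_zero h2 hb2,
        fun h => absurd h ht⟩
      let E : {α : Ei // Pq α ∧ ¬ α ∣ B} ≃ {α : Ei // Pq α ∧ ¬ α ∣ B'} :=
        Equiv.subtypeEquivRight fun α => ⟨fun h => ⟨h.1, fun h' => h.2 ((hiff α h.1).1 h')⟩,
          fun h => ⟨h.1, fun h' => h.2 ((hiff α h.1).2 h')⟩⟩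
      exact E.hasProd_iff.2 (hb3.2 s hs)
  choose L hL1 hL2 hL3 using hL
  have hprod : ∀ s : ℂ, 3 / 2 < s.re →
      HasProd (fun v : {v : HeightOneSpectrum (𝓞 F) | io F j B ∉ v.asIdeal} =>
        ef (io F j D) s v.1) (∏ t, (L t s * (starRingEnd ℂ) (L t ((starRingEnd ℂ) s)))) :=
    fun s hs => by
      have h := eulG j h3B hDB hdB hL1 (by rw [Fintype.card_fin]; exact hdeg) x' hx'
        (fun L h1 h2 => hgen L h1 h2) hs
      exact hasProd_inst h
  have hio : ∀ z : Ei, z ≠ 0 → io F j z ≠ 0 := fun z hz h =>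
    hz (io_inj (F := F) j (by rw [h, map_zero]))
  obtain ⟨C, hC1, hC2, hC3, hC4⟩ := fullc (b := io F j B) (c := io F j D) (hio _ hB0)
    ⟨io F j (∏ i : Fin k, dd Q i), by rw [hB, map_mul, map_mul, map_ofNat]⟩ hprod
  have hconj : ∀ t, Differentiable ℂ (fun s => (starRingEnd ℂ) (L t ((starRingEnd ℂ) s))) := by
    intro t s
    have h1 := ((hL1 t).1 ((starRingEnd ℂ) s)).conj_conj
    rw [Complex.conj_conj] at h1
    exact h1
  have hdiff : ∀ t, Differentiable ℂ
      (fun s => L t s * (starRingEnd ℂ) (L t ((starRingEnd ℂ) s))) :=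
    fun t => (hL1 t).1.mul (hconj t)
  have hGd : Differentiable ℂ (fun s => ∏ t, (L t s * (starRingEnd ℂ) (L t ((starRingEnd ℂ) s)))) :=
    Differentiable.fun_finsetProd fun t _ => hdiff t
  have hord : analyticOrderAt (fun s => ∏ t, (L t s * (starRingEnd ℂ) (L t ((starRingEnd ℂ) s)))) 1 =
      2 * analyticOrderAt F0 1 := by
    rw [order_prod hdiff 0 fun t ht => mul_ne_zero (hL2 t ht) (by
      rw [map_one]
      exact (map_ne_zero _).2 (hL2 t ht))]
    have e := analyticOrderAt_mul ((hL1 0).1.analyticAt 1) ((hconj 0).analyticAt 1)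
    rw [order_conj (hL1 0).1, hL3 0 rfl, ← two_mul] at e
    exact e
  have hCo : analyticOrderAt C 1 = 0 := by
    rw [hC2.analyticOrderAt_eq_zero]
    exact hC3
  have hfin : analyticOrderAt (fun s => ∏ t, (L t s * (starRingEnd ℂ) (L t ((starRingEnd ℂ) s)))) 1
      ≠ ⊤ := by
    intro htop
    rw [analyticOrderAt_eq_top] at htop
    have h1 : (fun s => ∏ t, (L t s * (starRingEnd ℂ) (L t ((starRingEnd ℂ) s)))) = fun _ => 0 :=
      (hGd.differentiableOn.analyticOnNhd isOpen_univ).eq_of_eventuallyEq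
        (analyticOnNhd_const (v := (0 : ℂ))) htop
    have h2 := hprod 2 (by norm_num)
    have h3 := congrFun h1 2
    rw [h3] at h2
    refine eul_ne (fun v hv => ?_) (by norm_num : (3 : ℝ) / 2 < (2 : ℂ).re) h2 rfl
    have h4 : (3 : 𝓞 F) ∉ v.asIdeal := by
      intro h
      apply hv
      obtain ⟨c, hc⟩ := h3B
      rw [hc, map_mul, map_ofNat]
      exact Ideal.mul_mem_right _ _ h
    obtain ⟨α, hα, hαv⟩ := below (io_inj (F := F) j) h4
    have hαB : ¬ α ∣ B := fun h => hv ((mem_iff (io F j) hα hαv B).2 h)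
    exact ⟨_, tr_at (io F j) hα hαv (fun h => hαB (h.trans hDB))
      ((splitV (F := F) j (fun i : Fin k => dd Q i) x' hx' (fun L h1 h2 => hgen L h1 h2) hα
        fun i h => hαB (h.trans (hdB i))).1 v hαv)⟩
  have hord2 : analyticOrderAt (fun s => C s *
      ∏ t, (L t s * (starRingEnd ℂ) (L t ((starRingEnd ℂ) s)))) 1 =
      analyticOrderAt (fun s => ∏ t, (L t s * (starRingEnd ℂ) (L t ((starRingEnd ℂ) s)))) 1 := by
    have e := analyticOrderAt_mul hC2 (hGd.analyticAt 1)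
    rw [hCo, zero_add] at e
    exact e
  refine ⟨fun s => C s * ∏ t, (L t s * (starRingEnd ℂ) (L t ((starRingEnd ℂ) s))),
    fun z hz => (hC1 z hz).fun_mul (hGd.analyticAt z).meromorphicAt,
    hC2.fun_mul (hGd.analyticAt 1), fun V hV s hs => hC4 V hV s hs, ?_, ?_⟩
  · rw [hord2, hord]
  · rw [hord2]
    exact hfin

end tower

end Pool.Agent.V5helper41.ST
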