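import Pool.Agent.V5helper41.ST.Rat

/-!
# Stable towers from good twists, the radicands being arbitrary
-/

set_option autoImplicit false
set_option linter.unusedSectionVars false

open NumberField IsDedekindDomain Filter Complex WeierstrassCurve
open scoped Topology Classical

namespace Pool.Agent.V5helper41.ST

open Pool.Agent.Y692.QS hiding chi
open Pool.Agent.Y715.T.Rec (cs nn)
open Pool.Agent.Y715.T.RecG (Pq cs_spec)
open Pool.Agent.Y703.CT (IsHL chD Dt pD Ker descK)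
open Pool.Agent.Y696.CT (cs_mul')
open Pool.Agent.R432.C
open Pool.Agent.R432.V
open Pool.Agent.R433.MD (lf)
open Pool.Agent.H341R2.EC (IsMinAt)
open Pool.Agent.TH841.NF (Sc)

/-! ### cubes -/

lemma cs_cube {α a c : Ei} (hα : Pq α) (ha : ¬ α ∣ a) (hc : ¬ α ∣ c) :
    cs α (a * c ^ 3) = cs α a := by
  have h2 : ¬ α ∣ c * c := fun h => (hα.prime.dvd_or_dvd h).elim hc hc
  have h3 : ¬ α ∣ c * c * c := fun h => (hα.prime.dvd_or_dvd h).elim h2 hc
  have e : c ^ 3 = c * c * c := by ring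
  rw [e, cs_mul' hα ha h3, cs_mul' hα h2 hc, cs_mul' hα hc hc]
  have h4 : ∀ x y : ZMod 3, x + (y + y + y) = x := by decide
  exact h4 _ _

lemma hk_cube {α a c : Ei} (hα : Pq α) (ha : ¬ α ∣ a) (hc : ¬ α ∣ c) (s : ℂ) :
    hk (a * c ^ 3) s α = hk a s α := by
  unfold hk
  rw [cs_cube hα ha hc]

/-- `HL` only depends on the radicand modulo cubes and on the primes that are omitted -/
theorem hl_cube {a c B B' : Ei} {L : ℂ → ℂ} (h : HL a B' L)
    (hB : ∀ α : Ei, Pq α → (α ∣ B ↔ α ∣ B')) (ha : ∀ α : Ei, Pq α → α ∣ a * c ^ 3 → α ∣ B) :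
    HL (a * c ^ 3) B L := by
  refine ⟨h.1, fun s hs => ?_⟩
  let E : {α : Ei // Pq α ∧ ¬ α ∣ B} ≃ {α : Ei // Pq α ∧ ¬ α ∣ B'} :=
    Equiv.subtypeEquivRight fun α => ⟨fun h => ⟨h.1, fun h' => h.2 ((hB α h.1).2 h')⟩,
      fun h => ⟨h.1, fun h' => h.2 ((hB α h.1).1 h')⟩⟩
  refine (E.hasProd_iff.2 (h.2 s hs)).congr_fun fun α => ?_
  have h1 : ¬ α.1 ∣ a * c ^ 3 := fun h' => α.2.2 (ha _ α.2.1 h')
  have h2 : ¬ α.1 ∣ a := fun h' => h1 (h'.mul_right _)
  have h3 : ¬ α.1 ∣ c := fun h' => h1 ((h'.trans (dvd_pow_self c (by norm_num))).mul_left _)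
  rw [hk_cube α.2.1 h2 h3]
  rfl

lemma fin_cube {K : Type} [Field K] [CharZero K] {a b c : K} (hc : c ≠ 0) (hb : b = a * c ^ 3)
    (h : Finite (ED a).toAffine.Point) : Finite (ED b).toAffine.Point := by
  have S : Sc (RingHom.id K) c⁻¹ (ED b) (ED a) := sED _ (inv_ne_zero hc) (by
    rw [RingHom.id_apply, hb]
    field_simp)
  refine Finite.of_injective (tH S) ?_
  rw [injective_iff_map_eq_zero]
  rintro (_ | ⟨x, y, hxy⟩) hP
  · rfl
  · exfalso
    obtain ⟨h', e⟩ := tH_some S x y hxy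
    rw [e] at hP
    exact Affine.Point.some_ne_zero h' hP

/-- the twists of `D` by `d` are good, and `d` is independent modulo cubes -/
structure Tow (D : Ei) {k : ℕ} (d : Fin k → Ei) : Prop where
  D0 : D ≠ 0
  d0 : ∀ i, d i ≠ 0
  ind : ∀ a : Fin k → ZMod 3, a ≠ 0 → ∃ (S : Finset Ei) (u : Ei → ZMod 3) (c : Ei),
    (∀ x ∈ S, Pq x) ∧ (∃ x ∈ S, u x ≠ 0) ∧ c ≠ 0 ∧ ∏ i, d i ^ (a i).val = pw S u * c ^ 3
  tw : ∀ t : Fin k → ZMod 3, t ≠ 0 → ∃ (S : Finset Ei) (u : Ei → ZMod 3) (c : Ei),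
    (∀ x ∈ S, Pq x) ∧ Good S u ∧ ¬ (9 : ℤ) ∣ nr (pw S u) - 1 ∧ c ≠ 0 ∧
      (tw D d t = pw S u * c ^ 3 ∨ tw D d t = -pw S u * c ^ 3)

section tower

variable {K : Type} [Field K] [NumberField K] (j : Ei ≃+* 𝓞 K)
variable {D : Ei} {k : ℕ} {d : Fin k → Ei}

theorem indG (hT : Tow D d) (a : Fin k → ZMod 3)
    (ha : ∃ i, a i ≠ 0) : ¬ ∃ z : K, z ^ 3 = ∏ i : Fin k, ((j (d i) : 𝓞 K) : K) ^ (a i).val := by
  obtain ⟨S, u, c, hS, ⟨x, hx, hux⟩, hc, he⟩ := hT.ind a (fun h => by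
    obtain ⟨i, hi⟩ := ha
    exact hi (congrFun h i))
  have h1 := indK (K := K) j hS (fun y => u y.1) ⟨⟨x, hx⟩, hux⟩
  rintro ⟨z, hz⟩
  apply h1
  have hc' := jne j hc
  refine ⟨z * ((j c : 𝓞 K) : K)⁻¹, ?_⟩
  have h4 := congrArg (fun y : Ei => ((j y : 𝓞 K) : K)) he
  unfold pw at h4
  rw [map_prod, map_mul, map_prod, map_pow] at h4
  push_cast at h4
  rw [Finset.prod_coe_sort S (fun y => ((j y : 𝓞 K) : K) ^ (u y).val)]
  have h5 : ∏ i : Fin k, ((j (d i) : 𝓞 K) : K) ^ (a i).val =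
      ∏ i : Fin k, ((j (d i ^ (a i).val) : 𝓞 K) : K) :=
    Finset.prod_congr rfl fun i _ => by rw [map_pow]; push_cast; rfl
  have h6 : ∏ y ∈ S, ((j (y ^ (u y).val) : 𝓞 K) : K) = ∏ y ∈ S, ((j y : 𝓞 K) : K) ^ (u y).val :=
    Finset.prod_congr rfl fun i _ => by rw [map_pow]; push_cast; rfl
  rw [mul_pow, hz, h5, h4, h6, inv_pow, mul_assoc, mul_inv_cancel₀ (pow_ne_zero 3 hc'), mul_one]

theorem degG (hT : Tow D d) {F : Type} [Field F] [NumberField F]
    [Algebra K F] (x : Fin k → F) (hx : ∀ i, x i ^ 3 = algebraMap K F ((j (d i) : 𝓞 K) : K))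
    (hgen : ∀ L : Subfield F, (∀ y : K, algebraMap K F y ∈ L) → (∀ i, x i ∈ L) → L = ⊤) :
    IsGalois K F ∧ Module.finrank K F = 3 ^ k := by
  have hω := om_K j
  obtain ⟨hfd, hgal⟩ := gal3 (F := F) hω (fun i : Fin k => ((j (d i) : 𝓞 K) : K)) x hx hgen
  refine ⟨hgal, ?_⟩
  have h1 := kummer3_card (K := F) hω three_ne_zero x
    (fun i : Fin k => ((j (d i) : 𝓞 K) : K)) (fun i => jne j (hT.d0 i)) hx
    (indG j hT) (fun σ hσ => by
      have h5 := hgen (RingHom.eqLocusField (σ : F →+* F) (RingHom.id F))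
        (fun y => σ.commutes y) hσ
      ext y
      have h7 : y ∈ RingHom.eqLocusField (σ : F →+* F) (RingHom.id F) := by rw [h5]; trivial
      exact h7)
  rw [Fintype.card_fin] at h1
  rw [← h1]
  exact (IsGalois.card_aut_eq_finrank K F).symm

/-- the twists have finitely many points -/
theorem finG (hT : Tow D d) {t : Fin k → ZMod 3} (ht : t ≠ 0) :
    Finite (ED ((j (tw D d t) : 𝓞 K) : K)).toAffine.Point := by
  obtain ⟨S, u, c, hS, hG, h9t, hc, he⟩ := hT.tw t ht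
  have hDt := net_dt hS u
  have hKt := net_ker hG
  have hne := act_ne h9t
  rw [← net_pD] at h9t
  have h0 : pD (fun x : Act S u => x.1) (fun x => u x.1) ≠ 0 :=
    Pool.Agent.Y153.CTRAM.ne_zero_of hDt
  have hfin := (Pool.Agent.Y696.CTK.parts.mwt Pool.Agent.Y696.CTK.parts.trf K j _ h0
        fun i₀ hi u a hT => (descK hDt hKt h9t hT).2).1
  rw [net_pD] at hfin
  rcases he with h | h
  · refine fin_cube (jne j hc) ?_ hfin
    rw [h, map_mul, map_pow]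
    push_cast
    rfl
  · refine fin_cube (jne j hc) ?_ (fin_neg hfin)
    rw [h, map_mul, map_pow, map_neg]
    push_cast
    rfl

/-- **The rank is the same.** -/
theorem rankG (hT : Tow D d) {F : Type} [Field F] [NumberField F] [Algebra K F] (x : Fin k → F)
    (hx : ∀ i, x i ^ 3 = algebraMap K F ((j (d i) : 𝓞 K) : K))
    (hgen : ∀ L : Subfield F, (∀ y : K, algebraMap K F y ∈ L) → (∀ i, x i ∈ L) → L = ⊤) :
    Module.rank ℤ (ED (algebraMap K F ((j D : 𝓞 K) : K))).toAffine.Point =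
      Module.rank ℤ (ED ((j D : 𝓞 K) : K)).toAffine.Point := by
  have hω := om_K j
  obtain ⟨hfd, hgal⟩ := gal3 (F := F) hω (fun i : Fin k => ((j (d i) : 𝓞 K) : K)) x hx hgen
  refine rank_stab hω (fun i : Fin k => ((j (d i) : 𝓞 K) : K)) x (fun i => jne j (hT.d0 i))
    hx hgen (jne j hT.D0) fun t ht => ?_
  rw [← j_prod]
  exact finG j hT ht

/-- the central values of the twists -/
theorem hlG (hT : Tow D d) {t : Fin k → ZMod 3} (ht : t ≠ 0) {B : Ei} (hB : B ≠ 0)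
    (hp : ∀ α : Ei, Pq α → α ∣ tw D d t → α ∣ B) :
    ∃ L : ℂ → ℂ, HL (tw D d t) B L ∧ L 1 ≠ 0 := by
  obtain ⟨S, u, c, hS, hG, h9t, hc, he⟩ := hT.tw t ht
  have hDt := net_dt hS u
  have hKt := net_ker hG
  have hne := act_ne h9t
  have hp0 : pw S u ≠ 0 := by
    unfold pw
    exact Finset.prod_ne_zero_iff.2 fun x hx => pow_ne_zero _ (hS x hx).prime.ne_zero
  rw [← net_pD] at h9t
  obtain ⟨L0, h1, h2⟩ := Pool.Agent.Y696.CTE.val_ne hDt hKt h9t
  obtain ⟨a, ha, hat⟩ : ∃ a : Ei, (a = pD (fun x : Act S u => x.1) (fun x => u x.1) ∨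
      a = -pD (fun x : Act S u => x.1) (fun x => u x.1)) ∧ tw D d t = a * c ^ 3 := by
    rw [net_pD]
    rcases he with h | h
    · exact ⟨_, Or.inl rfl, h⟩
    · exact ⟨_, Or.inr rfl, h⟩
  have ha0 : a ≠ 0 := by
    rw [net_pD] at ha
    rcases ha with h | h
    · rw [h]; exact hp0
    · rw [h]; exact neg_ne_zero.2 hp0
  obtain ⟨b, hb1, hb2, hb3⟩ := hl_of hDt ha h1 (M := B * a) (mul_ne_zero hB ha0)
    ⟨B, by rw [mul_comm]⟩
  refine ⟨fun s => L0 s * b s, ?_, mul_ne_zero h2 hb2⟩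
  rw [hat]
  refine hl_cube hb3 (fun α hα => ⟨fun h => h.mul_right _, fun h => ?_⟩) (by rwa [← hat])
  rcases hα.prime.dvd_or_dvd h with h | h
  · exact h
  · refine hp α hα ?_
    rw [hat]
    exact h.mul_right _

end tower

end Pool.Agent.V5helper41.ST
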