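import Pool.Agent.R432.C5

/-!
# Universal extensions of the graph of the cubic residue symbols

A network is a finite set `S` of primary primes of `ℤ[ω]` and a weight function `u`; the active
primes are those with `u x ≠ 0`.  `Good S u`: the kernel of the Laplacian of the symbols on the
active primes consists of the constants.

**Main point.** For every finite set `P` there is a finite set `Q` of new primes such that for ALL
the weights that are constant and not zero on `Q` (and arbitrary on `P`) the network `P ∪ Q` is good.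
`Q` consists of a prime `a` and, for each `μ ∈ P`, of two primes joined only with `a` (symbol `1`)
and `μ` (symbols `-1` and `1`).
-/

set_option autoImplicit false

namespace Pool.Agent.V5helper41.ST

open Pool.Agent.Y692.QS
open Pool.Agent.Y715.T.Rec (cs)
open Pool.Agent.Y715.T.RecG (Pq)
open Pool.Agent.Y703.CT (Dt pD Ker)
open Pool.Agent.R432.C (inf_q rec_cs pq_dvd)
set_option maxRecDepth 100000 in
lemma alg0 : ∀ s c l : ZMod 3, s ≠ 0 → s * 1 * (c - l) = 0 → l = c := by decide

lemma alg1a : ∀ s u y x1 x2 : ZMod 3, s ≠ 0 ∧ u ≠ 0 ∧ u * (-1) * x1 + s * 1 * (y + x1) = 0 ∧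
    u * 1 * x2 + s * 1 * (y + x2) = 0 → y = 0 := by decide

lemma alg1b : ∀ s u x1 x2 : ZMod 3, s ≠ 0 ∧ u ≠ 0 ∧ u * (-1) * x1 + s * 1 * x1 = 0 ∧
    u * 1 * x2 + s * 1 * x2 = 0 ∧ s * (-1) * x1 + s * 1 * x2 = 0 → x1 = 0 ∧ x2 = 0 := by decide

lemma alg1 (s u c m l1 l2 : ZMod 3) (hs : s ≠ 0) (hu : u ≠ 0)
    (h1 : u * (-1) * (m - l1) + s * 1 * (c - l1) = 0)
    (h2 : u * 1 * (m - l2) + s * 1 * (c - l2) = 0) :
    m = c ∧ (s * (-1) * (l1 - m) + s * 1 * (l2 - m) = 0 → l1 = c ∧ l2 = c) := by
  have h3 : m = c := by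
    have h := alg1a s u (c - m) (m - l1) (m - l2)
      ⟨hs, hu, by linear_combination h1, by linear_combination h2⟩
    exact (sub_eq_zero.1 h).symm
  subst h3
  refine ⟨rfl, fun h4 => ?_⟩
  obtain ⟨h5, h6⟩ := alg1b s u (m - l1) (m - l2)
    ⟨hs, hu, by linear_combination h1, by linear_combination h2, by linear_combination -h4⟩
  exact ⟨(sub_eq_zero.1 h5).symm, (sub_eq_zero.1 h6).symm⟩

open scoped Classical

/-- the kernel of the Laplacian on the active primes consists of the constants -/
def Good (S : Finset Ei) (u : Ei → ZMod 3) : Prop :=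
  ∀ v : Ei → ZMod 3, (∀ x ∈ S, u x ≠ 0 → ∑ y ∈ S, u y * cs x y * (v y - v x) = 0) →
    ∀ x ∈ S, ∀ y ∈ S, u x ≠ 0 → u y ≠ 0 → v x = v y

theorem Good.mono {S S' : Finset Ei} {u : Ei → ZMod 3} (h : Good S u) (hS : S ⊆ S')
    (h0 : ∀ x ∈ S', x ∉ S → u x = 0) : Good S' u := by
  intro v hv x hx y hy hux huy
  have hin : ∀ z ∈ S', u z ≠ 0 → z ∈ S := fun z hz hu => by
    by_contra hc
    exact hu (h0 z hz hc)
  refine h v (fun z hz huz => ?_) x (hin x hx hux) y (hin y hy huy) hux huy
  have h1 := hv z (hS hz) huz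
  rw [← h1]
  refine Finset.sum_subset hS fun t ht htn => ?_
  rw [h0 t ht htn, zero_mul, zero_mul]

/-- new primes with prescribed symbols -/
theorem realize (P : Finset Ei) (hP : ∀ p ∈ P, Pq p) (T : Finset Ei) {I : Type} [Fintype I]
    (Y : I → Ei → ZMod 3) (X : I → I → ZMod 3) (hX : ∀ i j, X i j = X j i) :
    ∃ q : I → Ei, Function.Injective q ∧ (∀ i, Pq (q i) ∧ q i ∉ P ∧ q i ∉ T ∧ nr (q i) % 9 = 1) ∧
      (∀ i, ∀ p ∈ P, cs (q i) p = Y i p) ∧ ∀ i j, i ≠ j → cs (q i) (q j) = X i j := by
  have key : ∀ s : Finset I, ∃ q : I → Ei,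
      (∀ i ∈ s, Pq (q i) ∧ q i ∉ P ∧ q i ∉ T ∧ nr (q i) % 9 = 1) ∧
      (∀ i ∈ s, ∀ p ∈ P, cs (q i) p = Y i p) ∧
      ∀ i ∈ s, ∀ j ∈ s, i ≠ j → q i ≠ q j ∧ cs (q i) (q j) = X i j := by
    intro s
    induction s using Finset.induction_on with
    | empty => exact ⟨fun _ => 0, by simp, by simp, by simp⟩
    | insert i₀ s hi₀ ih =>
      obtain ⟨q, h1, h2, h3⟩ := ih
      have hP' : ∀ p ∈ P ∪ s.image q, Pq p := by
        intro p hp
        rcases Finset.mem_union.1 hp with h | h
        · exact hP p h
        · obtain ⟨i, hi, rfl⟩ := Finset.mem_image.1 h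
          exact (h1 i hi).1
      obtain ⟨x, ⟨hx1, hx2, hx3, hx4⟩, hx5⟩ := ((inf_q (P ∪ s.image q) hP' (fun y => if y ∈ P then
        Y i₀ y else if h : ∃ j ∈ s, q j = y then X i₀ h.choose else 0)).sdiff
          T.finite_toSet).nonempty
      have hxT : x ∉ T := fun h => hx5 (Finset.mem_coe.2 h)
      have hxP : x ∉ P := fun h => hx2 (Finset.mem_union_left _ h)
      have hxq : ∀ j ∈ s, x ≠ q j := fun j hj h =>
        hx2 (Finset.mem_union_right _ (Finset.mem_image.2 ⟨j, hj, h.symm⟩))
      have hc1 : ∀ p ∈ P, cs x p = Y i₀ p := by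
        intro p hp
        have h := hx4 p (Finset.mem_union_left _ hp)
        rwa [if_pos hp] at h
      have hc2 : ∀ j ∈ s, cs x (q j) = X i₀ j := by
        intro j hj
        have h := hx4 (q j) (Finset.mem_union_right _ (Finset.mem_image_of_mem _ hj))
        have hex : ∃ j' ∈ s, q j' = q j := ⟨j, hj, rfl⟩
        rw [if_neg (h1 j hj).2.1, dif_pos hex] at h
        rw [h]
        have h5 := hex.choose_spec
        congr 1
        by_contra hne
        exact (h3 _ h5.1 j hj hne).1 h5.2
      refine ⟨Function.update q i₀ x, fun i hi => ?_, fun i hi => ?_, fun i hi j hj hij => ?_⟩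
      · rcases Finset.mem_insert.1 hi with rfl | hi
        · rw [Function.update_self]
          exact ⟨hx1, hxP, hxT, hx3⟩
        · rw [Function.update_of_ne (fun h => hi₀ (by rw [← h]; exact hi))]
          exact h1 i hi
      · rcases Finset.mem_insert.1 hi with rfl | hi
        · rw [Function.update_self]
          exact hc1
        · rw [Function.update_of_ne (fun h => hi₀ (by rw [← h]; exact hi))]
          exact h2 i hi
      · rcases Finset.mem_insert.1 hi with rfl | hi'
        · rcases Finset.mem_insert.1 hj with rfl | hj'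
          · exact absurd rfl hij
          · rw [Function.update_self, Function.update_of_ne (Ne.symm hij)]
            exact ⟨hxq j hj', hc2 j hj'⟩
        · have hi2 : i ≠ i₀ := fun h => hi₀ (by rw [← h]; exact hi')
          rcases Finset.mem_insert.1 hj with rfl | hj'
          · rw [Function.update_self, Function.update_of_ne hi2]
            refine ⟨(hxq i hi').symm, ?_⟩
            rw [← rec_cs (h1 i hi').1 hx1 (hxq i hi').symm, hc2 i hi', hX]
          · have hj2 : j ≠ i₀ := fun h => hi₀ (by rw [← h]; exact hj')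
            rw [Function.update_of_ne hi2, Function.update_of_ne hj2]
            exact h3 i hi' j hj' hij
  obtain ⟨q, h1, h2, h3⟩ := key Finset.univ
  refine ⟨q, fun i j h => ?_, fun i => h1 i (Finset.mem_univ i),
    fun i => h2 i (Finset.mem_univ i), fun i j hij => (h3 i (Finset.mem_univ i) j
      (Finset.mem_univ j) hij).2⟩
  by_contra hne
  exact (h3 i (Finset.mem_univ i) j (Finset.mem_univ j) hne).1 h

/-- `Q` is a universal extension of `P` -/
structure Univ (P Q : Finset Ei) : Prop where
  pq : ∀ q ∈ Q, Pq q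
  nine : ∀ q ∈ Q, nr q % 9 = 1
  disj : Disjoint P Q
  ne : Q.Nonempty
  good : ∀ (s : ZMod 3) (u : Ei → ZMod 3), s ≠ 0 → (∀ x ∈ Q, u x = s) → Good (P ∪ Q) u

/-- **Universal extensions exist.** -/
theorem exists_univ (P : Finset Ei) (hP : ∀ p ∈ P, Pq p) (T : Finset Ei) :
    ∃ Q : Finset Ei, Univ P Q ∧ Disjoint T Q := by
  obtain ⟨q, hinj, h1, h2, h3⟩ := realize P hP T (I := Option ({p : Ei // p ∈ P} × Bool))
    (fun i y => match i with
      | none => 0
      | some (μ, b) => if y = μ.1 then (if b then -1 else 1) else 0)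
    (fun i j => match i, j with
      | none, none => 0
      | none, some _ => 1
      | some _, none => 1
      | some _, some _ => 0) (by
      rintro (_ | i) (_ | j) <;> rfl)
  refine ⟨Finset.univ.image q, ⟨?_, ?_, ?_, ?_, ?_⟩, ?_⟩
  · intro x hx
    obtain ⟨i, -, rfl⟩ := Finset.mem_image.1 hx
    exact (h1 i).1
  · intro x hx
    obtain ⟨i, -, rfl⟩ := Finset.mem_image.1 hx
    exact (h1 i).2.2.2
  · rw [Finset.disjoint_right]
    intro x hx
    obtain ⟨i, -, rfl⟩ := Finset.mem_image.1 hx
    exact (h1 i).2.1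
  · exact ⟨q none, Finset.mem_image_of_mem _ (Finset.mem_univ _)⟩
  · intro s u hs hu v hv
    have hdis : Disjoint P (Finset.univ.image q) := by
      rw [Finset.disjoint_right]
      intro x hx
      obtain ⟨i, -, rfl⟩ := Finset.mem_image.1 hx
      exact (h1 i).2.1
    have hq : ∀ i, u (q i) = s := fun i => hu _ (Finset.mem_image_of_mem _ (Finset.mem_univ _))
    have hsum : ∀ x, ∑ y ∈ P ∪ Finset.univ.image q, u y * cs x y * (v y - v x) =
        ∑ y ∈ P, u y * cs x y * (v y - v x) + ∑ i, s * cs x (q i) * (v (q i) - v x) := by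
      intro x
      rw [Finset.sum_union hdis, Finset.sum_image fun i _ j _ h => hinj h]
      congr 1
      exact Finset.sum_congr rfl fun i _ => by rw [hq]
    -- the new primes
    have hlam : ∀ (μ : {p : Ei // p ∈ P}) (b : Bool),
        u μ.1 * (if b then -1 else 1) * (v μ.1 - v (q (some (μ, b)))) +
          s * 1 * (v (q none) - v (q (some (μ, b)))) = 0 := by
      intro μ b
      have h := hv (q (some (μ, b))) (Finset.mem_union_right _
        (Finset.mem_image_of_mem _ (Finset.mem_univ _))) (by rw [hq]; exact hs)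
      rw [hsum, Finset.sum_eq_single_of_mem μ.1 μ.2 (fun y hy hne => by
        rw [h2 _ y hy]
        simp only [if_neg hne]
        rw [mul_zero, zero_mul]), h2 _ μ.1 μ.2,
        Finset.sum_eq_single_of_mem (none : Option ({p : Ei // p ∈ P} × Bool))
          (Finset.mem_univ _) (fun i _ hi => by
          by_cases hi' : i = some (μ, b)
          · rw [hi', sub_self, mul_zero]
          · rw [h3 _ i (Ne.symm hi')]
            rcases i with _ | i
            · exact absurd rfl hi
            · simp only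
              rw [mul_zero, zero_mul]), h3 _ none (by simp)] at h
      simpa using h
    have hmu : ∀ μ : {p : Ei // p ∈ P}, u μ.1 ≠ 0 → v μ.1 = v (q none) ∧
        (s * (-1) * (v (q (some (μ, true))) - v μ.1) + s * 1 * (v (q (some (μ, false))) - v μ.1) = 0 →
          v (q (some (μ, true))) = v (q none) ∧ v (q (some (μ, false))) = v (q none)) := by
      intro μ hμ
      have e1 := hlam μ true
      have e2 := hlam μ false
      simp only [if_true, Bool.false_eq_true, if_false] at e1 e2
      exact alg1 s (u μ.1) _ _ _ _ hs hμ e1 e2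
    have hall : ∀ μ : {p : Ei // p ∈ P}, u μ.1 ≠ 0 → v (q (some (μ, true))) = v (q none) ∧
        v (q (some (μ, false))) = v (q none) := by
      intro μ hμ
      apply (hmu μ hμ).2
      have h := hv μ.1 (Finset.mem_union_left _ μ.2) hμ
      rw [hsum, Finset.sum_eq_zero (fun y hy => by
        by_cases hy0 : u y = 0
        · rw [hy0, zero_mul, zero_mul]
        · rw [(hmu ⟨y, hy⟩ hy0).1, (hmu μ hμ).1, sub_self, mul_zero]), zero_add,
        Fintype.sum_option, Fintype.sum_prod_type] at h
      have hrec : ∀ i, cs μ.1 (q i) = cs (q i) μ.1 := fun i => by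
        refine rec_cs (h1 i).1 (hP _ μ.2) fun h' => (h1 i).2.1 ?_
        rw [h']
        exact μ.2
      rw [hrec none, h2 none μ.1 μ.2, mul_zero, zero_mul, zero_add,
        Finset.sum_eq_single_of_mem μ (Finset.mem_univ _) (fun ν _ hν => by
          refine Finset.sum_eq_zero fun b _ => ?_
          rw [hrec, h2 _ μ.1 μ.2]
          simp only
          rw [if_neg (fun h' => hν (Subtype.ext h'.symm)), mul_zero, zero_mul]),
        Fintype.sum_bool, hrec, hrec, h2 _ μ.1 μ.2, h2 _ μ.1 μ.2] at h
      simpa using h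
    have hc : ∀ x ∈ P ∪ Finset.univ.image q, u x ≠ 0 → v x = v (q none) := by
      intro x hx hux
      rcases Finset.mem_union.1 hx with hx | hx
      · exact (hmu ⟨x, hx⟩ hux).1
      · obtain ⟨i, -, rfl⟩ := Finset.mem_image.1 hx
        rcases i with _ | ⟨μ, b⟩
        · rfl
        · by_cases hμ : u μ.1 = 0
          · have e := hlam μ b
            rw [hμ, zero_mul, zero_mul, zero_add] at e
            exact alg0 s _ _ hs e
          · rcases b with _ | _
            · exact (hall μ hμ).2
            · exact (hall μ hμ).1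
    intro x hx y hy hux huy
    rw [hc x hx hux, hc y hy huy]
  · rw [Finset.disjoint_right]
    intro x hx
    obtain ⟨i, -, rfl⟩ := Finset.mem_image.1 hx
    exact (h1 i).2.2.1

end Pool.Agent.V5helper41.ST
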