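import Pool.Agent.R432.V5
import Pool.Agent.V5helper41.ST.Net

/-!
# The Euler product of `E_D` over `F = K(∛d_1, …, ∛d_k)` and the Hecke `L`-functions of the twists

Adapted from `R432/V5.lean`: the radicands `d_i` are arbitrary, and no value has to be nonzero.
-/

set_option autoImplicit false
set_option linter.unusedSectionVars false

open NumberField IsDedekindDomain Filter Complex
open scoped Topology Classical

namespace Pool.Agent.V5helper41.ST

open Pool.Agent.Y692.QS hiding chi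
open Pool.Agent.Y715.T.Rec (cs nn)
open Pool.Agent.Y715.T.RecG (Pq cs_spec)
open Pool.Agent.Y703.CT (IsHL chD Dt pD Ker)
open Pool.Agent.Y696.CT (gg gg_one gg_mul chD_prime cs_mul')
open Pool.Agent.R432.C (pow_add_val pq_dvd om_K)
open Pool.Agent.R432.V

/-- the inverse root of the Euler factor of the Hecke `L`-function of `E_D` at `α` -/
noncomputable def hk (D : Ei) (s : ℂ) (α : Ei) : ℂ :=
  toC (w ^ (-cs α D).val * α) * ((nr α : ℤ) : ℂ) ^ (-s)

/-- `L` is the Hecke `L`-function of `E_D` without the factors at the primes dividing `M` -/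
def HL (D M : Ei) (L : ℂ → ℂ) : Prop :=
  Differentiable ℂ L ∧ ∀ s : ℂ, 3 / 2 < s.re →
    HasProd (fun α : {α : Ei // Pq α ∧ ¬ α ∣ M} => (1 - hk D s α.1)⁻¹) (L s)

lemma gg_hk {J : Type} [Fintype J] {π : J → Ei} {e : J → ZMod 3} (hD : Dt π e) {D : Ei}
    (hDp : D = pD π e ∨ D = -pD π e) {α : Ei} (hα : Pq α) (h : ¬ α ∣ D) (s : ℂ) :
    gg π (fun i => -e i) s α = hk D s α := by
  unfold gg hk
  rw [chD_prime Pool.Agent.Y350.CT.rec hD hDp hα h, map_mul, map_pow]
  ring

/-- the Hecke `L`-function without some Euler factors -/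
theorem hl_of {J : Type} [Fintype J] {π : J → Ei} {e : J → ZMod 3} (hD : Dt π e) {D : Ei}
    (hDp : D = pD π e ∨ D = -pD π e) {F : ℂ → ℂ} (hF : IsHL π (fun i => -e i) F) {M : Ei}
    (hM : M ≠ 0) (hDM : D ∣ M) : ∃ B : ℂ → ℂ, Differentiable ℂ B ∧ B 1 ≠ 0 ∧
      HL D M (fun s => F s * B s) := by
  set T : Finset Ei := (Pool.Agent.Y699.E.fin_pd hM).toFinset with hT
  have hmem : ∀ α : Ei, α ∈ T ↔ Pq α ∧ α ∣ M := by
    intro α
    rw [hT, Set.Finite.mem_toFinset]
    rfl
  have hBd : Differentiable ℂ (fun s => ∏ α ∈ T, (1 - gg π (fun i => -e i) s α)) :=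
    Differentiable.fun_finsetProd fun α hα =>
      (differentiable_const 1).sub (gg_diff π _ ((hmem α).1 hα).1.prime.ne_zero)
  refine ⟨fun s => ∏ α ∈ T, (1 - gg π (fun i => -e i) s α), hBd, ?_, hF.1.mul hBd, fun s hs => ?_⟩
  · refine Finset.prod_ne_zero_iff.2 fun α hα => ?_
    intro h0
    have h1 := gg_norm_lt π (fun i => -e i) (s := 1) (by norm_num) ((hmem α).1 hα).1
    rw [← sub_eq_zero.1 h0, norm_one] at h1
    exact lt_irrefl _ h1
  · have h1 := hasProd_pq (gg_one hD.pq (fun i => -e i) s) (gg_mul hD.pq (fun i => -e i) s)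
      (hF.2 s hs)
    have h2 : HasProd (fun α : {α : Ei // Pq α} =>
        if α.1 ∣ M then 1 - gg π (fun i => -e i) s α.1 else 1)
        (∏ α ∈ T, (1 - gg π (fun i => -e i) s α)) := by
      have h3 := hasProd_prod_of_ne_finset_one (L := .unconditional _)
        (s := T.subtype (fun α => Pq α))
        (f := fun α : {α : Ei // Pq α} => if α.1 ∣ M then 1 - gg π (fun i => -e i) s α.1 else 1)
        (fun α hα => if_neg fun h => hα (by
          rw [Finset.mem_subtype]
          exact (hmem _).2 ⟨α.2, h⟩))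
      have h4 : ∏ α ∈ T.subtype (fun α => Pq α),
          (if α.1 ∣ M then 1 - gg π (fun i => -e i) s α.1 else 1) =
          ∏ α ∈ T, (1 - gg π (fun i => -e i) s α) := by
        rw [← Finset.prod_subtype_of_mem (s := T) (p := fun α => Pq α)
          (fun α => (1 - gg π (fun i => -e i) s α)) (fun α hα => ((hmem α).1 hα).1)]
        refine Finset.prod_congr rfl fun α hα => ?_
        rw [if_pos ((hmem _).1 (Finset.mem_subtype.1 hα)).2]
      rwa [h4] at h3
    have h5 := h1.mul h2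
    set f : {α : Ei // Pq α} → ℂ := fun α => if α.1 ∣ M then 1 else (1 - hk D s α.1)⁻¹ with hf
    have h6 : HasProd f (F s * ∏ α ∈ T, (1 - gg π (fun i => -e i) s α)) := by
      refine h5.congr_fun fun α => ?_
      rw [hf]
      simp only
      split_ifs with h
      · have h7 : (1 - gg π (fun i => -e i) s α.1) ≠ 0 := by
          intro h0
          have h8 := gg_norm_lt π (fun i => -e i) (s := s) (by linarith) α.2
          rw [← sub_eq_zero.1 h0, norm_one] at h8
          exact lt_irrefl _ h8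
        rw [inv_mul_cancel₀ h7]
      · rw [mul_one, gg_hk hD hDp α.2 (fun h' => h (h'.trans hDM)) s]
    let ι : {α : Ei // Pq α ∧ ¬ α ∣ M} → {α : Ei // Pq α} := fun α => ⟨α.1, α.2.1⟩
    have hι : Function.Injective ι := by
      intro a b h
      exact Subtype.ext (congrArg (fun z : {α : Ei // Pq α} => z.1) h)
    have h7 : HasProd (f ∘ ι) (F s * ∏ α ∈ T, (1 - gg π (fun i => -e i) s α)) := by
      rw [hι.hasProd_iff]
      · exact h6
      · intro α hα
        rw [hf]
        simp only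
        rw [if_pos]
        by_contra hcon
        exact hα ⟨⟨α.1, α.2, hcon⟩, rfl⟩
    refine h7.congr_fun fun α => ?_
    show _ = f (ι α)
    rw [hf]
    simp only
    rw [if_neg α.2.2]

/-- the twist by `∏ d_i ^ t_i` -/
noncomputable def tw {I : Type} [Fintype I] (D : Ei) (d : I → Ei) (t : I → ZMod 3) : Ei :=
  D * ∏ i, d i ^ (t i).val

lemma tw_zero {I : Type} [Fintype I] (D : Ei) (d : I → Ei) : tw D d 0 = D := by
  unfold tw
  simp

lemma cs_tw {I : Type} [Fintype I] {D : Ei} {d : I → Ei} (t : I → ZMod 3) {α : Ei}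
    (hα : Pq α) (h1 : ¬ α ∣ D) (h2 : ∀ i, ¬ α ∣ d i) :
    cs α (tw D d t) = cs α D + ∑ i, cs α (d i) * t i := by
  have hpr : ¬ α ∣ ∏ i, d i ^ (t i).val := by
    intro h
    obtain ⟨i, -, hi⟩ := (hα.prime.dvd_finsetProd_iff _).1 h
    exact h2 i (hα.prime.dvd_of_dvd_pow hi)
  unfold tw
  rw [cs_mul' hα h1 hpr]
  congr 1
  rw [Pool.Agent.Y715.T.RecG.cs_prod hα.prime hα.norm _ _
    fun i _ h5 => h2 i (hα.prime.dvd_of_dvd_pow h5)]
  refine Finset.sum_congr rfl fun i _ => ?_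
  rw [Pool.Agent.Y715.T.RecG.cs_pow hα.prime hα.norm (h2 i), ZMod.natCast_zmod_val, mul_comm]

lemma hk_tw {I : Type} [Fintype I] {D : Ei} {d : I → Ei} (t : I → ZMod 3) {α : Ei}
    (hα : Pq α) (h1 : ¬ α ∣ D) (h2 : ∀ i, ¬ α ∣ d i) (s : ℂ) :
    hk (tw D d t) s α = hk D s α * toC w ^ (∑ i, (-cs α (d i)) * t i).val := by
  unfold hk
  have hz3 : toC w ^ 3 = 1 := by rw [← map_pow, w_cube, map_one]
  have h5 : -(∑ i, cs α (d i) * t i) = ∑ i, (-cs α (d i)) * t i := by
    rw [← Finset.sum_neg_distrib]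
    exact Finset.sum_congr rfl fun i _ => (neg_mul _ _).symm
  rw [cs_tw t hα h1 h2, neg_add, h5, map_mul, map_pow, pow_add_val hz3, map_mul, map_pow]
  ring

variable {K : Type} [Field K] [NumberField K] (j : Ei ≃+* 𝓞 K)

/-- **The Euler product of `E_D` over `F = K(∛d_i)`.** -/
theorem eulG {I : Type} [Fintype I] {D M : Ei} {d : I → Ei} (h3M : 3 ∣ M)
    (hDM : D ∣ M) (hdM : ∀ i, d i ∣ M) {L : (I → ZMod 3) → ℂ → ℂ}
    (hL : ∀ t, HL (tw D d t) M (L t)) {F : Type} [Field F] [NumberField F] [Algebra K F]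
    [IsGalois K F] (hdeg : Module.finrank K F = 3 ^ Fintype.card I) (x : I → 𝓞 F)
    (hx : ∀ i, x i ^ 3 = io F j (d i))
    (hgen : ∀ L : Subfield F, (∀ k : K, algebraMap K F k ∈ L) → (∀ i, (x i : F) ∈ L) → L = ⊤)
    {s : ℂ} (hs : 3 / 2 < s.re) :
    HasProd (fun v : {v : HeightOneSpectrum (𝓞 F) | io F j M ∉ v.asIdeal} => ef (io F j D) s v.1)
      (∏ t, (L t s * (starRingEnd ℂ) (L t ((starRingEnd ℂ) s)))) := by
  have hMp : ∀ α : Ei, ¬ α ∣ M → ¬ α ∣ D ∧ ∀ i, ¬ α ∣ d i := fun α hα =>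
    ⟨fun h => hα (h.trans hDM), fun i h => hα (h.trans (hdM i))⟩
  have hφ : Function.Injective (io F j) := io_inj j
  have hsc : 3 / 2 < ((starRingEnd ℂ) s).re := by rwa [Complex.conj_re]
  set U : Set (HeightOneSpectrum (𝓞 F)) := {v | io F j M ∉ v.asIdeal} with hU
  -- the prime below
  have hex : ∀ v : U, ∃ α : {α : Ei // Pq α ∧ ¬ α ∣ M}, io F j α.1 ∈ v.1.asIdeal := by
    intro v
    have h3 : (3 : 𝓞 F) ∉ v.1.asIdeal := by
      intro h
      apply v.2
      obtain ⟨c, rfl⟩ := h3M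
      rw [map_mul, map_ofNat]
      exact Ideal.mul_mem_right _ _ h
    obtain ⟨α, h4, h5⟩ := below hφ h3
    refine ⟨⟨α, h4, fun h6 => v.2 ?_⟩, h5⟩
    exact (mem_iff (io F j) h4 h5 M).2 h6
  choose β hβ using hex
  have hβu : ∀ (v : U) (b : {α : Ei // Pq α ∧ ¬ α ∣ M}), io F j b.1 ∈ v.1.asIdeal → β v = b := by
    intro v b hb
    apply Subtype.ext
    exact pq_dvd (β v).2.1 b.2.1 ((mem_iff (io F j) (β v).2.1 (hβ v) b.1).1 hb)
  have hsp := fun b : {α : Ei // Pq α ∧ ¬ α ∣ M} =>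
    splitV (F := F) j d x hx hgen b.2.1 (hMp _ b.2.2).2
  have htr : ∀ (b : {α : Ei // Pq α ∧ ¬ α ∣ M}) (v : HeightOneSpectrum (𝓞 F)),
      io F j b.1 ∈ v.asIdeal → Tr (io F j D) v
        (toC (w ^ (-cs b.1 D).val * b.1) ^ fo d b.1) :=
    fun b v hv => tr_at (io F j) b.2.1 hv (hMp _ b.2.2).1 ((hsp b).1 v hv)
  set h : {α : Ei // Pq α ∧ ¬ α ∣ M} → ℂ := fun b => ∏ t : I → ZMod 3,
    ((1 - hk (tw D d t) s b.1)⁻¹ *
      (starRingEnd ℂ) ((1 - hk (tw D d t) ((starRingEnd ℂ) s) b.1)⁻¹)) with hh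
  refine eul_abs (fun v hv => ⟨_, htr (β ⟨v, hv⟩) v (hβ ⟨v, hv⟩)⟩) hs β (h := h) ?_ ?_
  · intro b
    set f := fo d b.1 with hf
    obtain ⟨hs1, hs2⟩ := hsp b
    rw [← hf, hdeg] at hs2
    have hf0 : 0 < f := by
      rw [hf]
      unfold fo
      split_ifs <;> norm_num
    -- the fibre
    let E : {v : U // β v = b} ≃ {v : HeightOneSpectrum (𝓞 F) // io F j b.1 ∈ v.asIdeal} :=
      { toFun := fun v => ⟨v.1.1, by have h1 := hβ v.1; rwa [v.2] at h1⟩
        invFun := fun v => ⟨⟨v.1, fun h1 => b.2.2 ((mem_iff (io F j) b.2.1 v.2 M).1 h1)⟩,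
          hβu _ _ v.2⟩
        left_inv := fun v => rfl
        right_inv := fun v => rfl }
    have hfin : Finite {v : HeightOneSpectrum (𝓞 F) // io F j b.1 ∈ v.asIdeal} := by
      refine Nat.finite_of_card_ne_zero fun h0 => ?_
      rw [h0, zero_mul] at hs2
      exact absurd hs2.symm (by positivity)
    have hfin' : Finite {v : U // β v = b} := Finite.of_equiv _ E.symm
    let _ : Fintype {v : U // β v = b} := Fintype.ofFinite _
    have hN : Fintype.card {v : U // β v = b} = 3 ^ Fintype.card I / f := by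
      rw [← Nat.card_eq_fintype_card, Nat.card_congr E, ← hs2, Nat.mul_div_cancel _ hf0]
    have hn0 : ((nr b.1 : ℤ) : ℂ) ≠ 0 := by
      have h1 : nr b.1 ≠ 0 := fun h => b.2.1.prime.ne_zero (nr_zero_iff.1 h)
      exact_mod_cast h1
    have hnn : (((nr b.1).natAbs : ℕ) : ℂ) = ((nr b.1 : ℤ) : ℂ) := by
      have h5 := Int.natAbs_of_nonneg (nr_nonneg b.1)
      have h6 : (((nr b.1).natAbs : ℤ) : ℂ) = ((nr b.1 : ℤ) : ℂ) := by rw [h5]
      exact (Int.cast_natCast _).symm.trans h6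
    set X : ℂ := toC (w ^ (-cs b.1 D).val * b.1) with hX
    set Q : ℂ := ((nr b.1 : ℤ) : ℂ) ^ (-s) with hQ
    have hconst : ∀ v : {v : U // β v = b}, ef (io F j D) s v.1.1 =
        ((1 - (X * Q) ^ f) * (1 - ((starRingEnd ℂ) X * Q) ^ f))⁻¹ := by
      intro v
      have hv : io F j b.1 ∈ v.1.1.asIdeal := by have h1 := hβ v.1; rwa [v.2] at h1
      rw [ef_eq (htr b v.1.1 hv)]
      have hq : (qv v.1.1 : ℂ) ^ (-s) = Q ^ f := by
        unfold qv
        rw [hs1 v.1.1 hv, ← hf, Nat.cast_pow, npow, hnn, hQ]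
      rw [hq, map_pow, mul_pow, mul_pow]
    have hval : h b = ∏ _v : {v : U // β v = b},
        ((1 - (X * Q) ^ f) * (1 - ((starRingEnd ℂ) X * Q) ^ f))⁻¹ := by
      rw [Finset.prod_const, Finset.card_univ, hN, inv_pow, mul_pow, hh]
      simp only
      have hz : toC w ^ 2 + toC w + 1 = 0 := by
        have h1 : (w : Ei) ^ 2 + w + 1 = 0 := by decide
        rw [← map_pow, ← map_add, ← map_one toC, ← map_add, h1, map_zero]
      have hzc : ((starRingEnd ℂ) (toC w)) ^ 2 + (starRingEnd ℂ) (toC w) + 1 = 0 := by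
        rw [← map_pow, ← map_add, ← map_one (starRingEnd ℂ), ← map_add, hz, map_zero]
      have hc1 : (∀ i, -cs b.1 (d i) = 0) → f = 1 := by
        intro h1
        rw [hf]
        unfold fo
        rw [if_pos fun i => neg_eq_zero.1 (h1 i)]
      have hc3 : ¬ (∀ i, -cs b.1 (d i) = 0) → f = 3 := by
        intro h1
        rw [hf]
        unfold fo
        rw [if_neg fun h2 => h1 fun i => neg_eq_zero.2 (h2 i)]
      rw [Finset.prod_mul_distrib, Finset.prod_inv_distrib, mul_inv]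
      obtain ⟨g1, g2⟩ := hMp _ b.2.2
      congr 1
      · congr 1
        rw [← loc (fun i => -cs b.1 (d i)) hz (X * Q) hc1 hc3]
        refine Finset.prod_congr rfl fun t _ => ?_
        rw [hk_tw t b.2.1 g1 g2 s]
        rfl
      · rw [← map_prod, Finset.prod_inv_distrib, map_inv₀, map_prod]
        congr 1
        rw [← loc (fun i => -cs b.1 (d i)) hzc ((starRingEnd ℂ) X * Q) hc1 hc3]
        refine Finset.prod_congr rfl fun t _ => ?_
        rw [hk_tw t b.2.1 g1 g2]
        unfold hk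
        rw [map_sub, map_one, map_mul, map_mul, conj_int_cpow (nr_nonneg b.1), map_neg,
          Complex.conj_conj, map_pow]
    rw [hval]
    refine (hasProd_fintype _).congr_fun fun v => ?_
    exact (hconst v)
  · have h1 := hasProd_prod (s := (Finset.univ : Finset (I → ZMod 3)))
      fun t _ => ((hL t).2 s hs).mul
        (((hL t).2 _ hsc).map (starRingEnd ℂ) Complex.continuous_conj)
    exact h1

end Pool.Agent.V5helper41.ST
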