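import Mathlib

/-!
# A network with an involution: the linear algebra
-/

set_option autoImplicit false

namespace Pool.Agent.V5helper41.ST

section alg

set_option maxRecDepth 100000

lemma s0 : ∀ s c l : ZMod 3, s ≠ 0 ∧ s * (c - l) = 0 → l = c := by decide

/-- two joints with opposite signs -/
lemma s1' : ∀ s u m a b : ZMod 3, s ≠ 0 ∧ u ≠ 0 ∧ u * (m - a) + s * (0 - a) = 0 ∧
    -u * (m - b) + s * (0 - b) = 0 → m = 0 := by decide

lemma s1 (s u c m a b : ZMod 3) (hs : s ≠ 0) (hu : u ≠ 0) (h1 : u * (m - a) + s * (c - a) = 0)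
    (h2 : -u * (m - b) + s * (c - b) = 0) : m = c :=
  sub_eq_zero.1 (s1' s u (m - c) (a - c) (b - c)
    ⟨hs, hu, by linear_combination h1, by linear_combination h2⟩)

lemma s2' : ∀ s t c' a b : ZMod 3, s ≠ 0 ∧ t ≠ 0 ∧ -t * (c' - a) + s * (0 - a) = 0 ∧
    t * (0 - b) + s * (c' - b) = 0 → c' = 0 := by decide

lemma s2 (s t c c' a b : ZMod 3) (hs : s ≠ 0) (ht : t ≠ 0)
    (h1 : -t * (c' - a) + s * (c - a) = 0) (h2 : t * (c - b) + s * (c' - b) = 0) : c' = c :=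
  sub_eq_zero.1 (s2' s t (c' - c) (a - c) (b - c)
    ⟨hs, ht, by linear_combination h1, by linear_combination h2⟩)

lemma s3' : ∀ s u a b : ZMod 3, s ≠ 0 ∧ u ≠ 0 ∧ u * (0 - a) + s * (0 - a) = 0 ∧
    -u * (0 - b) + s * (0 - b) = 0 ∧ s * a + s * b = 0 → a = 0 ∧ b = 0 := by decide

lemma s3 (s u c a b : ZMod 3) (hs : s ≠ 0) (hu : u ≠ 0) (h1 : u * (c - a) + s * (c - a) = 0)
    (h2 : -u * (c - b) + s * (c - b) = 0) (h3 : s * (a - c) + s * (b - c) = 0) :
    a = c ∧ b = c := by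
  obtain ⟨h4, h5⟩ := s3' s u (a - c) (b - c) ⟨hs, hu, by linear_combination h1,
    by linear_combination h2, by linear_combination h3⟩
  exact ⟨sub_eq_zero.1 h4, sub_eq_zero.1 h5⟩

/-- the split case -/
lemma s4' : ∀ s t x1 x2 x3 : ZMod 3, s ≠ 0 ∧ t ≠ 0 ∧ (s - t) * x1 = 0 ∧ (s + t) * x2 = 0 ∧
    (s - t) * x3 = 0 ∧ x1 + x2 + x3 = 0 → x2 = 0 ∧ x1 = -x3 := by decide

lemma s4'' : ∀ s t y1 y2 y3 : ZMod 3, s ≠ 0 ∧ t ≠ 0 ∧ (s + t) * y1 = 0 ∧ (s - t) * y2 = 0 ∧
    (s + t) * y3 = 0 ∧ y1 + y2 + y3 = 0 → y2 = 0 ∧ y1 = -y3 := by decide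

lemma s4 (s t x1 x2 x3 y1 y2 y3 : ZMod 3) (hs : s ≠ 0) (ht : t ≠ 0) (a1 : (s - t) * x1 = 0)
    (a2 : (s + t) * x2 = 0) (a3 : (s - t) * x3 = 0) (b1 : (s + t) * y1 = 0)
    (b2 : (s - t) * y2 = 0) (b3 : (s + t) * y3 = 0) (c1 : x1 + x2 + x3 = 0)
    (c2 : y1 + y2 + y3 = 0) (d1 : x2 - x3 - y1 = 0) (d2 : -x1 + y2 - y3 = 0) :
    x1 = 0 ∧ x2 = 0 ∧ x3 = 0 ∧ y1 = 0 ∧ y2 = 0 ∧ y3 = 0 := by
  obtain ⟨e1, e2⟩ := s4' s t x1 x2 x3 ⟨hs, ht, a1, a2, a3, c1⟩
  obtain ⟨f1, f2⟩ := s4'' s t y1 y2 y3 ⟨hs, ht, b1, b2, b3, c2⟩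
  subst e1 f1 e2 f2
  have h1 : y3 = x3 := by linear_combination d1
  subst h1
  have h2 : ∀ s t x : ZMod 3, s ≠ 0 ∧ t ≠ 0 ∧ (s - t) * x = 0 ∧ (s + t) * x = 0 → x = 0 := by
    decide
  have h3 := h2 s t y3 ⟨hs, ht, a3, b3⟩
  subst h3
  simp

/-- the inert case -/
lemma s5 : ∀ s t x2 x3 : ZMod 3, s ≠ 0 ∧ t ≠ 0 ∧ (s + t) * x2 = 0 ∧ (s - t) * x3 = 0 ∧
    x2 + x3 = 0 → x2 = 0 ∧ x3 = 0 := by decide

end alg

variable {P : Type} [Fintype P] [DecidableEq P]

/-- the symbols of the new primes and the old primes -/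
def Ym (σ : P → P) (z : P) : Fin 4 ⊕ P → P → ZMod 3
  | Sum.inl k, p =>
    if k = 1 then (if p = σ z ∧ σ z ≠ z then -1 else 0)
    else if k = 2 then (if p = z then 1 else 0)
    else if k = 3 then (if p = z then -1 else 0)
    else 0
  | Sum.inr m, p => if p = m ∧ m ≠ z ∧ m ≠ σ z then 1 else 0

/-- the symbols of the new primes -/
def Xm : Fin 4 ⊕ P → Fin 4 ⊕ P → ZMod 3 := fun i j =>
  if i = Sum.inl 0 ↔ j = Sum.inl 0 then 0 else 1

omit [Fintype P] in
lemma Xm_symm (i j : Fin 4 ⊕ P) : Xm i j = Xm j i := by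
  unfold Xm
  by_cases h : i = Sum.inl 0 <;> by_cases h' : j = Sum.inl 0 <;> simp [h, h']

lemma sumX_ne (s : ZMod 3) (b : Fin 4 ⊕ P → ZMod 3) {i : Fin 4 ⊕ P} (hi : i ≠ Sum.inl 0) :
    ∑ j, s * Xm i j * (b j - b i) = s * (b (Sum.inl 0) - b i) := by
  rw [Finset.sum_eq_single (Sum.inl 0)]
  · unfold Xm
    rw [if_neg (by simp [hi]), mul_one]
  · intro j _ hj
    unfold Xm
    rw [if_pos (by simp [hi, hj]), mul_zero, zero_mul]
  · intro h
    exact absurd (Finset.mem_univ _) h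

lemma sumX_a (s : ZMod 3) (b : Fin 4 ⊕ P → ZMod 3) :
    ∑ j, s * Xm (Sum.inl 0) j * (b j - b (Sum.inl 0)) =
      s * ((b (Sum.inl 1) - b (Sum.inl 0)) + (b (Sum.inl 2) - b (Sum.inl 0)) +
        (b (Sum.inl 3) - b (Sum.inl 0))) + ∑ m : P, s * (b (Sum.inr m) - b (Sum.inl 0)) := by
  rw [Fintype.sum_sum_type, Fin.sum_univ_four]
  congr 1
  · unfold Xm
    simp
    ring
  · refine Finset.sum_congr rfl fun m _ => ?_
    unfold Xm
    simp

/-- a sum with an indicator -/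
lemma sum_ind (f : P → ZMod 3) (a : P) (g : P → ZMod 3) (c : ZMod 3)
    (hf : ∀ p, f p = if p = a then c else 0) : ∑ p, f p * g p = c * g a := by
  rw [Finset.sum_eq_single a]
  · rw [hf, if_pos rfl]
  · intro p _ hp
    rw [hf, if_neg hp, zero_mul]
  · intro h
    exact absurd (Finset.mem_univ _) h

/-- **The kernel consists of the constants.** -/
theorem netS (σ : P → P) (hσ : ∀ p, σ (σ p) = p) (S : P → P → ZMod 3) {s : ZMod 3} (hs : s ≠ 0)
    (u v : P → ZMod 3) (z : P) (hz : u z ≠ 0) (hzs : u (σ z) = u z) (b b' : Fin 4 ⊕ P → ZMod 3)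
    (R1 : ∀ i, ∑ p, u p * Ym σ z i p * (v p - b i) + ∑ j, s * Xm i j * (b j - b i) = 0)
    (R2 : ∀ i, ∑ p, u p * (-Ym σ z i (σ p)) * (v p - b' i) +
      ∑ j, s * Xm i j * (b' j - b' i) = 0)
    (R3 : ∀ p, u p ≠ 0 → ∑ p', u p' * S p p' * (v p' - v p) +
      (∑ i, s * Ym σ z i p * (b i - v p) + ∑ i, s * Ym σ z i (σ p) * (b' i - v p)) = 0) :
    ∃ c, (∀ p, u p ≠ 0 → v p = c) ∧ (∀ i, b i = c) ∧ ∀ i, b' i = c := by
  have hσi : ∀ p q : P, σ p = q ↔ p = σ q := fun p q =>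
    ⟨fun h => by rw [← h, hσ], fun h => by rw [h, hσ]⟩
  -- the rows of the new primes
  have r1 : ∀ (i : Fin 4 ⊕ P) (a : P) (e : ZMod 3), i ≠ Sum.inl 0 →
      (∀ p, Ym σ z i p = if p = a then e else 0) →
      u a * e * (v a - b i) + s * (b (Sum.inl 0) - b i) = 0 := by
    intro i a e hi he
    have h := R1 i
    rw [sumX_ne s b hi, sum_ind (fun p => u p * Ym σ z i p) a (fun p => v p - b i) (u a * e)
      (fun p => by
        rw [he]
        by_cases hp : p = a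
        · rw [if_pos hp, if_pos hp, hp]
        · rw [if_neg hp, if_neg hp, mul_zero])] at h
    exact h
  have r2 : ∀ (i : Fin 4 ⊕ P) (a : P) (e : ZMod 3), i ≠ Sum.inl 0 →
      (∀ p, Ym σ z i p = if p = a then e else 0) →
      u (σ a) * (-e) * (v (σ a) - b' i) + s * (b' (Sum.inl 0) - b' i) = 0 := by
    intro i a e hi he
    have h := R2 i
    rw [sumX_ne s b' hi, sum_ind (fun p => u p * (-Ym σ z i (σ p))) (σ a)
      (fun p => v p - b' i) (u (σ a) * (-e)) (fun p => by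
        rw [he]
        by_cases hp : p = σ a
        · rw [if_pos ((hσi _ _).2 hp), if_pos hp, hp]
        · rw [if_neg (fun h => hp ((hσi _ _).1 h)), if_neg hp, neg_zero, mul_zero])] at h
    exact h
  have y1 : ∀ p, Ym σ z (Sum.inl 1) p = if p = σ z then (if σ z ≠ z then -1 else 0) else 0 := by
    intro p
    unfold Ym
    simp only [if_true]
    by_cases hp : p = σ z <;> by_cases h : σ z ≠ z <;> simp [hp, h]
  have y2 : ∀ p, Ym σ z (Sum.inl 2) p = if p = z then 1 else 0 := by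
    intro p
    unfold Ym
    simp
  have y3 : ∀ p, Ym σ z (Sum.inl 3) p = if p = z then -1 else 0 := by
    intro p
    unfold Ym
    simp
  have ym : ∀ m p, Ym σ z (Sum.inr m) p = if p = m then (if m ≠ z ∧ m ≠ σ z then 1 else 0)
      else 0 := by
    intro m p
    unfold Ym
    by_cases hp : p = m <;> by_cases h : m ≠ z ∧ m ≠ σ z <;> simp [hp, h]
  have n1 : (Sum.inl 1 : Fin 4 ⊕ P) ≠ Sum.inl 0 := by simp
  have n2 : (Sum.inl 2 : Fin 4 ⊕ P) ≠ Sum.inl 0 := by simp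
  have n3 : (Sum.inl 3 : Fin 4 ⊕ P) ≠ Sum.inl 0 := by simp
  have nm : ∀ m : P, (Sum.inr m : Fin 4 ⊕ P) ≠ Sum.inl 0 := fun m => by simp
  set c := b (Sum.inl 0) with hc
  have hzs' : u (σ z) ≠ 0 := by rwa [hzs]
  -- z
  have a2 := r1 _ _ _ n2 y2
  have a3 := r1 _ _ _ n3 y3
  have vz : v z = c := s1 s (u z) c (v z) (b (Sum.inl 2)) (b (Sum.inl 3)) hs hz
    (by linear_combination a2) (by linear_combination a3)
  have b2 := r2 _ _ _ n2 y2
  have b3 := r2 _ _ _ n3 y3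
  have vsz : v (σ z) = b' (Sum.inl 0) := s1 s (u (σ z)) _ (v (σ z)) (b' (Sum.inl 3))
    (b' (Sum.inl 2)) hs hzs' (by linear_combination b3) (by linear_combination b2)
  have a1 := r1 _ _ _ n1 y1
  have b1 := r2 _ _ _ n1 y1
  rw [hσ] at b1
  have hcc : b' (Sum.inl 0) = c := by
    by_cases h : σ z = z
    · rw [← vsz, h, vz]
    · rw [if_pos h, vsz, hzs] at a1
      rw [if_pos h, vz] at b1
      exact s2 s (u z) c _ (b (Sum.inl 1)) (b' (Sum.inl 1)) hs hz (by linear_combination a1)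
        (by linear_combination b1)
  rw [hcc] at b1 b2 b3 vsz
  -- the other old primes
  have am : ∀ m : P, m ≠ z → m ≠ σ z → u m * (v m - b (Sum.inr m)) + s * (c - b (Sum.inr m)) = 0 := by
    intro m h1 h2
    have h := r1 _ _ _ (nm m) (ym m)
    rw [if_pos ⟨h1, h2⟩] at h
    linear_combination h
  have bm : ∀ m : P, m ≠ z → m ≠ σ z →
      -u m * (v m - b' (Sum.inr (σ m))) + s * (c - b' (Sum.inr (σ m))) = 0 := by
    intro m h1 h2
    have h := r2 _ _ _ (nm (σ m)) (ym (σ m))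
    rw [if_pos ⟨fun h => h2 ((hσi _ _).1 h), fun h => h1 (by
      have h' := (hσi _ _).1 h
      rwa [hσ] at h')⟩, hσ, hcc] at h
    linear_combination h
  have vm : ∀ m : P, u m ≠ 0 → v m = c := by
    intro m hm
    by_cases h1 : m = z
    · rw [h1, vz]
    by_cases h2 : m = σ z
    · rw [h2, vsz]
    exact s1 s (u m) c (v m) (b (Sum.inr m)) (b' (Sum.inr (σ m))) hs hm (am m h1 h2)
      (bm m h1 h2)
  -- the rows of the old primes
  have r3 : ∀ p, u p ≠ 0 → s * ((Ym σ z (Sum.inl 1) p * (b (Sum.inl 1) - c) +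
      Ym σ z (Sum.inl 2) p * (b (Sum.inl 2) - c) + Ym σ z (Sum.inl 3) p * (b (Sum.inl 3) - c)) +
      (Ym σ z (Sum.inl 1) (σ p) * (b' (Sum.inl 1) - c) +
      Ym σ z (Sum.inl 2) (σ p) * (b' (Sum.inl 2) - c) +
      Ym σ z (Sum.inl 3) (σ p) * (b' (Sum.inl 3) - c))) +
      (s * Ym σ z (Sum.inr p) p * (b (Sum.inr p) - c) +
        s * Ym σ z (Sum.inr (σ p)) (σ p) * (b' (Sum.inr (σ p)) - c)) = 0 := by
    intro p hp
    have h := R3 p hp
    have e0 : ∑ p', u p' * S p p' * (v p' - v p) = 0 := by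
      refine Finset.sum_eq_zero fun p' _ => ?_
      by_cases h' : u p' = 0
      · rw [h', zero_mul, zero_mul]
      · rw [vm p' h', vm p hp, sub_self, mul_zero]
    have e1 : ∀ (f : Fin 4 ⊕ P → ZMod 3) (a : P), ∑ i, s * Ym σ z i a * (f i - c) =
        s * (Ym σ z (Sum.inl 1) a * (f (Sum.inl 1) - c) +
        Ym σ z (Sum.inl 2) a * (f (Sum.inl 2) - c) + Ym σ z (Sum.inl 3) a * (f (Sum.inl 3) - c)) +
        s * Ym σ z (Sum.inr a) a * (f (Sum.inr a) - c) := by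
      intro f a
      rw [Fintype.sum_sum_type, Fin.sum_univ_four]
      have e2 : Ym σ z (Sum.inl 0) a = 0 := by
        unfold Ym
        simp
      have e3 : ∑ m : P, s * Ym σ z (Sum.inr m) a * (f (Sum.inr m) - c) =
          s * Ym σ z (Sum.inr a) a * (f (Sum.inr a) - c) := by
        refine Finset.sum_eq_single a (fun m _ hm => ?_) (fun h => absurd (Finset.mem_univ _) h)
        rw [ym, if_neg (Ne.symm hm), mul_zero, zero_mul]
      rw [e3, e2]
      ring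
    rw [e0, vm p hp, e1, e1] at h
    linear_combination h
  have hm1 : ∀ m : P, m ≠ z → m ≠ σ z → u m ≠ 0 →
      b (Sum.inr m) = c ∧ b' (Sum.inr (σ m)) = c := by
    intro m h1 h2 hm
    have h3 : σ m ≠ z := fun h => h2 ((hσi _ _).1 h)
    have h4 : σ m ≠ σ z := fun h => h1 (by
      have h' := (hσi _ _).1 h
      rwa [hσ] at h')
    have h := r3 m hm
    rw [y1, y2, y3, y1, y2, y3, ym, ym, if_neg h2, if_neg h1, if_neg h4, if_neg h3, if_neg h1,
      if_neg h3, if_pos rfl, if_pos rfl, if_pos ⟨h1, h2⟩, if_pos ⟨h3, h4⟩] at h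
    have e1 := am m h1 h2
    have e2 := bm m h1 h2
    rw [vm m hm] at e1 e2
    exact s3 s (u m) c _ _ hs hm e1 e2 (by linear_combination h)
  have hbm : ∀ m : P, b (Sum.inr m) = c := by
    intro m
    by_cases h1 : m ≠ z ∧ m ≠ σ z
    · by_cases hm : u m = 0
      · have h := am m h1.1 h1.2
        rw [hm, zero_mul, zero_add] at h
        exact s0 s c _ ⟨hs, h⟩
      · exact (hm1 m h1.1 h1.2 hm).1
    · have h := r1 _ _ _ (nm m) (ym m)
      rw [if_neg h1, mul_zero, zero_mul, zero_add] at h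
      exact s0 s c _ ⟨hs, h⟩
  have hbm' : ∀ m : P, b' (Sum.inr m) = c := by
    intro m
    by_cases h1 : σ m ≠ z ∧ σ m ≠ σ z
    · by_cases hm : u (σ m) = 0
      · have h := bm (σ m) h1.1 h1.2
        rw [hm, neg_zero, zero_mul, zero_add, hσ] at h
        exact s0 s c _ ⟨hs, h⟩
      · have h := (hm1 (σ m) h1.1 h1.2 hm).2
        rwa [hσ] at h
    · have h2 : ¬ (m ≠ z ∧ m ≠ σ z) := by
        intro h
        apply h1
        exact ⟨fun h' => h.2 ((hσi _ _).1 h'), fun h' => h.1 (by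
          have h'' := (hσi _ _).1 h'
          rwa [hσ] at h'')⟩
      have h := r2 _ _ _ (nm m) (ym m)
      rw [if_neg h2, neg_zero, mul_zero, zero_mul, zero_add, hcc] at h
      exact s0 s c _ ⟨hs, h⟩
  -- the rows of a
  have ra : (b (Sum.inl 1) - c) + (b (Sum.inl 2) - c) + (b (Sum.inl 3) - c) = 0 := by
    have h := R1 (Sum.inl 0)
    have e1 : ∑ p, u p * Ym σ z (Sum.inl 0) p * (v p - b (Sum.inl 0)) = 0 := by
      refine Finset.sum_eq_zero fun p _ => ?_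
      unfold Ym
      simp
    rw [e1, sumX_a, zero_add, ← hc] at h
    simp only [hbm, sub_self, mul_zero, Finset.sum_const_zero, add_zero] at h
    exact (mul_eq_zero.1 h).resolve_left hs
  have rb : (b' (Sum.inl 1) - c) + (b' (Sum.inl 2) - c) + (b' (Sum.inl 3) - c) = 0 := by
    have h := R2 (Sum.inl 0)
    have e1 : ∑ p, u p * (-Ym σ z (Sum.inl 0) (σ p)) * (v p - b' (Sum.inl 0)) = 0 := by
      refine Finset.sum_eq_zero fun p _ => ?_
      unfold Ym
      simp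
    rw [e1, sumX_a, zero_add, hcc] at h
    simp only [hbm', sub_self, mul_zero, Finset.sum_const_zero, add_zero] at h
    exact (mul_eq_zero.1 h).resolve_left hs
  have f2 : (s + u z) * (b (Sum.inl 2) - c) = 0 := by
    rw [vz] at a2
    linear_combination -a2
  have f3 : (s - u z) * (b (Sum.inl 3) - c) = 0 := by
    rw [vz] at a3
    linear_combination -a3
  have g2 : (s - u z) * (b' (Sum.inl 2) - c) = 0 := by
    rw [vsz, hzs] at b2
    linear_combination -b2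
  have g3 : (s + u z) * (b' (Sum.inl 3) - c) = 0 := by
    rw [vsz, hzs] at b3
    linear_combination -b3
  have hall : (b (Sum.inl 1) - c = 0 ∧ b (Sum.inl 2) - c = 0 ∧ b (Sum.inl 3) - c = 0) ∧
      (b' (Sum.inl 1) - c = 0 ∧ b' (Sum.inl 2) - c = 0 ∧ b' (Sum.inl 3) - c = 0) := by
    by_cases h : σ z = z
    · rw [if_neg (not_not.2 h), mul_zero, zero_mul, zero_add] at a1
      rw [if_neg (not_not.2 h), neg_zero, mul_zero, zero_mul, zero_add] at b1
      have x1 : b (Sum.inl 1) - c = 0 := sub_eq_zero.2 (s0 s c _ ⟨hs, a1⟩)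
      have x1' : b' (Sum.inl 1) - c = 0 := sub_eq_zero.2 (s0 s c _ ⟨hs, b1⟩)
      rw [x1, zero_add] at ra
      rw [x1', zero_add] at rb
      have h1 := s5 s (u z) _ _ ⟨hs, hz, f2, f3, ra⟩
      have h2 := s5 s (u z) (b' (Sum.inl 3) - c) (b' (Sum.inl 2) - c)
        ⟨hs, hz, g3, g2, by rw [add_comm]; exact rb⟩
      exact ⟨⟨x1, h1⟩, x1', h2.2, h2.1⟩
    · have hz1 := r3 z hz
      have hz2 := r3 (σ z) hzs'
      have h' : z ≠ σ z := fun e => h e.symm
      rw [hσ] at hz2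
      rw [y1, y2, y3, y1, y2, y3, ym, ym, if_neg h', if_pos rfl, if_pos rfl, if_pos rfl,
        if_pos h, if_neg h, if_neg h, if_pos rfl, if_pos rfl, if_neg (by simp),
        if_neg (by simp)] at hz1
      rw [y1, y2, y3, y1, y2, y3, ym, ym, if_pos rfl, if_pos h, if_neg h, if_neg h, if_neg h',
        if_pos rfl, if_pos rfl, if_pos rfl, if_pos rfl, if_neg (by simp),
        if_neg (by simp)] at hz2
      have d1 : (b (Sum.inl 2) - c) - (b (Sum.inl 3) - c) - (b' (Sum.inl 1) - c) = 0 := by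
        have h1 : s * ((b (Sum.inl 2) - c) - (b (Sum.inl 3) - c) - (b' (Sum.inl 1) - c)) = 0 := by
          linear_combination hz1
        exact (mul_eq_zero.1 h1).resolve_left hs
      have d2 : -(b (Sum.inl 1) - c) + (b' (Sum.inl 2) - c) - (b' (Sum.inl 3) - c) = 0 := by
        have h1 : s * (-(b (Sum.inl 1) - c) + (b' (Sum.inl 2) - c) - (b' (Sum.inl 3) - c)) = 0 := by
          linear_combination hz2
        exact (mul_eq_zero.1 h1).resolve_left hs
      rw [if_pos h, vsz, hzs] at a1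
      rw [if_pos h, vz] at b1
      obtain ⟨k1, k2, k3, k4, k5, k6⟩ := s4 s (u z) _ _ _ _ _ _ hs hz
        (show (s - u z) * (b (Sum.inl 1) - c) = 0 by linear_combination -a1) f2 f3
        (show (s + u z) * (b' (Sum.inl 1) - c) = 0 by linear_combination -b1) g2 g3 ra rb d1 d2
      exact ⟨⟨k1, k2, k3⟩, k4, k5, k6⟩
  refine ⟨c, vm, fun i => ?_, fun i => ?_⟩
  · rcases i with i | m
    · fin_cases i
      · rfl
      · exact sub_eq_zero.1 hall.1.1
      · exact sub_eq_zero.1 hall.1.2.1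
      · exact sub_eq_zero.1 hall.1.2.2
    · exact hbm m
  · rcases i with i | m
    · fin_cases i
      · exact hcc
      · exact sub_eq_zero.1 hall.2.1
      · exact sub_eq_zero.1 hall.2.2.1
      · exact sub_eq_zero.1 hall.2.2.2
    · exact hbm' m

end Pool.Agent.V5helper41.ST
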