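import Pool.Agent.V5helper41.ST.Eul
import Pool.Agent.R432.V12

/-!
# The Euler product of `E_D`, `D ∈ ℕ`, over a number field `L` with `L(ω) = K(∛d_1, …, ∛d_k)`

Adapted from `R432/V8.lean`, `R432/V10.lean` and `R432/V11.lean`: the radicands are in `ℤ[ω]`.
-/

set_option autoImplicit false
set_option linter.unusedSectionVars false

open NumberField IsDedekindDomain Filter Complex
open scoped Topology Classical

namespace Pool.Agent.V5helper41.ST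

open Pool.Agent.Y692.QS hiding chi
open Pool.Agent.Y715.T.Rec (cs nn)
open Pool.Agent.Y715.T.RecG (Pq cs_spec)
open Pool.Agent.Y696.CT (pq_star cs_star_int cs_inert inert int_ndvd im_star_ne cpow_two)
open Pool.Agent.R432.C (pq_dvd)
open Pool.Agent.R432.V
open Pool.Agent.Y703.CX (pp)
open Pool.Agent.Y333.CX (pp_spec)

variable {K L F : Type} [Field K] [NumberField K] [Field L] [NumberField L] [Field F]
  [NumberField F] [Algebra K F] [Algebra L F] {j : Ei ≃+* 𝓞 K}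

/-- `F = K(∛d_i) = L(ω)` -/
structure CtxG (L : Type) [Field L] [NumberField L] [Algebra L F] (j : Ei ≃+* 𝓞 K) {I : Type}
    [Fintype I] (d : I → Ei) (M : ℕ) (x : I → 𝓞 F) : Prop where
  gal : IsGalois K F
  gal' : IsGalois L F
  deg : Module.finrank K F = 3 ^ Fintype.card I
  deg' : Module.finrank L F = 2
  cube : ∀ i, x i ^ 3 = io F j (d i)
  gen : ∀ N : Subfield F, (∀ k : K, algebraMap K F k ∈ N) → (∀ i, (x i : F) ∈ N) → N = ⊤
  gen' : ∀ g : F ≃ₐ[L] F, g • io F j w = io F j w → g = 1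
  dM : ∀ i, d i ∣ ((M : ℕ) : Ei)
  st : ∀ α : Ei, Pq α → ¬ α ∣ ((M : ℕ) : Ei) → fo d (star α) = fo d α

lemma fo_or {I : Type} (d : I → Ei) (α : Ei) : fo d α = 1 ∨ fo d α = 3 := by
  unfold fo
  split_ifs
  · exact Or.inl rfl
  · exact Or.inr rfl

lemma fo_odd {I : Type} (d : I → Ei) (α : Ei) : fo d α % 2 = 1 ∧ 0 < fo d α := by
  rcases fo_or d α with h | h <;> rw [h] <;> norm_num

lemma pow_mod_two {p f : ℕ} (h : p % 3 = 2) (hf : f = 1 ∨ f = 3) : p ^ f % 3 = 2 := by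
  rcases hf with rfl | rfl
  · rwa [pow_one]
  · rw [Nat.pow_mod, h]

section places

variable {I : Type} [Fintype I] {d : I → Ei} {M : ℕ} {x : I → 𝓞 F}

theorem place1 (C : CtxG L j d M x) {p : ℕ}
    (hp : p.Prime) (h1 : p % 3 = 1) {α : Ei} (hα : Pq α) (hn : nr α = p)
    (hpM : ¬ p ∣ M) {D : ℕ} (hD : ¬ p ∣ D) {f : ℕ} (hf : f = fo d α) :
    (Finite {u : HeightOneSpectrum (𝓞 L) // ((p : ℕ) : 𝓞 L) ∈ u.asIdeal} ∧
    Nat.card {u : HeightOneSpectrum (𝓞 L) // ((p : ℕ) : 𝓞 L) ∈ u.asIdeal} * f =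
      3 ^ Fintype.card I) ∧
    ∀ u : HeightOneSpectrum (𝓞 L), ((p : ℕ) : 𝓞 L) ∈ u.asIdeal → qv u = p ^ f ∧
      Tr ((D : ℕ) : 𝓞 L) u (toC (w ^ (-cs α ((D : ℕ) : Ei)).val * α) ^ f) := by
  have hgal := C.gal
  have hgal' := C.gal'
  have hα' := pq_star hα
  have hn' : nr (star α) = p := by rw [nr_star, hn]
  have hfo' : fo d (star α) = f := by
    rw [hf]
    exact C.st α hα (ndvd_nat hp hn hpM)
  obtain ⟨s1, s2⟩ := splitV (F := F) j d x C.cube C.gen hα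
    (fun i h => ndvd_nat hp hn hpM (h.trans (C.dM i)))
  obtain ⟨s3, s4⟩ := splitV (F := F) j d x C.cube C.gen hα'
    (fun i h => ndvd_nat hp hn' hpM (h.trans (C.dM i)))
  rw [← hf, C.deg] at s2
  rw [hfo', C.deg] at s4
  have hnat : (nr α).natAbs = p := by rw [hn]; exact Int.natAbs_natCast p
  have hnat' : (nr (star α)).natAbs = p := by rw [hn']; exact Int.natAbs_natCast p
  have hodd : f % 2 = 1 ∧ 0 < f := by
    rw [hf]
    exact fo_odd d α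
  have hmul : io F j α * io F j (star α) = ((p : ℕ) : 𝓞 F) := by
    rw [← map_mul, mul_star, hn, Int.cast_natCast, io_nat]
  have hne : α ≠ star α := (im_star_ne hp hn).symm
  -- the places of `F`
  have hcase : ∀ v : HeightOneSpectrum (𝓞 F), ((p : ℕ) : 𝓞 F) ∈ v.asIdeal ↔
      io F j α ∈ v.asIdeal ∨ io F j (star α) ∈ v.asIdeal := by
    intro v
    rw [← hmul]
    constructor
    · exact v.isPrime.mem_or_mem
    · rintro (h | h)
      · exact v.asIdeal.mul_mem_right _ h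
      · exact v.asIdeal.mul_mem_left _ h
  have hqv : ∀ v : HeightOneSpectrum (𝓞 F), ((p : ℕ) : 𝓞 F) ∈ v.asIdeal → qv v = p ^ f ∧
      Tr ((D : ℕ) : 𝓞 F) v (toC (w ^ (-cs α ((D : ℕ) : Ei)).val * α) ^ f) := by
    intro v hv
    rcases (hcase v).1 hv with h | h
    · have h5 := s1 v h
      rw [← hf] at h5
      have h6 := tr_at (io F j) hα h (ndvd_nat hp hn hD) h5
      rw [hnat] at h5
      rw [io_nat] at h6
      exact ⟨h5, h6⟩
    · have h5 := s3 v h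
      rw [hfo'] at h5
      have h6 := tr_at (io F j) hα' h (ndvd_nat hp hn' hD) h5
      rw [hnat'] at h5
      rw [io_nat] at h6
      refine ⟨h5, ?_⟩
      have h7 := Tr_conj h6
      have h8 : (starRingEnd ℂ) (toC (w ^ (-cs (star α) ((D : ℕ) : Ei)).val * star α) ^ f) =
          toC (w ^ (-cs α ((D : ℕ) : Ei)).val * α) ^ f := by
        rw [map_pow, ← Pool.Agent.Y696.CTK.toC_star', star_mul', star_star,
          cs_star_nat hα (ndvd_nat hp hn hD), neg_neg]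
        have hst : star (w ^ (cs α ((D : ℕ) : Ei)).val : Ei) =
            w ^ (-cs α ((D : ℕ) : Ei)).val := by
          generalize cs α ((D : ℕ) : Ei) = c
          revert c
          decide
        rw [hst]
      rwa [h8] at h7
  -- count
  have hAne : Nat.card {v : HeightOneSpectrum (𝓞 F) // io F j α ∈ v.asIdeal} ≠ 0 := by
    intro h0
    rw [h0, zero_mul] at s2
    exact absurd s2.symm (by positivity)
  have hBne : Nat.card {v : HeightOneSpectrum (𝓞 F) // io F j (star α) ∈ v.asIdeal} ≠ 0 := by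
    intro h0
    rw [h0, zero_mul] at s4
    exact absurd s4.symm (by positivity)
  have hfA : Finite {v : HeightOneSpectrum (𝓞 F) // io F j α ∈ v.asIdeal} :=
    Nat.finite_of_card_ne_zero hAne
  have hfB : Finite {v : HeightOneSpectrum (𝓞 F) // io F j (star α) ∈ v.asIdeal} :=
    Nat.finite_of_card_ne_zero hBne
  have hsplit : {v : HeightOneSpectrum (𝓞 F) | ((p : ℕ) : 𝓞 F) ∈ v.asIdeal} =
      {v | io F j α ∈ v.asIdeal} ∪ {v | io F j (star α) ∈ v.asIdeal} := by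
    ext v
    exact hcase v
  have hdis : Disjoint {v : HeightOneSpectrum (𝓞 F) | io F j α ∈ v.asIdeal}
      {v | io F j (star α) ∈ v.asIdeal} := by
    rw [Set.disjoint_left]
    intro v hv1 hv2
    exact hne (pq_dvd hα hα' ((mem_iff (io F j) hα hv1 _).1 hv2))
  have hfinA : {v : HeightOneSpectrum (𝓞 F) | io F j α ∈ v.asIdeal}.Finite :=
    Set.finite_coe_iff.1 hfA
  have hfinB : {v : HeightOneSpectrum (𝓞 F) | io F j (star α) ∈ v.asIdeal}.Finite :=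
    Set.finite_coe_iff.1 hfB
  have hcnt : Nat.card {v : HeightOneSpectrum (𝓞 F) // ((p : ℕ) : 𝓞 F) ∈ v.asIdeal} =
      Nat.card {v : HeightOneSpectrum (𝓞 F) // io F j α ∈ v.asIdeal} +
      Nat.card {v : HeightOneSpectrum (𝓞 F) // io F j (star α) ∈ v.asIdeal} := by
    have h5 := Set.ncard_union_eq hdis hfinA hfinB
    rw [← hsplit] at h5
    exact h5
  have hfinP : Finite {v : HeightOneSpectrum (𝓞 F) // ((p : ℕ) : 𝓞 F) ∈ v.asIdeal} := by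
    have h5 : {v : HeightOneSpectrum (𝓞 F) | ((p : ℕ) : 𝓞 F) ∈ v.asIdeal}.Finite := by
      rw [hsplit]
      exact hfinA.union hfinB
    exact h5.to_subtype
  obtain ⟨hfu, hsum⟩ := card_sig (L := L) (F := F) p
  have h3u : ∀ u : HeightOneSpectrum (𝓞 L), ((p : ℕ) : 𝓞 L) ∈ u.asIdeal → (3 : 𝓞 L) ∉ u.asIdeal := by
    intro u hu h3
    have h5 : IsCoprime (3 : ℤ) (p : ℤ) := by
      rw [Int.isCoprime_iff_gcd_eq_one]
      have h6 : Nat.Coprime 3 p := (Nat.coprime_primes Nat.prime_three hp).2 (by omega)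
      exact_mod_cast h6
    obtain ⟨a, b, hab⟩ := h5
    apply u.isPrime.ne_top
    rw [Ideal.eq_top_iff_one]
    have h7 : ((a * 3 + b * p : ℤ) : 𝓞 L) = 1 := by rw [hab]; norm_num
    rw [← h7]
    push_cast
    exact u.asIdeal.add_mem (u.asIdeal.mul_mem_left _ h3) (u.asIdeal.mul_mem_left _ hu)
  have hone : ∀ u : HeightOneSpectrum (𝓞 L), ((p : ℕ) : 𝓞 L) ∈ u.asIdeal →
      Nat.card {v : HeightOneSpectrum (𝓞 F) // Ov u v} = 2 ∧ qv u = p ^ f ∧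
      Tr ((D : ℕ) : 𝓞 L) u (toC (w ^ (-cs α ((D : ℕ) : Ei)).val * α) ^ f) := by
    intro u hu
    obtain ⟨v, hv⟩ := exists_over (F := F) u
    obtain ⟨h5, h6⟩ := hqv v ((Ov_nat hv p).2 hu)
    rcases quad C.deg' (io_w (F := F) (j := j)) C.gen' (h3u u hu) hv with ⟨h7, h8⟩ | ⟨h7, h8⟩
    · exact ⟨h8, by rw [← h7, h5], Tr_of hv h7 h6⟩
    · exfalso
      rw [h5] at h7
      exact not_sq hp hodd.1 h7
  refine ⟨⟨Finite.of_fintype _, ?_⟩, fun u hu => (hone u hu).2⟩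
  rw [Finset.sum_congr rfl fun u _ => (hone u.1 u.2).1, Finset.sum_const, Finset.card_univ,
    ← Nat.card_eq_fintype_card, hcnt, smul_eq_mul] at hsum
  have h5 : Nat.card {u : HeightOneSpectrum (𝓞 L) // ((p : ℕ) : 𝓞 L) ∈ u.asIdeal} * 2 * f =
      3 ^ Fintype.card I + 3 ^ Fintype.card I := by
    rw [← hsum, add_mul, s2, s4]
  have h6 : Nat.card {u : HeightOneSpectrum (𝓞 L) // ((p : ℕ) : 𝓞 L) ∈ u.asIdeal} * f * 2 =
      3 ^ Fintype.card I * 2 := by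
    rw [mul_right_comm, h5]
    ring
  exact Nat.eq_of_mul_eq_mul_right (by norm_num) h6

theorem place2 (C : CtxG L j d M x) {p : ℕ}
    (hp : p.Prime) (h2 : p % 3 = 2) (hpM : ¬ p ∣ M) {D : ℕ} (hD : ¬ p ∣ D) {f : ℕ}
    (hf : f = fo d (-((p : ℕ) : Ei))) :
    (∃ _h : Fintype {u : HeightOneSpectrum (𝓞 L) // ((p : ℕ) : 𝓞 L) ∈ u.asIdeal},
      (∑ u : {u : HeightOneSpectrum (𝓞 L) // ((p : ℕ) : 𝓞 L) ∈ u.asIdeal},
        Nat.card {v : HeightOneSpectrum (𝓞 F) // Ov u.1 v}) = 3 ^ Fintype.card I / f) ∧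
    ∀ u : HeightOneSpectrum (𝓞 L), ((p : ℕ) : 𝓞 L) ∈ u.asIdeal →
      (qv u = (p ^ 2) ^ f ∧ Nat.card {v : HeightOneSpectrum (𝓞 F) // Ov u v} = 2 ∧
        Tr ((D : ℕ) : 𝓞 L) u ((-(p : ℂ)) ^ f)) ∨
      (qv u = p ^ f ∧ Nat.card {v : HeightOneSpectrum (𝓞 F) // Ov u v} = 1) := by
  have hfact := Fact.mk hp
  have hgal := C.gal
  have hgal' := C.gal'
  have hα : Pq (-((p : ℕ) : Ei)) := inert hp h2
  have hnr : nr (-((p : ℕ) : Ei)) = (p : ℤ) ^ 2 := by rw [nr_neg, nr_nat]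
  have hnat : (nr (-((p : ℕ) : Ei))).natAbs = p ^ 2 := by
    rw [hnr, Int.natAbs_pow, Int.natAbs_natCast]
  have hnd : ∀ n : ℕ, ¬ p ∣ n → ¬ -((p : ℕ) : Ei) ∣ ((n : ℕ) : Ei) := by
    intro n hn h
    rw [neg_dvd] at h
    exact hn (nat_dvd_nat h)
  have hcs : ∀ n : ℕ, ¬ p ∣ n → cs (-((p : ℕ) : Ei)) ((n : ℕ) : Ei) = 0 := by
    intro n hn
    have h5 := cs_inert h2 hα (n := (n : ℤ)) (fun h => hn (by exact_mod_cast h))
    rwa [Int.cast_natCast] at h5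
  obtain ⟨s1, s2⟩ := splitV (F := F) j d x C.cube C.gen hα
    (fun i h => hnd M hpM (h.trans (C.dM i)))
  rw [← hf, C.deg] at s2
  have hf0 : f = 1 ∨ f = 3 := by
    rw [hf]
    exact fo_or d _
  have hfpos : 0 < f := by omega
  have hmem : ∀ v : HeightOneSpectrum (𝓞 F), io F j (-((p : ℕ) : Ei)) ∈ v.asIdeal ↔
      ((p : ℕ) : 𝓞 F) ∈ v.asIdeal := by
    intro v
    rw [map_neg, neg_mem_iff, io_nat]
  have hcnt : Nat.card {v : HeightOneSpectrum (𝓞 F) // ((p : ℕ) : 𝓞 F) ∈ v.asIdeal} =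
      3 ^ Fintype.card I / f := by
    rw [← s2, Nat.mul_div_cancel _ hfpos]
    exact Nat.card_congr (Equiv.subtypeEquivRight fun v => (hmem v).symm)
  have hcnt0 : Nat.card {v : HeightOneSpectrum (𝓞 F) // ((p : ℕ) : 𝓞 F) ∈ v.asIdeal} ≠ 0 := by
    intro h0
    rw [Nat.card_congr (Equiv.subtypeEquivRight fun v => hmem v), h0, zero_mul] at s2
    exact absurd s2.symm (by positivity)
  have hfinP : Finite {v : HeightOneSpectrum (𝓞 F) // ((p : ℕ) : 𝓞 F) ∈ v.asIdeal} :=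
    Nat.finite_of_card_ne_zero hcnt0
  obtain ⟨hfu, hsum⟩ := card_sig (L := L) (F := F) p
  have h3u : ∀ u : HeightOneSpectrum (𝓞 L), ((p : ℕ) : 𝓞 L) ∈ u.asIdeal → (3 : 𝓞 L) ∉ u.asIdeal := by
    intro u hu h3
    have h5 : IsCoprime (3 : ℤ) (p : ℤ) := by
      rw [Int.isCoprime_iff_gcd_eq_one]
      have h6 : Nat.Coprime 3 p := (Nat.coprime_primes Nat.prime_three hp).2 (by omega)
      exact_mod_cast h6
    obtain ⟨a, b, hab⟩ := h5
    apply u.isPrime.ne_top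
    rw [Ideal.eq_top_iff_one]
    have h7 : ((a * 3 + b * p : ℤ) : 𝓞 L) = 1 := by rw [hab]; norm_num
    rw [← h7]
    push_cast
    exact u.asIdeal.add_mem (u.asIdeal.mul_mem_left _ h3) (u.asIdeal.mul_mem_left _ hu)
  refine ⟨⟨hfu, by rw [← hsum, hcnt]⟩, fun u hu => ?_⟩
  obtain ⟨v, hv⟩ := exists_over (F := F) u
  have hvp := (hmem v).2 ((Ov_nat hv p).2 hu)
  have h5 := s1 v hvp
  rw [← hf] at h5
  have h6 := tr_at (io F j) hα hvp (hnd D hD) h5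
  rw [hnat] at h5
  have h5' : qv v = (p ^ 2) ^ f := h5
  rw [io_nat, hcs D hD, neg_zero, ZMod.val_zero, pow_zero, one_mul, map_neg,
    map_natCast] at h6
  rcases quad C.deg' (io_w (F := F) (j := j)) C.gen' (h3u u hu) hv with ⟨h7, h8⟩ | ⟨h7, h8⟩
  · left
    exact ⟨by rw [← h7, h5'], h8, Tr_of hv h7 h6⟩
  · right
    rw [h5', ← pow_mul, mul_comm 2 f, pow_mul] at h7
    exact ⟨(Nat.pow_left_injective (n := 2) (by norm_num) h7).symm, h8⟩

/-! ### the products over the twists -/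

lemma wz' : toC w ^ 2 + toC w + 1 = 0 := by
  have h1 : (w : Ei) ^ 2 + w + 1 = 0 := by decide
  rw [← map_pow, ← map_add, ← map_one toC, ← map_add, h1, map_zero]

/-- the product over the twists at one prime of `K` -/
theorem twp {D : Ei} {α : Ei} (hα : Pq α) (h1 : ¬ α ∣ D) (h2 : ∀ i, ¬ α ∣ d i) (s : ℂ) {f : ℕ}
    (hf : f = fo d α) :
    ∏ t : I → ZMod 3, (1 - hk (tw D d t) s α) = (1 - (hk D s α) ^ f) ^ (3 ^ Fintype.card I / f) := by
  rw [← loc (fun i => -cs α (d i)) wz' _ (fun h => ?_) (fun h => ?_)]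
  · exact Finset.prod_congr rfl fun t _ => by rw [hk_tw t hα h1 h2 s]
  · have h5 : ∀ i, cs α (d i) = 0 := fun i => neg_eq_zero.1 (h i)
    rw [hf]
    unfold fo
    exact if_pos h5
  · have h5 : ¬ ∀ i, cs α (d i) = 0 :=
      fun h6 => h fun i => neg_eq_zero.2 (h6 i)
    rw [hf]
    unfold fo
    exact if_neg h5

/-- the product over the twists at a prime number, split case -/
theorem twp1 (C : CtxG L j d M x) {p : ℕ} (hp : p.Prime) (hm : p % 3 = 1) (hpM : ¬ p ∣ M) {D : ℕ}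
    (h1 : ¬ p ∣ D) (s : ℂ) {f : ℕ} (hf : f = fo d (pp p)) :
    ∏ t : I → ZMod 3, Gp (hk (tw ((D : ℕ) : Ei) d t) s) p =
      (((1 - (toC (w ^ (-cs (pp p) ((D : ℕ) : Ei)).val * pp p) * ((p : ℕ) : ℂ) ^ (-s)) ^ f) *
        (1 - ((starRingEnd ℂ) (toC (w ^ (-cs (pp p) ((D : ℕ) : Ei)).val * pp p)) *
          ((p : ℕ) : ℂ) ^ (-s)) ^ f))⁻¹) ^ (3 ^ Fintype.card I / f) := by
  obtain ⟨hα, hn⟩ := pp_spec hp hm
  have hα' := pq_star hα
  have hn' : nr (star (pp p)) = p := by rw [nr_star, hn]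
  have hf' : f = fo d (star (pp p)) := by
    rw [hf]
    exact (C.st _ hα (ndvd_nat hp hn hpM)).symm
  have g1 := twp (d := d) hα (ndvd_nat hp hn h1)
    (fun i h => ndvd_nat hp hn hpM (h.trans (C.dM i))) s hf
  have g2 := twp (d := d) hα' (ndvd_nat hp hn' h1)
    (fun i h => ndvd_nat hp hn' hpM (h.trans (C.dM i))) s hf'
  have h8 : toC (w ^ (-cs (star (pp p)) ((D : ℕ) : Ei)).val * star (pp p)) =
      (starRingEnd ℂ) (toC (w ^ (-cs (pp p) ((D : ℕ) : Ei)).val * pp p)) := by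
    rw [← Pool.Agent.Y696.CTK.toC_star', star_mul', cs_star_nat hα (ndvd_nat hp hn h1), neg_neg]
    have hst : star (w ^ (-cs (pp p) ((D : ℕ) : Ei)).val : Ei) =
        w ^ (cs (pp p) ((D : ℕ) : Ei)).val := by
      generalize cs (pp p) ((D : ℕ) : Ei) = c
      revert c
      decide
    rw [hst]
  unfold hk at g1 g2
  rw [hn, Int.cast_natCast] at g1
  rw [hn', Int.cast_natCast, h8] at g2
  have h9 : ∀ t : I → ZMod 3, Gp (hk (tw ((D : ℕ) : Ei) d t) s) p =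
      (1 - toC (w ^ (-cs (pp p) (tw ((D : ℕ) : Ei) d t)).val * pp p) * ((p : ℕ) : ℂ) ^ (-s))⁻¹ *
      (1 - toC (w ^ (-cs (star (pp p)) (tw ((D : ℕ) : Ei) d t)).val * star (pp p)) *
        ((p : ℕ) : ℂ) ^ (-s))⁻¹ := by
    intro t
    unfold Gp hk
    rw [if_pos hm, hn, hn', Int.cast_natCast]
  rw [Finset.prod_congr rfl fun t _ => h9 t, Finset.prod_mul_distrib, Finset.prod_inv_distrib,
    Finset.prod_inv_distrib, g1, g2, ← mul_inv, ← mul_pow, inv_pow]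

/-- the product over the twists at a prime number, inert case -/
theorem twp2 (C : CtxG L j d M x) {p : ℕ} (hp : p.Prime) (hm : p % 3 = 2) (hpM : ¬ p ∣ M) {D : ℕ}
    (h1 : ¬ p ∣ D) (s : ℂ) {f : ℕ} (hf : f = fo d (-((p : ℕ) : Ei))) :
    ∏ t : I → ZMod 3, Gp (hk (tw ((D : ℕ) : Ei) d t) s) p =
      ((1 + (p : ℂ) ^ f * ((((p : ℕ) : ℂ) ^ (-s)) ^ 2) ^ f)⁻¹) ^ (3 ^ Fintype.card I / f) := by
  have hfact := Fact.mk hp
  have hα : Pq (-((p : ℕ) : Ei)) := inert hp hm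
  have hnr : nr (-((p : ℕ) : Ei)) = (p : ℤ) ^ 2 := by rw [nr_neg, nr_nat]
  have hnd : ∀ n : ℕ, ¬ p ∣ n → ¬ -((p : ℕ) : Ei) ∣ ((n : ℕ) : Ei) := by
    intro n hn h
    rw [neg_dvd] at h
    exact hn (nat_dvd_nat h)
  have hcs : ∀ n : ℕ, ¬ p ∣ n → cs (-((p : ℕ) : Ei)) ((n : ℕ) : Ei) = 0 := by
    intro n hn
    have h5 := cs_inert hm hα (n := (n : ℤ)) (fun h => hn (by exact_mod_cast h))
    rwa [Int.cast_natCast] at h5
  have hf0 : f = 1 ∨ f = 3 := by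
    rw [hf]
    exact fo_or d _
  have g1 := twp (d := d) hα (hnd D h1) (fun i h => hnd M hpM (h.trans (C.dM i))) s hf
  have h9 : ∀ t : I → ZMod 3, Gp (hk (tw ((D : ℕ) : Ei) d t) s) p =
      (1 - hk (tw ((D : ℕ) : Ei) d t) s (-((p : ℕ) : Ei)))⁻¹ := by
    intro t
    unfold Gp
    rw [if_neg (by omega)]
  have h10 : ((((p : ℤ) ^ 2 : ℤ) : ℂ)) ^ (-s) = (((p : ℕ) : ℂ) ^ (-s)) ^ 2 := by
    push_cast
    exact npow p 2 (-s)
  have h11 : hk ((D : ℕ) : Ei) s (-((p : ℕ) : Ei)) = -((p : ℂ) * (((p : ℕ) : ℂ) ^ (-s)) ^ 2) := by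
    unfold hk
    rw [hnr, h10, hcs D h1, neg_zero, ZMod.val_zero, pow_zero, one_mul, map_neg, map_natCast]
    ring
  rw [Finset.prod_congr rfl fun t _ => h9 t, Finset.prod_inv_distrib, g1, h11, inv_pow]
  congr 2
  rcases hf0 with rfl | rfl
  · ring
  · ring

/-! ### the places above one prime number -/

theorem plG1 (C : CtxG L j d M x) {p : ℕ} (hp : p.Prime) (hm : p % 3 = 1)
    (hpM : ¬ p ∣ M) {D : ℕ} (hD : ¬ p ∣ D) (s : ℂ) {f : ℕ} (hf : f = fo d (pp p)) :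
    HasProd (fun u : {u : HeightOneSpectrum (𝓞 L) // ((p : ℕ) : 𝓞 L) ∈ u.asIdeal} =>
      ef ((D : ℕ) : 𝓞 L) s u.1)
      ((((1 - (toC (w ^ (-cs (pp p) ((D : ℕ) : Ei)).val * pp p) * ((p : ℕ) : ℂ) ^ (-s)) ^ f) *
        (1 - ((starRingEnd ℂ) (toC (w ^ (-cs (pp p) ((D : ℕ) : Ei)).val * pp p)) *
          ((p : ℕ) : ℂ) ^ (-s)) ^ f))⁻¹) ^ (3 ^ Fintype.card I / f)) := by
  obtain ⟨hα, hn⟩ := pp_spec hp hm
  obtain ⟨⟨hfin, hcard⟩, hall⟩ := place1 C hp hm hα hn hpM hD hf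
  let _ : Fintype {u : HeightOneSpectrum (𝓞 L) // ((p : ℕ) : 𝓞 L) ∈ u.asIdeal} := Fintype.ofFinite _
  have hf0 : 0 < f := by
    rw [hf]
    exact (fo_odd d _).2
  have hN : Fintype.card {u : HeightOneSpectrum (𝓞 L) // ((p : ℕ) : 𝓞 L) ∈ u.asIdeal} =
      3 ^ Fintype.card I / f := by
    rw [← Nat.card_eq_fintype_card, ← hcard, Nat.mul_div_cancel _ hf0]
  have h1 : ∀ u : {u : HeightOneSpectrum (𝓞 L) // ((p : ℕ) : 𝓞 L) ∈ u.asIdeal},
      ef ((D : ℕ) : 𝓞 L) s u.1 =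
      ((1 - (toC (w ^ (-cs (pp p) ((D : ℕ) : Ei)).val * pp p) * ((p : ℕ) : ℂ) ^ (-s)) ^ f) *
        (1 - ((starRingEnd ℂ) (toC (w ^ (-cs (pp p) ((D : ℕ) : Ei)).val * pp p)) *
          ((p : ℕ) : ℂ) ^ (-s)) ^ f))⁻¹ := by
    intro u
    obtain ⟨h2, h3⟩ := hall u.1 u.2
    rw [ef_eq h3, h2, Nat.cast_pow, npow, map_pow, mul_pow, mul_pow]
  have h4 := hasProd_fintype (fun u : {u : HeightOneSpectrum (𝓞 L) //
    ((p : ℕ) : 𝓞 L) ∈ u.asIdeal} => ef ((D : ℕ) : 𝓞 L) s u.1)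
  rw [Finset.prod_congr rfl fun u _ => h1 u, Finset.prod_const, Finset.card_univ, hN] at h4
  exact h4

theorem plG2 (C : CtxG L j d M x) {p : ℕ} (hp : p.Prime) (hm : p % 3 = 2)
    (hpM : ¬ p ∣ M) {D : ℕ} (hD : ¬ p ∣ D) (s : ℂ) {f : ℕ} (hf : f = fo d (-((p : ℕ) : Ei))) :
    HasProd (fun u : {u : HeightOneSpectrum (𝓞 L) // ((p : ℕ) : 𝓞 L) ∈ u.asIdeal} =>
      ef ((D : ℕ) : 𝓞 L) s u.1)
      (((1 + (p : ℂ) ^ f * ((((p : ℕ) : ℂ) ^ (-s)) ^ 2) ^ f)⁻¹) ^ (3 ^ Fintype.card I / f)) := by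
  obtain ⟨⟨hfin, hsum⟩, hall⟩ := place2 C hp hm hpM hD hf
  have hf0 : f = 1 ∨ f = 3 := by
    rw [hf]
    exact fo_or d _
  have hp0 : (p : ℂ) ≠ 0 := by exact_mod_cast hp.ne_zero
  have h1 : ∀ u : {u : HeightOneSpectrum (𝓞 L) // ((p : ℕ) : 𝓞 L) ∈ u.asIdeal},
      ef ((D : ℕ) : 𝓞 L) s u.1 = ((1 + (p : ℂ) ^ f * ((((p : ℕ) : ℂ) ^ (-s)) ^ 2) ^ f)⁻¹) ^
        Nat.card {v : HeightOneSpectrum (𝓞 F) // Ov u.1 v} := by
    intro u
    rcases hall u.1 u.2 with ⟨h2, h3, h4⟩ | ⟨h2, h3⟩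
    · rw [ef_eq h4, h2, h3, Nat.cast_pow (p ^ 2) f, npow, Nat.cast_pow p 2, npow, map_pow, map_neg,
        Complex.conj_natCast, inv_pow]
      congr 1
      have e : (-(p : ℂ)) ^ f = -((p : ℂ) ^ f) := by
        rcases hf0 with rfl | rfl
        · ring
        · ring
      rw [e]
      ring
    · rw [h3, pow_one]
      unfold ef
      rw [cn_two (pow_mod_two hm hf0) h2, h2, sub_self, zero_mul, sub_zero]
      congr 2
      have e1 : ((p ^ f : ℕ) : ℂ) ^ (1 - 2 * s) = (p : ℂ) ^ f * (((p : ℂ) ^ (-s)) ^ f) ^ 2 := by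
        have e2 : (1 - 2 * s : ℂ) = 1 + ((2 : ℕ) : ℂ) * (-s) := by push_cast; ring
        have hq : ((p ^ f : ℕ) : ℂ) ≠ 0 := by
          push_cast
          exact pow_ne_zero _ hp0
        rw [e2, Complex.cpow_add _ _ hq, Complex.cpow_one, Complex.cpow_nat_mul]
        push_cast
        rw [npow]
      rw [e1]
      ring
  have h4 := hasProd_fintype (fun u : {u : HeightOneSpectrum (𝓞 L) //
    ((p : ℕ) : 𝓞 L) ∈ u.asIdeal} => ef ((D : ℕ) : 𝓞 L) s u.1)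
  rw [Finset.prod_congr rfl fun u _ => h1 u, Finset.prod_pow_eq_pow_sum, hsum] at h4
  exact h4

/-- the traces exist -/
theorem trG (C : CtxG L j d M x) {p : ℕ} (hp : p.Prime) (hp3 : p ≠ 3)
    (hpM : ¬ p ∣ M) {D : ℕ} (hD : ¬ p ∣ D) {u : HeightOneSpectrum (𝓞 L)}
    (hu : ((p : ℕ) : 𝓞 L) ∈ u.asIdeal) : ∃ y, Tr ((D : ℕ) : 𝓞 L) u y := by
  have hm : p % 3 = 1 ∨ p % 3 = 2 := by
    have : p % 3 ≠ 0 := fun h => hp3
      ((Nat.prime_dvd_prime_iff_eq Nat.prime_three hp).1 (Nat.dvd_of_mod_eq_zero h)).symm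
    omega
  rcases hm with hm | hm
  · obtain ⟨hα, hn⟩ := pp_spec hp hm
    exact ⟨_, ((place1 C hp hm hα hn hpM hD rfl).2 u hu).2⟩
  · rcases (place2 C hp hm hpM hD rfl).2 u hu with ⟨-, -, h4⟩ | ⟨h2, -⟩
    · exact ⟨_, h4⟩
    · obtain ⟨q, hq⟩ : ∃ q, q = p ^ fo d (-((p : ℕ) : Ei)) := ⟨_, rfl⟩
      rw [← hq] at h2
      have hq2 : q % 3 = 2 := by
        rw [hq]
        exact pow_mod_two hm (fo_or d _)
      refine ⟨Complex.I * (Real.sqrt q : ℂ), ?_⟩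
      have h5 : ((Real.sqrt (q : ℝ) : ℝ) : ℂ) * ((Real.sqrt (q : ℝ) : ℝ) : ℂ) = (q : ℂ) := by
        rw [← Complex.ofReal_mul, Real.mul_self_sqrt (Nat.cast_nonneg q)]
        push_cast
        rfl
      unfold Tr
      rw [cn_two hq2 h2, h2, map_mul, Complex.conj_I, Complex.conj_ofReal]
      constructor
      · ring
      · linear_combination (-(Complex.I ^ 2)) * h5 - (q : ℂ) * Complex.I_sq

/-- **The Euler product of `E_D` over `L`.** -/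
theorem eulLG (C : CtxG L j d M x) {D : ℕ} (h3M : 3 ∣ M) (hDM : D ∣ M)
    {G : (I → ZMod 3) → ℂ → ℂ} (hG : ∀ t, HL (tw ((D : ℕ) : Ei) d t) ((M : ℕ) : Ei) (G t)) {s : ℂ}
    (hs : 3 / 2 < s.re) :
    HasProd (fun u : {u : HeightOneSpectrum (𝓞 L) | ((M : ℕ) : 𝓞 L) ∉ u.asIdeal} =>
      ef ((D : ℕ) : 𝓞 L) s u.1) (∏ t, G t s) ∧
    ∀ u : HeightOneSpectrum (𝓞 L), ((M : ℕ) : 𝓞 L) ∉ u.asIdeal → ∃ y, Tr ((D : ℕ) : 𝓞 L) u y := by
  have hMp : ∀ p : ℕ, ¬ p ∣ M → p ≠ 3 ∧ ¬ p ∣ D := fun p hp =>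
    ⟨fun h => hp (by rw [h]; exact h3M), fun h => hp (h.trans hDM)⟩
  have hreg := fun t : I → ZMod 3 => regroup h3M ((hG t).2 s hs)
  set U : Set (HeightOneSpectrum (𝓞 L)) := {u | ((M : ℕ) : 𝓞 L) ∉ u.asIdeal} with hU
  have hex : ∀ u : U, ∃ p : {p : ℕ // p.Prime ∧ ¬ p ∣ M}, ((p.1 : ℕ) : 𝓞 L) ∈ u.1.asIdeal := by
    intro u
    obtain ⟨p, hp, hu⟩ := exists_p_below u.1
    refine ⟨⟨p, hp, fun h => u.2 ?_⟩, hu⟩
    obtain ⟨c, rfl⟩ := h
    rw [Nat.cast_mul]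
    exact u.1.asIdeal.mul_mem_right _ hu
  choose β hβ using hex
  have hβu : ∀ (u : U) (p : {p : ℕ // p.Prime ∧ ¬ p ∣ M}), ((p.1 : ℕ) : 𝓞 L) ∈ u.1.asIdeal →
      β u = p := by
    intro u p hp
    exact Subtype.ext (p_below_unique (β u).2.1 p.2.1 (hβ u) hp)
  have hnM : ∀ (p : {p : ℕ // p.Prime ∧ ¬ p ∣ M}) (u : HeightOneSpectrum (𝓞 L)),
      ((p.1 : ℕ) : 𝓞 L) ∈ u.asIdeal → ((M : ℕ) : 𝓞 L) ∉ u.asIdeal := by
    intro p u hu h
    have h5 : IsCoprime (p.1 : ℤ) (M : ℤ) := by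
      rw [Int.isCoprime_iff_gcd_eq_one]
      have h6 : Nat.Coprime p.1 M := (Nat.Prime.coprime_iff_not_dvd p.2.1).2 p.2.2
      exact_mod_cast h6
    obtain ⟨b, c, hbc⟩ := h5
    apply u.isPrime.ne_top
    rw [Ideal.eq_top_iff_one]
    have h7 : ((b * p.1 + c * M : ℤ) : 𝓞 L) = 1 := by rw [hbc]; norm_num
    rw [← h7]
    push_cast
    exact u.asIdeal.add_mem (u.asIdeal.mul_mem_left _ hu) (u.asIdeal.mul_mem_left _ h)
  have htr : ∀ u : HeightOneSpectrum (𝓞 L), ((M : ℕ) : 𝓞 L) ∉ u.asIdeal →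
      ∃ y, Tr ((D : ℕ) : 𝓞 L) u y := by
    intro u hu
    obtain ⟨h1, h2⟩ := hMp _ (β ⟨u, hu⟩).2.2
    exact trG C (β ⟨u, hu⟩).2.1 h1 (β ⟨u, hu⟩).2.2 h2 (hβ ⟨u, hu⟩)
  refine ⟨?_, htr⟩
  refine eul_abs (fun u hu => htr u hu) hs β (h := fun p => ∏ t : I → ZMod 3,
    Gp (hk (tw ((D : ℕ) : Ei) d t) s) p.1) ?_ ?_
  · intro p
    obtain ⟨h1, h2⟩ := hMp p.1 p.2.2
    let E : {u : U // β u = p} ≃ {u : HeightOneSpectrum (𝓞 L) // ((p.1 : ℕ) : 𝓞 L) ∈ u.asIdeal} :=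
      { toFun := fun u => ⟨u.1.1, by have h1 := hβ u.1; rwa [u.2] at h1⟩
        invFun := fun u => ⟨⟨u.1, hnM p u.1 u.2⟩, hβu _ _ u.2⟩
        left_inv := fun u => rfl
        right_inv := fun u => rfl }
    have hm : p.1 % 3 = 1 ∨ p.1 % 3 = 2 := by
      have : p.1 % 3 ≠ 0 := fun h => h1
        ((Nat.prime_dvd_prime_iff_eq Nat.prime_three p.2.1).1 (Nat.dvd_of_mod_eq_zero h)).symm
      omega
    rcases hm with hm | hm
    · have h4 := plG1 C p.2.1 hm p.2.2 h2 s rfl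
      have h5 := E.hasProd_iff.2 h4
      show HasProd _ (∏ t : I → ZMod 3, Gp (hk (tw ((D : ℕ) : Ei) d t) s) p.1)
      rw [twp1 C p.2.1 hm p.2.2 h2 s rfl]
      exact h5
    · have h4 := plG2 C p.2.1 hm p.2.2 h2 s rfl
      have h5 := E.hasProd_iff.2 h4
      show HasProd _ (∏ t : I → ZMod 3, Gp (hk (tw ((D : ℕ) : Ei) d t) s) p.1)
      rw [twp2 C p.2.1 hm p.2.2 h2 s rfl]
      exact h5
  · exact hasProd_prod fun t _ => hreg t

end places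

end Pool.Agent.V5helper41.ST
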