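import Pool.Agent.V5helper41.ST.Core
import Pool.Agent.V5helper41.ST.Pl

/-!
# The curves over `L` and over `ℚ`
-/

set_option autoImplicit false
set_option linter.unusedSectionVars false

open NumberField IsDedekindDomain Filter Complex WeierstrassCurve
open scoped Topology Classical

namespace Pool.Agent.V5helper41.ST

open Pool.Agent.Y692.QS hiding chi
open Pool.Agent.Y715.T.Rec (cs nn)
open Pool.Agent.Y715.T.RecG (Pq cs_spec)
open Pool.Agent.Y703.CT (IsHL chD Dt pD Ker)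
open Pool.Agent.R432.C
open Pool.Agent.R432.V
open Pool.Agent.R433.MD (lf)
open Pool.Agent.H341R2.EC (IsMinAt)

section quad

variable {K L F : Type} [Field K] [NumberField K] [Field L] [NumberField L] [Field F]
  [NumberField F] [Algebra K F] [Algebra L F]

/-- the rank over `F = L(ω)` is twice the rank over `L` -/
theorem rank_LF [IsGalois L F] (hdeg : Module.finrank L F = 2) {ω : F}
    (hω : ω ^ 2 + ω + 1 = 0) (hgen : ∀ g : F ≃ₐ[L] F, g ω = ω → g = 1) {D : L} (hD : D ≠ 0) :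
    Module.rank ℤ (ED (algebraMap L F D)).toAffine.Point =
      2 * Module.rank ℤ (ED D).toAffine.Point := by
  have hfd : FiniteDimensional L F := Module.finite_of_finrank_pos (by rw [hdeg]; norm_num)
  have hcard : Nat.card (F ≃ₐ[L] F) = 2 := by rw [IsGalois.card_aut_eq_finrank, hdeg]
  obtain ⟨σ, hσ⟩ : ∃ σ : F ≃ₐ[L] F, σ ≠ 1 := by
    by_contra hcon
    push Not at hcon
    have : Subsingleton (F ≃ₐ[L] F) := ⟨fun a b => by rw [hcon a, hcon b]⟩
    rw [Nat.card_of_subsingleton (1 : F ≃ₐ[L] F)] at hcard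
    norm_num at hcard
  have hroot : ∀ g : F ≃ₐ[L] F, g ω = ω ∨ g ω = ω ^ 2 := by
    intro g
    have h1 : (g ω) ^ 2 + g ω + 1 = 0 := by
      rw [← map_pow, ← map_add, ← map_one g, ← map_add, hω, map_zero]
    have h2 : (g ω - ω) * (g ω - ω ^ 2) = 0 := by
      linear_combination h1 - (g ω + 1 - ω) * hω
    rcases mul_eq_zero.1 h2 with h | h
    · exact Or.inl (sub_eq_zero.1 h)
    · exact Or.inr (sub_eq_zero.1 h)
  have hσω : σ ω = ω ^ 2 := (hroot σ).resolve_left fun h => hσ (hgen σ h)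
  have hω3 := cube_of hω
  have h4 : σ (σ ω) = ω := by
    rw [hσω, map_pow, hσω]
    linear_combination ω * hω3
  have hσσ : σ * σ = 1 := hgen _ h4
  refine rank_quad hω σ hσω (fun y => ?_) (fun y hy => ?_) hD
  · have h5 := congrArg (fun g : F ≃ₐ[L] F => g y) hσσ
    exact h5
  · refine (IsGalois.mem_range_algebraMap_iff_fixed (F := L) y).2 fun g => ?_
    rcases hroot g with h | h
    · rw [hgen g h]
      rfl
    · have h6 : (σ * g) ω = ω := by
        rw [AlgEquiv.mul_apply, h, map_pow, hσω]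
        linear_combination ω * hω3
      have h7 := hgen _ h6
      have h8 : g = σ := by
        have h9 : σ * (σ * g) = σ * 1 := by rw [h7]
        rwa [← mul_assoc, hσσ, one_mul, mul_one] at h9
      rw [h8]
      exact hy

/-- the `L`-function over `L` -/
theorem ordLG {j : Ei ≃+* 𝓞 K} {I : Type} [Fintype I] [DecidableEq I] {d : I → Ei} {M : ℕ}
    {x : I → 𝓞 F}
    (C : CtxG L j d M x) {D : ℕ} (hM0 : M ≠ 0) (h3D : 3 * D ∣ M)
    {G : (I → ZMod 3) → ℂ → ℂ} (hG : ∀ t, HL (tw ((D : ℕ) : Ei) d t) ((M : ℕ) : Ei) (G t))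
    (hG1 : ∀ t, t ≠ 0 → G t 1 ≠ 0) :
    ∃ Λ : ℂ → ℂ, MeromorphicOn Λ Set.univ ∧ AnalyticAt ℂ Λ 1 ∧
      (∀ V : HeightOneSpectrum (𝓞 L) → WeierstrassCurve (𝓞 L),
        (∀ v, IsMinAt (ED ((D : ℕ) : L)) v (V v)) → ∀ s : ℂ, 3 / 2 < s.re →
          HasProd (fun v => (lf V s v)⁻¹) (Λ s)) ∧
      analyticOrderAt Λ 1 = analyticOrderAt (G 0) 1 ∧ analyticOrderAt Λ 1 ≠ ⊤ := by
  have h3M : 3 ∣ M := (dvd_mul_right 3 D).trans h3D
  have hDM : D ∣ M := (dvd_mul_left D 3).trans h3D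
  have hM0' : ((M : ℕ) : 𝓞 L) ≠ 0 := Nat.cast_ne_zero.2 hM0
  have hprod : ∀ s : ℂ, 3 / 2 < s.re →
      HasProd (fun u : {u : HeightOneSpectrum (𝓞 L) | ((M : ℕ) : 𝓞 L) ∉ u.asIdeal} =>
        ef ((D : ℕ) : 𝓞 L) s u.1) (∏ t, G t s) := fun s hs => by
    have h := (eulLG C h3M hDM hG hs).1
    exact hasProd_inst h
  obtain ⟨B, hB1, hB2, hB3, hB4⟩ := fullc (b := ((M : ℕ) : 𝓞 L)) (c := ((D : ℕ) : 𝓞 L)) hM0'
    (by
      obtain ⟨y, hy⟩ := h3D
      exact ⟨(y : 𝓞 L), by rw [hy]; push_cast; ring⟩) hprod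
  have hd : ∀ t, Differentiable ℂ (G t) := fun t => (hG t).1
  have hGd : Differentiable ℂ (fun s => ∏ t, G t s) :=
    Differentiable.fun_finsetProd fun t _ => hd t
  have hord : analyticOrderAt (fun s => ∏ t, G t s) 1 = analyticOrderAt (G 0) 1 :=
    order_prod hd 0 hG1
  have hCo : analyticOrderAt B 1 = 0 := by
    rw [hB2.analyticOrderAt_eq_zero]
    exact hB3
  have hfin : analyticOrderAt (fun s => ∏ t, G t s) 1 ≠ ⊤ := by
    intro htop
    rw [analyticOrderAt_eq_top] at htop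
    have h1 : (fun s => ∏ t, G t s) = fun _ => 0 :=
      (hGd.differentiableOn.analyticOnNhd isOpen_univ).eq_of_eventuallyEq
        (analyticOnNhd_const (v := (0 : ℂ))) htop
    have h2 := hprod 2 (by norm_num)
    have h3 := congrFun h1 2
    rw [h3] at h2
    exact eul_ne (fun v hv => (eulLG C h3M hDM hG (by norm_num : (3 : ℝ) / 2 < (2 : ℂ).re)).2 v hv)
      (by norm_num : (3 : ℝ) / 2 < (2 : ℂ).re) h2 rfl
  have hord2 : analyticOrderAt (fun s => B s * ∏ t, G t s) 1 =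
      analyticOrderAt (fun s => ∏ t, G t s) 1 := by
    have e := analyticOrderAt_mul hB2 (hGd.analyticAt 1)
    rw [hCo, zero_add] at e
    exact e
  have hcast : (((D : ℕ) : 𝓞 L) : L) = ((D : ℕ) : L) := by push_cast; rfl
  rw [hcast] at hB4
  refine ⟨fun s => B s * ∏ t, G t s,
    fun z hz => (hB1 z hz).fun_mul (hGd.analyticAt z).meromorphicAt,
    hB2.fun_mul (hGd.analyticAt 1), fun V hV s hs => hB4 V hV s hs, ?_, ?_⟩
  · rw [hord2, hord]
  · rw [hord2]
    exact hfin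

end quad

/-! ### the curve over `ℚ` -/

section rat

variable {K : Type} [Field K] [NumberField K] (j : Ei ≃+* 𝓞 K)

/-- automorphisms that fix `ω` -/
theorem fix_w (g : K ≃ₐ[ℚ] K) (hg : g ((j w : 𝓞 K) : K) = ((j w : 𝓞 K) : K)) : g = 1 := by
  have h1 : ∀ z : Ei, g ((j z : 𝓞 K) : K) = ((j z : 𝓞 K) : K) := by
    intro z
    have hz : z = (z.re : Ei) + (z.im : Ei) * w := by
      ext
      · simp [w]
      · simp [w]
    set φ : Ei →+* K := (algebraMap (𝓞 K) K).comp (j : Ei →+* 𝓞 K) with hφ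
    have e : ∀ z, ((j z : 𝓞 K) : K) = φ z := fun _ => rfl
    rw [e] at hg ⊢
    rw [hz, map_add, map_mul, map_intCast, map_intCast, map_add, map_mul, map_intCast,
      map_intCast, hg]
  ext y
  obtain ⟨a, b, -, rfl⟩ := IsFractionRing.div_surjective (A := 𝓞 K) y
  obtain ⟨a', rfl⟩ := j.surjective a
  obtain ⟨b', rfl⟩ := j.surjective b
  change g (((j a' : 𝓞 K) : K) / ((j b' : 𝓞 K) : K)) = ((j a' : 𝓞 K) : K) / ((j b' : 𝓞 K) : K)
  rw [map_div₀, h1, h1]

variable [IsCyclotomicExtension {3} ℚ K]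

theorem deg_two : Module.finrank ℚ K = 2 := by
  have hirrQ : Irreducible (Polynomial.cyclotomic 3 ℚ) :=
    Polynomial.cyclotomic.irreducible_rat (by norm_num)
  rw [IsCyclotomicExtension.finrank K hirrQ]
  decide

/-- `K` as an extension of `ℚ` -/
theorem ctxQ {M : ℕ} : CtxG (K := K) (F := K) ℚ j (I := Fin 0) (fun i => i.elim0) M
    (fun i => i.elim0) where
  gal := inferInstance
  gal' := IsCyclotomicExtension.isGalois {3} ℚ K
  deg := by rw [Fintype.card_fin, pow_zero, Module.finrank_self]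
  deg' := deg_two
  cube := fun i => i.elim0
  gen := fun N h _ => by
    rw [eq_top_iff]
    intro y _
    exact h y
  gen' := fun g hg => by
    refine fix_w j g ?_
    have h := congrArg (fun z : 𝓞 K => (z : K)) hg
    exact h
  dM := fun i => i.elim0
  st := fun α _ _ => by
    unfold fo
    rw [if_pos fun i => i.elim0, if_pos fun i => i.elim0]

include j in
/-- the `L`-function of `E_D` over `ℚ` -/
theorem ordQ {J : Type} [Fintype J] {π : J → Ei} {e : J → ZMod 3} (hDt : Dt π e) {D : ℕ}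
    (hD0 : D ≠ 0) (hDp : ((D : ℕ) : Ei) = pD π e ∨ ((D : ℕ) : Ei) = -pD π e) {F0 : ℂ → ℂ}
    (hF0 : IsHL π (fun i => -e i) F0) :
    ∃ Λ : ℂ → ℂ, MeromorphicOn Λ Set.univ ∧ AnalyticAt ℂ Λ 1 ∧
      (∀ V : HeightOneSpectrum (𝓞 ℚ) → WeierstrassCurve (𝓞 ℚ),
        (∀ v, IsMinAt (ED ((D : ℕ) : ℚ)) v (V v)) → ∀ s : ℂ, 3 / 2 < s.re →
          HasProd (fun v => (lf V s v)⁻¹) (Λ s)) ∧
      analyticOrderAt Λ 1 = analyticOrderAt F0 1 ∧ analyticOrderAt Λ 1 ≠ ⊤ := by
  have hM0 : 3 * D ≠ 0 := mul_ne_zero (by norm_num) hD0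
  have hM0' : ((3 * D : ℕ) : Ei) ≠ 0 := by
    intro h
    have h1 := nat_dvd_nat (a := 0) (b := 3 * D) (by rw [h]; exact dvd_zero _)
    exact hM0 (Nat.eq_zero_of_zero_dvd h1)
  have hDM : ((D : ℕ) : Ei) ∣ ((3 * D : ℕ) : Ei) := ⟨3, by push_cast; ring⟩
  obtain ⟨b, hb1, hb2, hb3⟩ := hl_of hDt hDp hF0 hM0' hDM
  obtain ⟨Λ, h1, h2, h3, h4, h5⟩ := ordLG (K := K) (ctxQ j (M := 3 * D)) (D := D) hM0 dvd_rfl
    (G := fun _ s => F0 s * b s) (fun t => by
      have e : tw ((D : ℕ) : Ei) (fun i : Fin 0 => i.elim0) t = ((D : ℕ) : Ei) := by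
        unfold tw
        simp
      rw [e]
      exact hb3) (fun t ht => absurd (Subsingleton.elim t 0) ht)
  refine ⟨Λ, h1, h2, h3, ?_, h5⟩
  rw [h4]
  have e := analyticOrderAt_mul (hF0.1.analyticAt 1) (hb1.analyticAt 1)
  have h0 : analyticOrderAt b 1 = 0 := by
    rw [(hb1.analyticAt 1).analyticOrderAt_eq_zero]
    exact hb2
  rw [h0, add_zero] at e
  exact e

/-- the rank of `E_D` over `K` is twice the rank over `ℚ` -/
theorem rank_KQ {D : ℚ} (hD : D ≠ 0) :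
    Module.rank ℤ (ED (algebraMap ℚ K D)).toAffine.Point =
      2 * Module.rank ℤ (ED D).toAffine.Point := by
  have := IsCyclotomicExtension.isGalois {3} ℚ K
  obtain ⟨⟨j, -⟩, -⟩ := Pool.Agent.Y455.CTK.jex K
  rw [rank_inst (ED D) _ (fun a b => Classical.propDecidable (a = b))]
  exact rank_LF deg_two (om_K j) (fun g hg => fix_w j g hg) hD

end rat

end Pool.Agent.V5helper41.ST
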