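import Pool.Agent.R432.C7

/-!
# The rank over `K(∛d_1, …, ∛d_k)` if all the nontrivial twists have finitely many points

Adapted from `R432/C6.lean`.
-/

set_option autoImplicit false
set_option linter.unusedSectionVars false

open WeierstrassCurve

namespace Pool.Agent.V5helper41.ST

open Pool.Agent.TH841.NF (Sc tF tF_some tF_add)
open Pool.Agent.R432.C
open scoped Classical

/-- equal ranks -/
theorem rank_eq {A B : Type} [AddCommGroup A] [AddCommGroup B] (f : A →+ B)
    (hf : ∀ a, f a = 0 → a = 0) {n : ℕ} (hn : n ≠ 0) (h : ∀ b, ∃ a, f a = n • b) :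
    Module.rank ℤ B = Module.rank ℤ A := by
  set g : A →ₗ[ℤ] B := f.toIntLinearMap with hg
  have hinj : Function.Injective g := by
    rw [injective_iff_map_eq_zero]
    exact hf
  have h1 := rank_quotient_add_rank_of_isDomain (LinearMap.range g)
  have h2 : Module.rank ℤ (B ⧸ LinearMap.range g) = 0 := by
    rw [rank_eq_zero_iff]
    intro x
    obtain ⟨b, rfl⟩ := Submodule.Quotient.mk_surjective _ x
    refine ⟨n, by exact_mod_cast hn, ?_⟩
    obtain ⟨a, ha⟩ := h b
    rw [← Submodule.Quotient.mk_smul, Submodule.Quotient.mk_eq_zero]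
    exact ⟨a, by rw [hg]; simpa using ha⟩
  rw [h2, zero_add] at h1
  rw [← h1]
  exact (LinearEquiv.ofInjective g hinj).rank_eq.symm

/-- the rank of a product with torsion kernel and cokernel -/
theorem rank_two {A B : Type} [AddCommGroup A] [AddCommGroup B] (f : A × A →+ B)
    {m : ℕ} (hm : m ≠ 0) (hf : ∀ a, f a = 0 → m • a = 0) {n : ℕ} (hn : n ≠ 0)
    (h : ∀ b, ∃ a, f a = n • b) : Module.rank ℤ B = 2 * Module.rank ℤ A := by
  set g : (A × A) →ₗ[ℤ] B := f.toIntLinearMap with hg
  have h1 := rank_quotient_add_rank_of_isDomain (LinearMap.range g)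
  have h2 : Module.rank ℤ (B ⧸ LinearMap.range g) = 0 := by
    rw [rank_eq_zero_iff]
    intro x
    obtain ⟨b, rfl⟩ := Submodule.Quotient.mk_surjective _ x
    refine ⟨n, by exact_mod_cast hn, ?_⟩
    obtain ⟨a, ha⟩ := h b
    rw [← Submodule.Quotient.mk_smul, Submodule.Quotient.mk_eq_zero]
    exact ⟨a, by rw [hg]; simpa using ha⟩
  have h3 := rank_quotient_add_rank_of_isDomain (LinearMap.ker g)
  have h4 : Module.rank ℤ (LinearMap.ker g) = 0 := by
    rw [rank_eq_zero_iff]
    rintro ⟨a, ha⟩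
    refine ⟨m, by exact_mod_cast hm, ?_⟩
    apply Subtype.ext
    have h5 := hf a (by
      rw [LinearMap.mem_ker] at ha
      exact ha)
    have h6 : ((m : ℤ) • a : A × A) = 0 := by
      rw [natCast_zsmul]
      exact h5
    exact h6
  have h5 := (g.quotKerEquivRange).rank_eq
  have h6 := LinearMap.rank_range_add_rank_ker (LinearMap.snd ℤ A A)
  rw [← LinearMap.range_inl, LinearMap.range_eq_top.2 Prod.snd_surjective, rank_top,
    ← (LinearEquiv.ofInjective (LinearMap.inl ℤ A A) LinearMap.inl_injective).rank_eq] at h6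
  rw [h2, zero_add] at h1
  rw [h4, add_zero, h5, h1] at h3
  rw [h3, ← h6, two_mul]

section stab

variable {K F : Type} [Field K] [CharZero K] [Field F] [CharZero F] [Algebra K F]

/-- the base change of the points -/
noncomputable def BC (D : K) : (ED D).toAffine.Point →+ (ED (algebraMap K F D)).toAffine.Point :=
  tH (sED (algebraMap K F) one_ne_zero (by rw [one_pow, mul_one]))

lemma BC_inj (D : K) (P : (ED D).toAffine.Point) (h : BC (F := F) D P = 0) : P = 0 := by
  rcases P with _ | ⟨x, y, hxy⟩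
  · rfl
  · exfalso
    obtain ⟨h', e⟩ := tH_some (sED (algebraMap K F) (one_ne_zero) (by
      rw [one_pow, mul_one] : algebraMap K F D = algebraMap K F D * 1 ^ 3)) x y hxy
    have h1 : BC (F := F) D (.some x y hxy) = .some _ _ h' := e
    rw [h1] at h
    exact Affine.Point.some_ne_zero h' h

/-- **A multiple of every point over `F` comes from `K`**, if the nontrivial twists have finitely
many points. -/
theorem stab [FiniteDimensional K F] [IsGalois K F] {ω : K} (hω : ω ^ 2 + ω + 1 = 0) {I : Type}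
    [Fintype I] (d : I → K) (x : I → F) (hd : ∀ i, d i ≠ 0)
    (hx : ∀ i, x i ^ 3 = algebraMap K F (d i))
    (hgen : ∀ S : Subfield F, (∀ k : K, algebraMap K F k ∈ S) → (∀ i, x i ∈ S) → S = ⊤)
    {D : K} (hD : D ≠ 0)
    (hyp : ∀ t : I → ZMod 3, t ≠ 0 → Finite (ED (D * ∏ i, d i ^ (t i).val)).toAffine.Point) :
    ∃ n : ℕ, n ≠ 0 ∧ ∀ P : (ED (algebraMap K F D)).toAffine.Point,
      ∃ Q, BC (F := F) D Q = n • P := by
  have hx0 : ∀ i, x i ≠ 0 := by
    intro i h0
    have h1 := hx i
    rw [h0, zero_pow (by norm_num)] at h1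
    exact hd i ((map_eq_zero _).1 h1.symm)
  obtain ⟨u, hu⟩ : ∃ u : (I → ZMod 3) → F, ∀ t, u t = ∏ i, x i ^ (t i).val := ⟨_, fun T => rfl⟩
  have hune : ∀ t, u t ≠ 0 := fun t => by
    rw [hu]
    exact Finset.prod_ne_zero_iff.2 fun i _ => pow_ne_zero _ (hx0 i)
  have hu3 : ∀ t, u t ^ 3 = algebraMap K F (∏ i, d i ^ (t i).val) := by
    intro t
    rw [hu, ← Finset.prod_pow, map_prod]
    refine Finset.prod_congr rfl fun i _ => ?_
    rw [map_pow, ← hx i, ← pow_mul, ← pow_mul, mul_comm]
  have hu0 : u 0 = 1 := by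
    rw [hu]
    refine Finset.prod_eq_one fun i _ => ?_
    rw [Pi.zero_apply, ZMod.val_zero, pow_zero]
  have hDF : algebraMap K F D ≠ 0 := (map_ne_zero _).2 hD
  obtain ⟨z, hzdef⟩ : ∃ z : F, z = algebraMap K F ω := ⟨_, rfl⟩
  have hz : z ^ 2 + z + 1 = 0 := by
    rw [hzdef, ← map_pow, ← map_add, ← map_one (algebraMap K F), ← map_add, hω, map_zero]
  have hz3 := cube_of hz
  -- the maps
  have S1 : ∀ t, Sc (RingHom.id F) (u t) (ED (algebraMap K F D))
      (ED (algebraMap K F (D * ∏ i, d i ^ (t i).val))) := fun t =>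
    sED _ (hune t) (by rw [map_mul, hu3, RingHom.id_apply])
  have S2 : ∀ t, Sc (RingHom.id F) (u t)⁻¹ (ED (algebraMap K F (D * ∏ i, d i ^ (t i).val)))
      (ED (algebraMap K F D)) := fun t =>
    sED _ (inv_ne_zero (hune t)) (by
      rw [RingHom.id_apply, map_mul, ← hu3, mul_assoc, ← mul_pow, mul_inv_cancel₀ (hune t), one_pow,
        mul_one])
  have Sg : ∀ (b : K) (g : F ≃ₐ[K] F), Sc (g : F →+* F) 1 (ED (algebraMap K F b))
      (ED (algebraMap K F b)) := fun b g => sED _ one_ne_zero (by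
    rw [one_pow, mul_one]
    exact (g.commutes b).symm)
  have Sa : ∀ b : K, Sc (algebraMap K F) 1 (ED b) (ED (algebraMap K F b)) := fun b =>
    sED _ one_ne_zero (by rw [one_pow, mul_one])
  have Sgg : ∀ (b : K) (g h : F ≃ₐ[K] F) (Q : (ED (algebraMap K F b)).toAffine.Point),
      tH (Sg b h) (tH (Sg b g) Q) = tH (Sg b (h * g)) Q := fun b g h Q =>
    tH_tH _ _ _ (fun y => rfl) (by rw [map_one, mul_one]) Q
  obtain ⟨R, hR⟩ : ∃ R : (t : I → ZMod 3) → (ED (algebraMap K F D)).toAffine.Point →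
      (ED (algebraMap K F (D * ∏ i, d i ^ (t i).val))).toAffine.Point,
      ∀ t P, R t P = ∑ g : F ≃ₐ[K] F, tH (Sg _ g) (tH (S1 t) P) := ⟨_, fun t P => rfl⟩
  have hRinv : ∀ t P (g : F ≃ₐ[K] F), tH (Sg _ g) (R t P) = R t P := by
    intro t P g
    rw [hR, map_sum]
    rw [Finset.sum_congr rfl fun h _ => Sgg _ h g _]
    exact Equiv.sum_comp (Equiv.mulLeft g) (fun h => tH (Sg _ h) (tH (S1 t) P))
  -- descent
  have hdesc : ∀ (b : K) (Q : (ED (algebraMap K F b)).toAffine.Point),
      (∀ g : F ≃ₐ[K] F, tH (Sg b g) Q = Q) → ∃ Q0 : (ED b).toAffine.Point, tH (Sa b) Q0 = Q := by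
    intro b Q hQ
    rcases Q with _ | ⟨X, Y, h⟩
    · exact ⟨0, rfl⟩
    · have h1 : ∀ g : F ≃ₐ[K] F, g X = X ∧ g Y = Y := by
        intro g
        have h2 := hQ g
        obtain ⟨h3, e3⟩ := tH_some (Sg b g) X Y h
        rw [e3, Affine.Point.some.injEq, one_pow, one_pow, mul_one, mul_one] at h2
        exact h2
      obtain ⟨X0, rfl⟩ := (IsGalois.mem_range_algebraMap_iff_fixed (F := K) X).2 fun g => (h1 g).1
      obtain ⟨Y0, rfl⟩ := (IsGalois.mem_range_algebraMap_iff_fixed (F := K) Y).2 fun g => (h1 g).2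
      have hns : (ED b).toAffine.Nonsingular X0 Y0 := by
        have h2 := (Pool.Agent.TH841.NF.ns_iff (Sa b) X0 Y0).1
        apply h2
        rw [one_pow, one_pow, mul_one, mul_one]
        exact h
      refine ⟨.some X0 Y0 hns, ?_⟩
      obtain ⟨h3, e3⟩ := tH_some (Sa b) X0 Y0 hns
      rw [e3, Affine.Point.some.injEq, one_pow, one_pow, mul_one, mul_one]
      exact ⟨rfl, rfl⟩
  -- the sum
  have hsum : ∀ P, ∑ t, tH (S2 t) (R t P) = 3 ^ Fintype.card I • P := by
    intro P
    have h1 : ∀ t, tH (S2 t) (R t P) =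
        ∑ g : F ≃ₐ[K] F, tH (S2 t) (tH (Sg _ g) (tH (S1 t) P)) := fun t => by
      rw [hR, map_sum]
    rw [Finset.sum_congr rfl fun t _ => h1 t, Finset.sum_comm, Finset.sum_eq_single 1]
    · have h2 : ∀ t, tH (S2 t) (tH (Sg _ (1 : F ≃ₐ[K] F)) (tH (S1 t) P)) = P := by
        intro t
        have S3 : Sc (RingHom.id F) (u t) (ED (algebraMap K F D))
          (ED (algebraMap K F (D * ∏ i, d i ^ (t i).val))) := S1 t
        rw [tH_tH (S1 t) (Sg _ 1) S3 (fun y => rfl) (by
          rw [mul_one]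
          rfl)]
        have S4 : Sc (RingHom.id F) 1 (ED (algebraMap K F D)) (ED (algebraMap K F D)) :=
          sED _ one_ne_zero (by rw [RingHom.id_apply, one_pow, mul_one])
        rw [tH_tH S3 (S2 t) S4 (fun y => rfl) (by
          rw [RingHom.id_apply, mul_inv_cancel₀ (hune t)])]
        rcases P with _ | ⟨X, Y, h⟩
        · rfl
        · obtain ⟨h3, e3⟩ := tH_some S4 X Y h
          rw [e3, Affine.Point.some.injEq]
          simp
      rw [Finset.sum_congr rfl fun t _ => h2 t, Finset.sum_const, Finset.card_univ,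
        Fintype.card_fun, ZMod.card]
    · intro g _ hg
      have hex : ∀ i, ∃ c : ZMod 3, g (x i) = z ^ c.val * x i := by
        intro i
        apply cube_roots hz
        rw [← map_pow, hx i, AlgEquiv.commutes]
      choose s hs using hex
      obtain ⟨i0, hi0⟩ : ∃ i, s i ≠ 0 := by
        by_contra hcon
        push Not at hcon
        apply hg
        have h5 := hgen (RingHom.eqLocusField (g : F →+* F) (RingHom.id F))
          (fun y => g.commutes y) (fun i => by
            show g (x i) = x i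
            rw [hs i, hcon i, ZMod.val_zero, pow_zero, one_mul])
        ext y
        have h7 : y ∈ RingHom.eqLocusField (g : F →+* F) (RingHom.id F) := by rw [h5]; trivial
        exact h7
      have hgz : g z = z := by
        rw [hzdef]
        exact g.commutes ω
      have hz0 : z ≠ 0 := by
        intro h
        rw [h] at hz
        norm_num at hz
      have hgu : ∀ t, g (u t) = z ^ (∑ i, s i * t i).val * u t := by
        intro t
        rw [hu, map_prod, pow_sum_val hz3, ← Finset.prod_mul_distrib]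
        refine Finset.prod_congr rfl fun i _ => ?_
        rw [map_pow, hs i, mul_pow, pow_mul_val hz3]
      have SS : ∀ c : ZMod 3, Sc (g : F →+* F) (z ^ c.val) (ED (algebraMap K F D))
          (ED (algebraMap K F D)) := fun c =>
        sED _ (pow_ne_zero _ hz0) (by
          have h1 : (z ^ c.val) ^ 3 = 1 := by rw [← pow_mul, mul_comm, pow_mul, hz3, one_pow]
          rw [h1, mul_one]
          exact (g.commutes D).symm)
      rw [Finset.sum_congr rfl (g := fun t => tH (SS (∑ i, s i * t i)) P) (fun t _ => ?_)]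
      · exact twist_sum hDF hz _ s hi0 SS P
      · have S3 : Sc (g : F →+* F) (z ^ (∑ i, s i * t i).val * u t) (ED (algebraMap K F D))
            (ED (algebraMap K F (D * ∏ i, d i ^ (t i).val))) :=
          sED _ (mul_ne_zero (pow_ne_zero _ hz0) (hune t)) (by
            have h1 : (z ^ (∑ i, s i * t i).val) ^ 3 = 1 := by
              rw [← pow_mul, mul_comm, pow_mul, hz3, one_pow]
            have h2 : (g : F →+* F) (algebraMap K F D) = algebraMap K F D := g.commutes D
            rw [mul_pow, h1, one_mul, hu3, h2, map_mul])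
        rw [tH_tH (S1 t) (Sg _ g) S3 (fun y => rfl) (by
          rw [mul_one]
          exact (hgu t).symm)]
        exact tH_tH S3 (S2 t) (SS _) (fun y => rfl) (by
          rw [RingHom.id_apply, mul_assoc, mul_inv_cancel₀ (hune t), mul_one]) P
    · intro h
      exact absurd (Finset.mem_univ _) h
  -- the multiple
  obtain ⟨N, hN0, hN⟩ : ∃ N : ℕ, N ≠ 0 ∧ ∀ t : I → ZMod 3, t ≠ 0 →
      ∀ Q : (ED (D * ∏ i, d i ^ (t i).val)).toAffine.Point, N • Q = 0 := by
    refine ⟨∏ t ∈ (Finset.univ : Finset (I → ZMod 3)).erase 0,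
      Nat.card (ED (D * ∏ i, d i ^ (t i).val)).toAffine.Point, ?_, ?_⟩
    · refine Finset.prod_ne_zero_iff.2 fun t ht => ?_
      have := hyp t (Finset.ne_of_mem_erase ht)
      exact Nat.card_pos.ne'
    · intro t ht Q
      have := hyp t ht
      obtain ⟨c, hc⟩ := Finset.dvd_prod_of_mem
        (fun t => Nat.card (ED (D * ∏ i, d i ^ (t i).val)).toAffine.Point)
        (Finset.mem_erase.2 ⟨ht, Finset.mem_univ t⟩)
      have h9 : Nat.card (ED (D * ∏ i, d i ^ (t i).val)).toAffine.Point • Q = 0 :=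
        card_nsmul_eq_zero'
      rw [hc, Nat.mul_comm (Nat.card _) c, mul_smul, h9, smul_zero]
  refine ⟨N * 3 ^ Fintype.card I, mul_ne_zero hN0 (by positivity), fun P => ?_⟩
  have hd0 : ∀ t, ∃ Q0, tH (Sa (D * ∏ i, d i ^ (t i).val)) Q0 = R t P := fun t =>
    hdesc _ _ (hRinv t P)
  choose Q hQ using hd0
  have e0 : D = D * ∏ i, d i ^ ((0 : I → ZMod 3) i).val := by simp
  have S5 : Sc (RingHom.id K) 1 (ED (D * ∏ i, d i ^ ((0 : I → ZMod 3) i).val)) (ED D) :=
    sED _ one_ne_zero (by rw [RingHom.id_apply, one_pow, mul_one, ← e0])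
  refine ⟨N • tH S5 (Q 0), ?_⟩
  rw [map_nsmul, mul_smul, ← hsum, Finset.smul_sum, Finset.sum_eq_single_of_mem 0
    (Finset.mem_univ _) (fun t _ ht => by
      rw [← hQ, ← map_nsmul, ← map_nsmul, hN t ht, map_zero, map_zero])]
  congr 1
  have S6 : Sc (algebraMap K F) 1 (ED (D * ∏ i, d i ^ ((0 : I → ZMod 3) i).val))
      (ED (algebraMap K F D)) := sED _ one_ne_zero (by rw [one_pow, mul_one, ← e0])
  rw [← hQ, tH_tH (Sa _) (S2 0) S6 (fun y => rfl) (by
    rw [hu0, map_one, inv_one, mul_one])]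
  exact tH_tH S5 _ S6 (fun y => rfl) (by rw [map_one, mul_one]) (Q 0)

theorem rank_stab [FiniteDimensional K F] [IsGalois K F] {ω : K} (hω : ω ^ 2 + ω + 1 = 0)
    {I : Type} [Fintype I] (d : I → K) (x : I → F) (hd : ∀ i, d i ≠ 0)
    (hx : ∀ i, x i ^ 3 = algebraMap K F (d i))
    (hgen : ∀ S : Subfield F, (∀ k : K, algebraMap K F k ∈ S) → (∀ i, x i ∈ S) → S = ⊤)
    {D : K} (hD : D ≠ 0)
    (hyp : ∀ t : I → ZMod 3, t ≠ 0 → Finite (ED (D * ∏ i, d i ^ (t i).val)).toAffine.Point) :
    Module.rank ℤ (ED (algebraMap K F D)).toAffine.Point =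
      Module.rank ℤ (ED D).toAffine.Point := by
  obtain ⟨n, hn, h⟩ := stab hω d x hd hx hgen hD hyp
  exact rank_eq (BC (F := F) D) (BC_inj D) hn h

end stab

end Pool.Agent.V5helper41.ST
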