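import Pool.Agent.V5helper41.ST.Net
import Pool.Agent.V5helper41.ST.Eul

/-!
# The sequence of the radicands and the twists
-/

set_option autoImplicit false
set_option linter.unusedSectionVars false

namespace Pool.Agent.V5helper41.ST

open Pool.Agent.Y692.QS
open Pool.Agent.Y715.T.Rec (cs)
open Pool.Agent.Y715.T.RecG (Pq)
open Pool.Agent.Y703.CT (Dt pD Ker)
open Pool.Agent.R432.C (inf_q rec_cs pq_dvd nr_prod nr_pow)
open scoped Classical

/-- the product with exponents `0`, `1`, `2` -/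
noncomputable def pw (S : Finset Ei) (u : Ei → ZMod 3) : Ei := ∏ x ∈ S, x ^ (u x).val

/-- the active primes -/
abbrev Act (S : Finset Ei) (u : Ei → ZMod 3) : Type := {x : Ei // x ∈ S ∧ u x ≠ 0}

instance (S : Finset Ei) (u : Ei → ZMod 3) : Finite (Act S u) :=
  Set.Finite.subset S.finite_toSet fun _ hx => hx.1

noncomputable instance (S : Finset Ei) (u : Ei → ZMod 3) : Fintype (Act S u) := Fintype.ofFinite _

lemma sum_act {M : Type} [AddCommMonoid M] (S : Finset Ei) (u : Ei → ZMod 3) (f : Ei → M)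
    (h : ∀ x ∈ S, u x = 0 → f x = 0) : ∑ x : Act S u, f x.1 = ∑ x ∈ S, f x := by
  have h1 : ∑ x ∈ S, f x = ∑ x ∈ S.filter (fun x => u x ≠ 0), f x := by
    rw [Finset.sum_filter]
    refine Finset.sum_congr rfl fun x hx => ?_
    by_cases h0 : u x = 0
    · rw [if_neg (not_not.2 h0), h x hx h0]
    · rw [if_pos h0]
  rw [h1]
  exact (Finset.sum_subtype (S.filter (fun x => u x ≠ 0)) (p := fun x => x ∈ S ∧ u x ≠ 0)
    (fun x => by rw [Finset.mem_filter]) f).symm

lemma prod_act {M : Type} [CommMonoid M] (S : Finset Ei) (u : Ei → ZMod 3) (f : Ei → M)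
    (h : ∀ x ∈ S, u x = 0 → f x = 1) : ∏ x : Act S u, f x.1 = ∏ x ∈ S, f x := by
  have h1 : ∏ x ∈ S, f x = ∏ x ∈ S.filter (fun x => u x ≠ 0), f x := by
    rw [Finset.prod_filter]
    refine Finset.prod_congr rfl fun x hx => ?_
    by_cases h0 : u x = 0
    · rw [if_neg (not_not.2 h0), h x hx h0]
    · rw [if_pos h0]
  rw [h1]
  exact (Finset.prod_subtype (S.filter (fun x => u x ≠ 0)) (p := fun x => x ∈ S ∧ u x ≠ 0)
    (fun x => by rw [Finset.mem_filter]) f).symm

theorem net_dt {S : Finset Ei} (hS : ∀ x ∈ S, Pq x) (u : Ei → ZMod 3) :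
    Dt (fun x : Act S u => x.1) (fun x => u x.1) where
  pq := fun x => hS x.1 x.2.1
  nd := fun x y hne hd => hne (Subtype.ext (pq_dvd (hS _ y.2.1) (hS _ x.2.1) hd).symm)
  e0 := fun x => x.2.2

theorem net_pD (S : Finset Ei) (u : Ei → ZMod 3) :
    pD (fun x : Act S u => x.1) (fun x => u x.1) = pw S u := by
  unfold pD pw
  exact prod_act S u (fun x => x ^ (u x).val) fun x _ h => by rw [h, ZMod.val_zero, pow_zero]

theorem net_ker {S : Finset Ei} {u : Ei → ZMod 3} (h : Good S u) :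
    Ker (fun x : Act S u => x.1) (fun x => u x.1) := by
  intro v hv
  set v' : Ei → ZMod 3 := fun x => if hx : x ∈ S ∧ u x ≠ 0 then v ⟨x, hx⟩ else 0 with hv'
  have he : ∀ x : Act S u, v' x.1 = v x := fun x => by
    rw [hv']
    exact dif_pos x.2
  have h1 := h v' (fun x hx hux => by
    rw [← sum_act S u (fun y => u y * cs x y * (v' y - v' x)) fun y _ h0 => by
      rw [h0, zero_mul, zero_mul]]
    refine Eq.trans (Finset.sum_congr rfl fun y _ => ?_) (hv ⟨x, hx, hux⟩)
    rw [he, show v' x = v ⟨x, hx, hux⟩ from he ⟨x, hx, hux⟩])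
  intro x y
  rw [← he x, ← he y]
  exact h1 x.1 x.2.1 y.1 y.2.1 x.2.2 y.2.2

/-! ### the sequence -/

/-- the primes up to the stage `k` -/
def PP (M : Finset Ei) (Q : ℕ → Finset Ei) (k : ℕ) : Finset Ei :=
  M ∪ (Finset.range k).biUnion Q

lemma mem_PP {M : Finset Ei} {Q : ℕ → Finset Ei} {k : ℕ} {x : Ei} :
    x ∈ PP M Q k ↔ x ∈ M ∨ ∃ i, i < k ∧ x ∈ Q i := by
  unfold PP
  simp

/-- a sequence of universal extensions -/
def Seq (M : Finset Ei) (Q : ℕ → Finset Ei) : Prop := ∀ k, Univ (PP M Q k) (Q k)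

theorem exists_seq (M : Finset Ei) (hM : ∀ p ∈ M, Pq p) (T : Finset Ei) :
    ∃ Q : ℕ → Finset Ei, Seq M Q ∧ ∀ k, Disjoint T (Q k) := by
  have hch : ∀ P : Finset Ei, ∃ Q : Finset Ei, (∀ p ∈ P, Pq p) → Univ P Q ∧ Disjoint T Q := by
    intro P
    by_cases h : ∀ p ∈ P, Pq p
    · obtain ⟨Q, h1⟩ := exists_univ P h T
      exact ⟨Q, fun _ => h1⟩
    · exact ⟨∅, fun h' => absurd h' h⟩
  choose nx hnx using hch
  set S : ℕ → Finset Ei := fun k => Nat.rec M (fun _ P => P ∪ nx P) k with hSd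
  have hS1 : ∀ k, S (k + 1) = S k ∪ nx (S k) := fun k => rfl
  have hpq : ∀ k, ∀ p ∈ S k, Pq p := by
    intro k
    induction k with
    | zero => exact hM
    | succ k ih =>
      intro p hp
      rw [hS1] at hp
      rcases Finset.mem_union.1 hp with h | h
      · exact ih p h
      · exact (hnx _ ih).1.pq p h
  have hPP : ∀ k, PP M (fun k => nx (S k)) k = S k := by
    intro k
    induction k with
    | zero =>
      unfold PP
      rw [Finset.range_zero, Finset.biUnion_empty, Finset.union_empty]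
      rfl
    | succ k ih =>
      rw [hS1, ← ih]
      ext x
      simp only [mem_PP, Finset.mem_union]
      constructor
      · rintro (h | ⟨i, hi, hx⟩)
        · exact Or.inl (Or.inl h)
        · rcases Nat.lt_succ_iff_lt_or_eq.1 hi with h | h
          · exact Or.inl (Or.inr ⟨i, h, hx⟩)
          · right
            rw [ih, ← h]
            exact hx
      · rintro ((h | ⟨i, hi, hx⟩) | h)
        · exact Or.inl h
        · exact Or.inr ⟨i, by omega, hx⟩
        · exact Or.inr ⟨k, by omega, by rw [ih] at h; exact h⟩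
  refine ⟨fun k => nx (S k), fun k => ?_, fun k => (hnx _ (hpq k)).2⟩
  rw [hPP]
  exact (hnx _ (hpq k)).1

section seq

variable {M : Finset Ei} {Q : ℕ → Finset Ei}

theorem Seq.pq (hM : ∀ p ∈ M, Pq p) (hQ : Seq M Q) (k : ℕ) : ∀ p ∈ PP M Q k, Pq p := by
  intro p hp
  rcases mem_PP.1 hp with h | ⟨i, -, h⟩
  · exact hM p h
  · exact (hQ i).pq p h

theorem Seq.disjM (hQ : Seq M Q) {i : ℕ} {x : Ei} (h : x ∈ Q i) : x ∉ M := fun hx =>
  Finset.disjoint_left.1 (hQ i).disj (mem_PP.2 (Or.inl hx)) h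

theorem Seq.uniq (hQ : Seq M Q) {i j : ℕ} {x : Ei} (hi : x ∈ Q i) (hj : x ∈ Q j) : i = j := by
  rcases lt_trichotomy i j with h | h | h
  · exact absurd hj (Finset.disjoint_left.1 (hQ j).disj (mem_PP.2 (Or.inr ⟨i, h, hi⟩)))
  · exact h
  · exact absurd hi (Finset.disjoint_left.1 (hQ i).disj (mem_PP.2 (Or.inr ⟨j, h, hj⟩)))

/-- the weights of the twist by `t` -/
noncomputable def uT (M : Finset Ei) (Q : ℕ → Finset Ei) (w : Ei → ZMod 3) {k : ℕ}
    (t : Fin k → ZMod 3) (x : Ei) : ZMod 3 :=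
  if x ∈ M then w x else ∑ i : Fin k, if x ∈ Q i then t i else 0

lemma uT_M {w : Ei → ZMod 3} {k : ℕ} (t : Fin k → ZMod 3) {x : Ei} (hx : x ∈ M) :
    uT M Q w t x = w x := by
  unfold uT
  rw [if_pos hx]

lemma uT_Q (hQ : Seq M Q) {w : Ei → ZMod 3} {k : ℕ} (t : Fin k → ZMod 3) {x : Ei} {i : Fin k}
    (hx : x ∈ Q i) : uT M Q w t x = t i := by
  unfold uT
  rw [if_neg (hQ.disjM hx), Finset.sum_eq_single i (fun j _ hj => by
    rw [if_neg fun h => hj (Fin.ext (hQ.uniq h hx))]) (fun h => absurd (Finset.mem_univ _) h),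
    if_pos hx]

lemma uT_late (hQ : Seq M Q) {w : Ei → ZMod 3} {k : ℕ} (t : Fin k → ZMod 3) {x : Ei} {i : ℕ}
    (hi : k ≤ i) (hx : x ∈ Q i) : uT M Q w t x = 0 := by
  unfold uT
  rw [if_neg (hQ.disjM hx)]
  refine Finset.sum_eq_zero fun j _ => if_neg fun h => ?_
  have h1 := hQ.uniq h hx
  have h2 := j.2
  omega

theorem good_T (hQ : Seq M Q) (w : Ei → ZMod 3) {k : ℕ} {t : Fin k → ZMod 3} (ht : t ≠ 0) :
    Good (PP M Q k) (uT M Q w t) := by
  -- the last nonzero exponent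
  obtain ⟨i, hi, hmax⟩ : ∃ i : Fin k, t i ≠ 0 ∧ ∀ j : Fin k, i < j → t j = 0 := by
    have hne : (Finset.univ.filter fun i : Fin k => t i ≠ 0).Nonempty := by
      by_contra h
      apply ht
      funext i
      by_contra hi
      exact h ⟨i, Finset.mem_filter.2 ⟨Finset.mem_univ _, hi⟩⟩
    refine ⟨_, (Finset.mem_filter.1 (Finset.max'_mem _ hne)).2, fun j hj => ?_⟩
    by_contra h
    exact absurd (Finset.le_max' _ j (Finset.mem_filter.2 ⟨Finset.mem_univ _, h⟩)) (not_le.2 hj)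
  have h1 := (hQ i).good (t i) (uT M Q w t) hi fun x hx => uT_Q hQ t hx
  refine h1.mono ?_ ?_
  · intro x hx
    rcases Finset.mem_union.1 hx with h | h
    · rcases mem_PP.1 h with h | ⟨l, hl, h⟩
      · exact mem_PP.2 (Or.inl h)
      · exact mem_PP.2 (Or.inr ⟨l, by have := i.2; omega, h⟩)
    · exact mem_PP.2 (Or.inr ⟨i, i.2, h⟩)
  · intro x hx hx'
    rcases mem_PP.1 hx with h | ⟨l, hl, h⟩
    · exact absurd (Finset.mem_union_left _ (mem_PP.2 (Or.inl h))) hx'
    · have h2 : i.1 < l := by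
        by_contra hc
        apply hx'
        rcases Nat.lt_or_ge l i.1 with h3 | h3
        · exact Finset.mem_union_left _ (mem_PP.2 (Or.inr ⟨l, h3, h⟩))
        · have h4 : l = i.1 := by omega
          rw [h4] at h
          exact Finset.mem_union_right _ h
      rw [uT_Q hQ t (i := ⟨l, hl⟩) h]
      exact hmax ⟨l, hl⟩ h2

/-- the radicands -/
noncomputable def dd (Q : ℕ → Finset Ei) (k : ℕ) : Ei := ∏ x ∈ Q k, x

theorem pw_T (hQ : Seq M Q) (w : Ei → ZMod 3) {k : ℕ} (t : Fin k → ZMod 3) :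
    pw (PP M Q k) (uT M Q w t) = pw M w * ∏ i : Fin k, dd Q i ^ (t i).val := by
  unfold pw PP dd
  rw [Finset.prod_union, Finset.prod_biUnion]
  · congr 1
    · exact Finset.prod_congr rfl fun x hx => by rw [uT_M t hx]
    · rw [Finset.prod_range]
      refine Finset.prod_congr rfl fun i _ => ?_
      rw [← Finset.prod_pow]
      exact Finset.prod_congr rfl fun x hx => by rw [uT_Q hQ t hx]
  · intro i _ l _ hil
    show Disjoint (Q i) (Q l)
    rw [Finset.disjoint_left]
    intro x hx hx'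
    exact hil (hQ.uniq hx hx')
  · rw [Finset.disjoint_left]
    intro x hx hx'
    obtain ⟨i, -, hi⟩ := Finset.mem_biUnion.1 hx'
    exact hQ.disjM hi hx

theorem nr_dd (hQ : Seq M Q) (k : ℕ) : nr (dd Q k) ≡ 1 [ZMOD 9] := by
  unfold dd
  rw [nr_prod]
  have h : ∀ s : Finset Ei, (∀ x ∈ s, nr x % 9 = 1) → (∏ x ∈ s, nr x) ≡ 1 [ZMOD 9] := by
    intro s
    induction s using Finset.induction_on with
    | empty => intro _; rw [Finset.prod_empty]
    | insert a s ha ih =>
      intro h1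
      rw [Finset.prod_insert ha]
      have h2 : nr a ≡ 1 [ZMOD 9] := h1 a (Finset.mem_insert_self _ _)
      have h3 := h2.mul (ih fun x hx => h1 x (Finset.mem_insert_of_mem hx))
      rwa [mul_one] at h3
  exact h _ (hQ k).nine

theorem nine_T (hQ : Seq M Q) {w : Ei → ZMod 3} (h9 : ¬ (9 : ℤ) ∣ nr (pw M w) - 1) {k : ℕ}
    (t : Fin k → ZMod 3) : ¬ (9 : ℤ) ∣ nr (pw (PP M Q k) (uT M Q w t)) - 1 := by
  rw [pw_T hQ, nr_mul, nr_prod]
  have h1 : (∏ i : Fin k, nr (dd Q i ^ (t i).val)) ≡ 1 [ZMOD 9] := by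
    have h5 : ∀ s : Finset (Fin k), (∏ i ∈ s, nr (dd Q i ^ (t i).val)) ≡ 1 [ZMOD 9] := by
      intro s
      induction s using Finset.induction_on with
      | empty => rw [Finset.prod_empty]
      | insert a s ha ih =>
        rw [Finset.prod_insert ha]
        have h2 : nr (dd Q a ^ (t a).val) ≡ 1 [ZMOD 9] := by
          rw [nr_pow]
          have h4 := (nr_dd hQ a).pow (t a).val
          rwa [one_pow] at h4
        have h6 := h2.mul ih
        rwa [mul_one] at h6
    exact h5 Finset.univ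
  intro hd
  apply h9
  have h2 : nr (pw M w) * ∏ i : Fin k, nr (dd Q i ^ (t i).val) ≡ nr (pw M w) [ZMOD 9] := by
    have h3 := (Int.ModEq.refl (n := 9) (nr (pw M w))).mul h1
    rwa [mul_one] at h3
  have h4 : nr (pw M w) ≡ 1 [ZMOD 9] := h2.symm.trans ((Int.modEq_iff_dvd.2 hd).symm)
  exact (Int.modEq_iff_dvd.1 h4.symm)

/-- an active prime -/
theorem act_ne {S : Finset Ei} {u : Ei → ZMod 3} (h9 : ¬ (9 : ℤ) ∣ nr (pw S u) - 1) :
    Nonempty (Act S u) := by
  by_contra hcon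
  apply h9
  have h1 : pw S u = 1 := by
    unfold pw
    refine Finset.prod_eq_one fun x hx => ?_
    have h2 : u x = 0 := by
      by_contra h3
      exact hcon ⟨⟨x, hx, h3⟩⟩
    rw [h2, ZMod.val_zero, pow_zero]
  rw [h1, nr_one, sub_self]
  exact dvd_zero _

end seq

end Pool.Agent.V5helper41.ST
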