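import Pool.Agent.V5helper41.ST.Star
import Pool.Agent.V5helper41.ST.CoreG

/-!
# The sequence of the radicands `∏ q q̄²`
-/

set_option autoImplicit false
set_option linter.unusedSectionVars false

namespace Pool.Agent.V5helper41.ST

open Pool.Agent.Y692.QS
open Pool.Agent.Y715.T.Rec (cs)
open Pool.Agent.Y715.T.RecG (Pq)
open Pool.Agent.Y350.CT (pq_star)
open Pool.Agent.R432.C (inf_q rec_cs pq_dvd nr_prod nr_pow)
open scoped Classical

/-- a sequence of universal extensions -/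
def SeqS (M : Finset Ei) (z : Ei) (Q : ℕ → Finset Ei) : Prop :=
  ∀ k, UnivS (PP M (fun i => sym (Q i)) k) z (Q k)

theorem exists_seqS (M : Finset Ei) (hM : ∀ p ∈ M, Pq p) (hMs : ∀ p ∈ M, star p ∈ M) {z : Ei}
    (hz : z ∈ M) (T : Finset Ei) :
    ∃ Q : ℕ → Finset Ei, SeqS M z Q ∧ ∀ k, ∀ q ∈ Q k, q ∉ T ∧ star q ∉ T := by
  have hch : ∀ P : Finset Ei, ∃ Q : Finset Ei, ((∀ p ∈ P, Pq p) ∧ (∀ p ∈ P, star p ∈ P) ∧ z ∈ P) →
      UnivS P z Q ∧ ∀ q ∈ Q, q ∉ T ∧ star q ∉ T := by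
    intro P
    by_cases h : (∀ p ∈ P, Pq p) ∧ (∀ p ∈ P, star p ∈ P) ∧ z ∈ P
    · obtain ⟨Q, h1⟩ := exists_univS P h.1 h.2.1 h.2.2 T
      exact ⟨Q, fun _ => h1⟩
    · exact ⟨∅, fun h' => absurd h' h⟩
  choose nx hnx using hch
  set S : ℕ → Finset Ei := fun k => Nat.rec M (fun _ P => P ∪ sym (nx P)) k with hSd
  have hS1 : ∀ k, S (k + 1) = S k ∪ sym (nx (S k)) := fun k => rfl
  have hall : ∀ k, (∀ p ∈ S k, Pq p) ∧ (∀ p ∈ S k, star p ∈ S k) ∧ z ∈ S k := by
    intro k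
    induction k with
    | zero => exact ⟨hM, hMs, hz⟩
    | succ k ih =>
      have hU := (hnx _ ih).1
      refine ⟨fun p hp => ?_, fun p hp => ?_, ?_⟩
      · rw [hS1] at hp
        rcases Finset.mem_union.1 hp with h | h
        · exact ih.1 p h
        · rcases mem_sym.1 h with h | h
          · exact hU.pq p h
          · have h1 := pq_star (hU.pq _ h)
            rwa [star_star] at h1
      · rw [hS1] at hp ⊢
        rcases Finset.mem_union.1 hp with h | h
        · exact Finset.mem_union_left _ (ih.2.1 p h)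
        · refine Finset.mem_union_right _ (mem_sym.2 ?_)
          rw [star_star]
          exact (mem_sym.1 h).symm
      · rw [hS1]
        exact Finset.mem_union_left _ ih.2.2
  have hPP : ∀ k, PP M (fun k => sym (nx (S k))) k = S k := by
    intro k
    induction k with
    | zero =>
      unfold PP
      rw [Finset.range_zero, Finset.biUnion_empty, Finset.union_empty]
      rfl
    | succ k ih =>
      rw [hS1, ← ih]
      ext x
      simp only [mem_PP, Finset.mem_union]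
      constructor
      · rintro (h | ⟨i, hi, hx⟩)
        · exact Or.inl (Or.inl h)
        · rcases Nat.lt_succ_iff_lt_or_eq.1 hi with h | h
          · exact Or.inl (Or.inr ⟨i, h, hx⟩)
          · right
            rw [ih, ← h]
            exact hx
      · rintro ((h | ⟨i, hi, hx⟩) | h)
        · exact Or.inl h
        · exact Or.inr ⟨i, by omega, hx⟩
        · exact Or.inr ⟨k, by omega, by rw [ih] at h; exact h⟩
  refine ⟨fun k => nx (S k), fun k => ?_, fun k => (hnx _ (hall k)).2⟩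
  rw [hPP]
  exact (hnx _ (hall k)).1

section seq

variable {M : Finset Ei} {z : Ei} {Q : ℕ → Finset Ei}

theorem SeqS.pq (hM : ∀ p ∈ M, Pq p) (hQ : SeqS M z Q) (k : ℕ) :
    ∀ p ∈ PP M (fun i => sym (Q i)) k, Pq p := by
  intro p hp
  rcases mem_PP.1 hp with h | ⟨i, -, h⟩
  · exact hM p h
  · rcases mem_sym.1 h with h | h
    · exact (hQ i).pq p h
    · have h1 := pq_star ((hQ i).pq _ h)
      rwa [star_star] at h1

theorem SeqS.cl (hMs : ∀ p ∈ M, star p ∈ M) (k : ℕ) :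
    ∀ p ∈ PP M (fun i => sym (Q i)) k, star p ∈ PP M (fun i => sym (Q i)) k := by
  intro p hp
  rcases mem_PP.1 hp with h | ⟨i, hi, h⟩
  · exact mem_PP.2 (Or.inl (hMs p h))
  · refine mem_PP.2 (Or.inr ⟨i, hi, mem_sym.2 ?_⟩)
    rw [star_star]
    exact (mem_sym.1 h).symm

theorem SeqS.disjM (hMs : ∀ p ∈ M, star p ∈ M) (hQ : SeqS M z Q) {i : ℕ} {x : Ei}
    (h : x ∈ sym (Q i)) : x ∉ M := by
  intro hx
  rcases mem_sym.1 h with h | h
  · exact (hQ i).disj x h (mem_PP.2 (Or.inl hx))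
  · exact (hQ i).disj _ h (mem_PP.2 (Or.inl (hMs x hx)))

theorem SeqS.uniq (hMs : ∀ p ∈ M, star p ∈ M) (hQ : SeqS M z Q) {i j : ℕ} {x : Ei}
    (hi : x ∈ sym (Q i)) (hj : x ∈ sym (Q j)) : i = j := by
  have key : ∀ i j : ℕ, i < j → x ∈ sym (Q i) → x ∈ sym (Q j) → False := by
    intro i j h hi hj
    have h1 : x ∈ PP M (fun i => sym (Q i)) j := mem_PP.2 (Or.inr ⟨i, h, hi⟩)
    rcases mem_sym.1 hj with h2 | h2
    · exact (hQ j).disj x h2 h1
    · exact (hQ j).disj _ h2 (SeqS.cl hMs j x h1)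
  rcases lt_trichotomy i j with h | h | h
  · exact absurd hj (fun hj => key i j h hi hj)
  · exact h
  · exact absurd hj (fun hj => key j i h hj hi)

/-- the weights of the twist by `t` -/
noncomputable def uS (M : Finset Ei) (Q : ℕ → Finset Ei) (w : Ei → ZMod 3) {k : ℕ}
    (t : Fin k → ZMod 3) (x : Ei) : ZMod 3 :=
  if x ∈ M then w x else
    ∑ i : Fin k, if x ∈ Q i then t i else if star x ∈ Q i then -t i else 0

lemma uS_M {w : Ei → ZMod 3} {k : ℕ} (t : Fin k → ZMod 3) {x : Ei} (hx : x ∈ M) :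
    uS M Q w t x = w x := by
  unfold uS
  rw [if_pos hx]

lemma uS_Q (hMs : ∀ p ∈ M, star p ∈ M) (hQ : SeqS M z Q) {w : Ei → ZMod 3} {k : ℕ}
    (t : Fin k → ZMod 3) {x : Ei} {i : Fin k} (hx : x ∈ Q i) : uS M Q w t x = t i := by
  unfold uS
  have hxs : x ∈ sym (Q i) := mem_sym.2 (Or.inl hx)
  rw [if_neg (hQ.disjM hMs hxs), Finset.sum_eq_single i, if_pos hx]
  · intro j _ hj
    rw [if_neg fun h => hj (Fin.ext (hQ.uniq hMs (mem_sym.2 (Or.inl h)) hxs)),
      if_neg fun h => hj (Fin.ext (hQ.uniq hMs (mem_sym.2 (Or.inr h)) hxs))]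
  · exact fun h => absurd (Finset.mem_univ _) h

lemma uS_Q' (hMs : ∀ p ∈ M, star p ∈ M) (hQ : SeqS M z Q) {w : Ei → ZMod 3} {k : ℕ}
    (t : Fin k → ZMod 3) {x : Ei} {i : Fin k} (hx : x ∈ Q i) :
    uS M Q w t (star x) = -t i := by
  unfold uS
  have hxs : star x ∈ sym (Q i) := mem_sym.2 (Or.inr (by rwa [star_star]))
  rw [if_neg (hQ.disjM hMs hxs), Finset.sum_eq_single i, if_neg ((hQ i).st x hx),
    if_pos (by rwa [star_star])]
  · intro j _ hj
    rw [if_neg fun h => hj (Fin.ext (hQ.uniq hMs (mem_sym.2 (Or.inl h)) hxs)),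
      if_neg fun h => hj (Fin.ext (hQ.uniq hMs (mem_sym.2 (Or.inr h)) hxs))]
  · exact fun h => absurd (Finset.mem_univ _) h

theorem good_S (hMs : ∀ p ∈ M, star p ∈ M) (hz : z ∈ M) (hQ : SeqS M z Q) {w : Ei → ZMod 3}
    (hw : w z ≠ 0) (hw' : w (star z) = w z) {k : ℕ} {t : Fin k → ZMod 3} (ht : t ≠ 0) :
    Good (PP M (fun i => sym (Q i)) k) (uS M Q w t) := by
  obtain ⟨i, hi, hmax⟩ : ∃ i : Fin k, t i ≠ 0 ∧ ∀ j : Fin k, i < j → t j = 0 := by
    have hne : (Finset.univ.filter fun i : Fin k => t i ≠ 0).Nonempty := by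
      by_contra h
      apply ht
      funext i
      by_contra hi
      exact h ⟨i, Finset.mem_filter.2 ⟨Finset.mem_univ _, hi⟩⟩
    refine ⟨_, (Finset.mem_filter.1 (Finset.max'_mem _ hne)).2, fun j hj => ?_⟩
    by_contra h
    exact absurd (Finset.le_max' _ j (Finset.mem_filter.2 ⟨Finset.mem_univ _, h⟩)) (not_le.2 hj)
  have h1 := (hQ i).good (t i) (uS M Q w t) hi
    (fun x hx => ⟨uS_Q hMs hQ t hx, uS_Q' hMs hQ t hx⟩) (by rwa [uS_M t hz])
    (by rw [uS_M t hz, uS_M t (hMs z hz), hw'])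
  refine h1.mono ?_ ?_
  · intro x hx
    rcases Finset.mem_union.1 hx with h | h
    · rcases mem_PP.1 h with h | ⟨l, hl, h⟩
      · exact mem_PP.2 (Or.inl h)
      · exact mem_PP.2 (Or.inr ⟨l, by have := i.2; omega, h⟩)
    · exact mem_PP.2 (Or.inr ⟨i, i.2, h⟩)
  · intro x hx hx'
    rcases mem_PP.1 hx with h | ⟨l, hl, h⟩
    · exact absurd (Finset.mem_union_left _ (mem_PP.2 (Or.inl h))) hx'
    · have h2 : i.1 < l := by
        by_contra hc
        apply hx'
        rcases Nat.lt_or_ge l i.1 with h3 | h3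
        · exact Finset.mem_union_left _ (mem_PP.2 (Or.inr ⟨l, h3, h⟩))
        · have h4 : l = i.1 := by omega
          rw [h4] at h
          exact Finset.mem_union_right _ h
      have h0 := hmax ⟨l, hl⟩ h2
      rcases mem_sym.1 h with h | h
      · rw [uS_Q hMs hQ t (i := ⟨l, hl⟩) h]
        exact h0
      · have h5 := uS_Q' hMs hQ (w := w) t (i := ⟨l, hl⟩) h
        rw [star_star, h0, neg_zero] at h5
        exact h5

/-- the radicands -/
noncomputable def dS (Q : ℕ → Finset Ei) (k : ℕ) : Ei := ∏ x ∈ Q k, x * star x ^ 2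

/-- the reduced power of the radicand -/
noncomputable def pQ (Q : ℕ → Finset Ei) (k : ℕ) (s : ZMod 3) : Ei :=
  ∏ x ∈ Q k, x ^ s.val * star x ^ (-s).val

/-- the cube root of the quotient -/
noncomputable def cQ (Q : ℕ → Finset Ei) (k : ℕ) (s : ZMod 3) : Ei :=
  ∏ x ∈ Q k, if s = 2 then star x else 1

lemma dS_pow (Q : ℕ → Finset Ei) (k : ℕ) (s : ZMod 3) :
    dS Q k ^ s.val = pQ Q k s * cQ Q k s ^ 3 := by
  unfold dS pQ cQ
  rw [← Finset.prod_pow, ← Finset.prod_pow, ← Finset.prod_mul_distrib]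
  refine Finset.prod_congr rfl fun x _ => ?_
  have h : s = 0 ∨ s = 1 ∨ s = 2 := by
    revert s
    decide
  have v0 : (0 : ZMod 3).val = 0 := rfl
  have v1 : (1 : ZMod 3).val = 1 := rfl
  have v2 : (2 : ZMod 3).val = 2 := rfl
  have w0 : (-0 : ZMod 3).val = 0 := by decide
  have w1 : (-1 : ZMod 3).val = 2 := by decide
  have w2 : (-2 : ZMod 3).val = 1 := by decide
  rcases h with rfl | rfl | rfl
  · rw [v0, w0, if_neg (by decide)]
    ring
  · rw [v1, w1, if_neg (by decide)]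
    ring
  · rw [v2, w2, if_pos rfl]
    ring

theorem pw_S (hMs : ∀ p ∈ M, star p ∈ M) (hQ : SeqS M z Q) (w : Ei → ZMod 3) {k : ℕ}
    (t : Fin k → ZMod 3) :
    pw (PP M (fun i => sym (Q i)) k) (uS M Q w t) = pw M w * ∏ i : Fin k, pQ Q i (t i) := by
  unfold pw PP
  rw [Finset.prod_union, Finset.prod_biUnion]
  · congr 1
    · exact Finset.prod_congr rfl fun x hx => by rw [uS_M t hx]
    · rw [Finset.prod_range]
      refine Finset.prod_congr rfl fun i _ => ?_
      unfold sym pQ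
      rw [Finset.prod_union, Finset.prod_image fun a _ b _ h => star_injective h,
        ← Finset.prod_mul_distrib]
      · exact Finset.prod_congr rfl fun x hx => by rw [uS_Q hMs hQ t hx, uS_Q' hMs hQ t hx]
      · rw [Finset.disjoint_right]
        intro x hx hx'
        obtain ⟨y, hy, rfl⟩ := Finset.mem_image.1 hx
        exact (hQ i).st y hy hx'
  · intro i _ l _ hil
    show Disjoint (sym (Q i)) (sym (Q l))
    rw [Finset.disjoint_left]
    intro x hx hx'
    exact hil (hQ.uniq hMs hx hx')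
  · rw [Finset.disjoint_right]
    intro x hx hx'
    obtain ⟨i, -, hi⟩ := Finset.mem_biUnion.1 hx
    exact hQ.disjM hMs hi hx'

lemma nr_pQ (hQ : SeqS M z Q) (k : ℕ) (s : ZMod 3) : nr (pQ Q k s) ≡ 1 [ZMOD 9] := by
  unfold pQ
  rw [nr_prod]
  have h : ∀ S : Finset Ei, (∀ x ∈ S, nr x % 9 = 1) →
      (∏ x ∈ S, nr (x ^ s.val * star x ^ (-s).val)) ≡ 1 [ZMOD 9] := by
    intro S
    induction S using Finset.induction_on with
    | empty => intro _; rw [Finset.prod_empty]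
    | insert a S ha ih =>
      intro h1
      rw [Finset.prod_insert ha, nr_mul, nr_pow, nr_pow, nr_star]
      have h2 : nr a ≡ 1 [ZMOD 9] := h1 a (Finset.mem_insert_self _ _)
      have h3 := ((h2.pow s.val).mul (h2.pow (-s).val)).mul
        (ih fun x hx => h1 x (Finset.mem_insert_of_mem hx))
      rwa [one_pow, one_pow, mul_one, mul_one] at h3
  exact h _ (hQ k).nine

theorem nine_S (hMs : ∀ p ∈ M, star p ∈ M) (hQ : SeqS M z Q) {w : Ei → ZMod 3}
    (h9 : ¬ (9 : ℤ) ∣ nr (pw M w) - 1) {k : ℕ} (t : Fin k → ZMod 3) :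
    ¬ (9 : ℤ) ∣ nr (pw (PP M (fun i => sym (Q i)) k) (uS M Q w t)) - 1 := by
  rw [pw_S hMs hQ, nr_mul, nr_prod]
  have h1 : (∏ i : Fin k, nr (pQ Q i (t i))) ≡ 1 [ZMOD 9] := by
    have h5 : ∀ s : Finset (Fin k), (∏ i ∈ s, nr (pQ Q i (t i))) ≡ 1 [ZMOD 9] := by
      intro s
      induction s using Finset.induction_on with
      | empty => rw [Finset.prod_empty]
      | insert a s ha ih =>
        rw [Finset.prod_insert ha]
        have h6 := (nr_pQ hQ a (t a)).mul ih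
        rwa [mul_one] at h6
    exact h5 Finset.univ
  intro hd
  apply h9
  have h2 : nr (pw M w) * ∏ i : Fin k, nr (pQ Q i (t i)) ≡ nr (pw M w) [ZMOD 9] := by
    have h3 := (Int.ModEq.refl (n := 9) (nr (pw M w))).mul h1
    rwa [mul_one] at h3
  have h4 : nr (pw M w) ≡ 1 [ZMOD 9] := h2.symm.trans ((Int.modEq_iff_dvd.2 hd).symm)
  exact (Int.modEq_iff_dvd.1 h4.symm)

lemma dS_ne (hQ : SeqS M z Q) (k : ℕ) : dS Q k ≠ 0 :=
  Finset.prod_ne_zero_iff.2 fun x hx => mul_ne_zero ((hQ k).pq x hx).prime.ne_zero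
    (pow_ne_zero 2 (pq_star ((hQ k).pq x hx)).prime.ne_zero)

lemma cQ_ne (hQ : SeqS M z Q) (k : ℕ) (s : ZMod 3) : cQ Q k s ≠ 0 := by
  refine Finset.prod_ne_zero_iff.2 fun x hx => ?_
  split_ifs
  · exact (pq_star ((hQ k).pq x hx)).prime.ne_zero
  · exact one_ne_zero

/-- the twists are good -/
theorem tow_S (hM : ∀ p ∈ M, Pq p) (hMs : ∀ p ∈ M, star p ∈ M) (hz : z ∈ M) (hQ : SeqS M z Q)
    {w : Ei → ZMod 3} (hw : w z ≠ 0) (hw' : w (star z) = w z)
    (h9 : ¬ (9 : ℤ) ∣ nr (pw M w) - 1) {D : Ei} (hD : D = pw M w ∨ D = -pw M w) (k : ℕ) :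
    Tow D (fun i : Fin k => dS Q i) where
  D0 := by
    have h1 : pw M w ≠ 0 := Finset.prod_ne_zero_iff.2 fun x hx =>
      pow_ne_zero _ (hM x hx).prime.ne_zero
    rcases hD with h | h
    · rw [h]; exact h1
    · rw [h]; exact neg_ne_zero.2 h1
  d0 := fun i => dS_ne hQ i
  ind := fun a ha => by
    obtain ⟨i, hi⟩ : ∃ i, a i ≠ 0 := by
      by_contra h
      push Not at h
      exact ha (funext h)
    obtain ⟨x, hx⟩ := (hQ i).ne
    refine ⟨PP M (fun i => sym (Q i)) k, uS M Q (fun _ => 0) a, ∏ i : Fin k, cQ Q i (a i),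
      SeqS.pq hM hQ k, ⟨x, mem_PP.2 (Or.inr ⟨i, i.2, mem_sym.2 (Or.inl hx)⟩), ?_⟩,
      Finset.prod_ne_zero_iff.2 fun i _ => cQ_ne hQ i _, ?_⟩
    · rw [uS_Q hMs hQ a hx]
      exact hi
    · rw [pw_S hMs hQ]
      have h3 : pw M (fun _ => (0 : ZMod 3)) = 1 := by
        unfold pw
        exact Finset.prod_eq_one fun x _ => by rw [ZMod.val_zero, pow_zero]
      rw [h3, one_mul, ← Finset.prod_pow, ← Finset.prod_mul_distrib]
      exact Finset.prod_congr rfl fun i _ => dS_pow Q i (a i)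
  tw := fun t ht => by
    refine ⟨PP M (fun i => sym (Q i)) k, uS M Q w t, ∏ i : Fin k, cQ Q i (t i),
      SeqS.pq hM hQ k, good_S hMs hz hQ hw hw' ht, nine_S hMs hQ h9 t,
      Finset.prod_ne_zero_iff.2 fun i _ => cQ_ne hQ i _, ?_⟩
    have h1 : ∏ i : Fin k, dS Q i ^ (t i).val =
        (∏ i : Fin k, pQ Q i (t i)) * (∏ i : Fin k, cQ Q i (t i)) ^ 3 := by
      rw [← Finset.prod_pow, ← Finset.prod_mul_distrib]
      exact Finset.prod_congr rfl fun i _ => dS_pow Q i (t i)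
    unfold tw
    rw [h1, pw_S hMs hQ]
    rcases hD with h | h
    · left
      rw [h]
      ring
    · right
      rw [h]
      ring

end seq

end Pool.Agent.V5helper41.ST
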