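import Pool.Agent.V5helper41.ST.Net
import Pool.Agent.V5helper41.ST.NetS
import Pool.Agent.Y333.CX.LAM
import Pool.Agent.Y696.CT.LQ

/-!
# Universal extensions that are stable under the complex conjugation
-/

set_option autoImplicit false
set_option linter.unusedSectionVars false

namespace Pool.Agent.V5helper41.ST

open Pool.Agent.Y692.QS
open Pool.Agent.Y715.T.Rec (cs)
open Pool.Agent.Y715.T.RecG (Pq)
open Pool.Agent.Y350.CT (pq_star cs_star)
open Pool.Agent.Y696.CT (im_star_ne)
open Pool.Agent.R432.C (inf_q rec_cs pq_dvd)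
open Pool.Agent.Y703.CX (pp)
open Pool.Agent.Y333.CX (pp_spec)
open scoped Classical

lemma css {x y : Ei} (hx : Pq x) (hy : Pq y) (h : x ≠ y) : cs (star x) (star y) = -cs x y :=
  cs_star hx fun hd => h (pq_dvd hx hy hd)

lemma css' {x y : Ei} (hx : Pq x) (hy : Pq y) (h : star x ≠ y) :
    cs (star x) y = -cs x (star y) := by
  have h1 := css hx (pq_star hy) (fun h' => h (by rw [h', star_star]))
  rw [star_star] at h1
  exact h1

lemma cs_self_star {x : Ei} (hx : Pq x) (h : star x ≠ x) : cs x (star x) = 0 := by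
  have h1 := css' hx hx h
  have h2 := rec_cs (pq_star hx) hx h
  have h3 : ∀ a : ZMod 3, a = -a → a = 0 := by decide
  exact h3 _ (h2.trans h1)

/-- the primes and their conjugates -/
noncomputable def sym (Q : Finset Ei) : Finset Ei := Q ∪ Q.image star

lemma mem_sym {Q : Finset Ei} {x : Ei} : x ∈ sym Q ↔ x ∈ Q ∨ star x ∈ Q := by
  unfold sym
  rw [Finset.mem_union, Finset.mem_image]
  refine or_congr_right ⟨?_, fun h => ⟨star x, h, star_star x⟩⟩
  rintro ⟨y, hy, rfl⟩
  rwa [star_star]

/-- a split prime outside a finite set -/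
theorem exists_split (P : Finset Ei) : ∃ z : Ei, Pq z ∧ star z ≠ z ∧ z ∉ P ∧ star z ∉ P := by
  obtain ⟨B, hB⟩ : ∃ B : ℕ, ∀ p ∈ P, (nr p).natAbs ≤ B := by
    refine ⟨∑ p ∈ P, (nr p).natAbs, fun p hp => ?_⟩
    exact Finset.single_le_sum (f := fun p => (nr p).natAbs) (fun _ _ => Nat.zero_le _) hp
  obtain ⟨p, hp1, hp2, hp3⟩ := Nat.exists_prime_gt_modEq_one (k := 3) B (by norm_num)
  have h1 : p % 3 = 1 := by
    have h2 : p % 3 = 1 % 3 := hp3
    omega
  obtain ⟨h2, h3⟩ := pp_spec hp1 h1
  refine ⟨pp p, h2, im_star_ne hp1 h3, fun h => ?_, fun h => ?_⟩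
  · have h4 := hB _ h
    rw [h3, Int.natAbs_natCast] at h4
    omega
  · have h4 := hB _ h
    rw [nr_star, h3, Int.natAbs_natCast] at h4
    omega

/-- new primes with prescribed symbols -/
theorem realizeS (P : Finset Ei) (hP : ∀ p ∈ P, Pq p) (hPs : ∀ p ∈ P, star p ∈ P)
    (T : Finset Ei) {I : Type} [Fintype I]
    (Y : I → Ei → ZMod 3) (X : I → I → ZMod 3) (hX : ∀ i j, X i j = X j i) :
    ∃ q : I → Ei, (∀ i, Pq (q i) ∧ q i ∉ P ∧ q i ∉ T ∧ star (q i) ∉ T ∧ nr (q i) % 9 = 1 ∧
        star (q i) ≠ q i) ∧
      (∀ i, ∀ p ∈ P, cs (q i) p = Y i p) ∧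
      ∀ i j, i ≠ j → q i ≠ q j ∧ q i ≠ star (q j) ∧ cs (q i) (q j) = X i j ∧
        cs (q i) (star (q j)) = 0 := by
  obtain ⟨z, hz1, hz2, hz3, hz4⟩ := exists_split P
  have key : ∀ s : Finset I, ∃ q : I → Ei,
      (∀ i ∈ s, Pq (q i) ∧ q i ∉ P ∧ q i ∉ T ∧ star (q i) ∉ T ∧ nr (q i) % 9 = 1 ∧
        star (q i) ≠ q i ∧ q i ≠ z ∧ q i ≠ star z) ∧
      (∀ i ∈ s, ∀ p ∈ P, cs (q i) p = Y i p) ∧
      ∀ i ∈ s, ∀ j ∈ s, i ≠ j → q i ≠ q j ∧ q i ≠ star (q j) ∧ cs (q i) (q j) = X i j ∧
        cs (q i) (star (q j)) = 0 := by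
    intro s
    induction s using Finset.induction_on with
    | empty => exact ⟨fun _ => 0, by simp, by simp, by simp⟩
    | insert i₀ s hi₀ ih =>
      obtain ⟨q, h1, h2, h3⟩ := ih
      obtain ⟨A, hA⟩ : ∃ A : Finset Ei, A = P ∪ {z, star z} ∪ sym (s.image q) := ⟨_, rfl⟩
      have hAq : ∀ p ∈ A, Pq p := by
        intro p hp
        rw [hA] at hp
        rcases Finset.mem_union.1 hp with h | h
        · rcases Finset.mem_union.1 h with h | h
          · exact hP p h
          · rcases Finset.mem_insert.1 h with rfl | h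
            · exact hz1
            · rw [Finset.mem_singleton.1 h]
              exact pq_star hz1
        · rcases mem_sym.1 h with h | h
          · obtain ⟨i, hi, rfl⟩ := Finset.mem_image.1 h
            exact (h1 i hi).1
          · obtain ⟨i, hi, h'⟩ := Finset.mem_image.1 h
            have h4 := pq_star (h1 i hi).1
            rwa [h', star_star] at h4
      obtain ⟨x, ⟨hx1, hx2, hx3, hx4⟩, hx5⟩ := ((inf_q A hAq (fun y => if y ∈ P then
        Y i₀ y else if y = z then 1 else if y = star z then 0 else
          if h : ∃ j ∈ s, q j = y then X i₀ h.choose else 0)).sdiff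
          (T ∪ T.image star).finite_toSet).nonempty
      have hxT : x ∉ T := fun h => hx5 (Finset.mem_coe.2 (Finset.mem_union_left _ h))
      have hxT' : star x ∉ T := fun h => hx5 (Finset.mem_coe.2 (Finset.mem_union_right _
        (Finset.mem_image.2 ⟨star x, h, star_star x⟩)))
      have hxP : x ∉ P := fun h => hx2 (by
        rw [hA]
        exact Finset.mem_union_left _ (Finset.mem_union_left _ h))
      have hxz : x ≠ z := fun h => hx2 (by
        rw [hA, h]
        exact Finset.mem_union_left _ (Finset.mem_union_right _ (Finset.mem_insert_self _ _)))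
      have hxz' : x ≠ star z := fun h => hx2 (by
        rw [hA, h]
        exact Finset.mem_union_left _ (Finset.mem_union_right _ (Finset.mem_insert_of_mem
          (Finset.mem_singleton_self _))))
      have hxq : ∀ j ∈ s, x ≠ q j := fun j hj h => hx2 (by
        rw [hA, h]
        exact Finset.mem_union_right _ (mem_sym.2 (Or.inl (Finset.mem_image_of_mem _ hj))))
      have hxq' : ∀ j ∈ s, x ≠ star (q j) := fun j hj h => hx2 (by
        rw [hA, h]
        exact Finset.mem_union_right _ (mem_sym.2 (Or.inr (by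
          rw [star_star]
          exact Finset.mem_image_of_mem _ hj))))
      have hc1 : ∀ p ∈ P, cs x p = Y i₀ p := by
        intro p hp
        have h := hx4 p (by
          rw [hA]
          exact Finset.mem_union_left _ (Finset.mem_union_left _ hp))
        rwa [if_pos hp] at h
      have hc2 : ∀ j ∈ s, cs x (q j) = X i₀ j := by
        intro j hj
        have h := hx4 (q j) (by
          rw [hA]
          exact Finset.mem_union_right _ (mem_sym.2 (Or.inl (Finset.mem_image_of_mem _ hj))))
        have hex : ∃ j' ∈ s, q j' = q j := ⟨j, hj, rfl⟩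
        rw [if_neg (h1 j hj).2.1, if_neg (h1 j hj).2.2.2.2.2.2.1,
          if_neg (h1 j hj).2.2.2.2.2.2.2, dif_pos hex] at h
        rw [h]
        have h5 := hex.choose_spec
        congr 1
        by_contra hne
        exact (h3 _ h5.1 j hj hne).1 h5.2
      have hc3 : ∀ j ∈ s, cs x (star (q j)) = 0 := by
        intro j hj
        have h := hx4 (star (q j)) (by
          rw [hA]
          exact Finset.mem_union_right _ (mem_sym.2 (Or.inr (by
            rw [star_star]
            exact Finset.mem_image_of_mem _ hj))))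
        have e1 : star (q j) ∉ P := fun h' => (h1 j hj).2.1 (by
          have := hPs _ h'
          rwa [star_star] at this)
        have e2 : star (q j) ≠ z := fun h' => (h1 j hj).2.2.2.2.2.2.2 (by rw [← h', star_star])
        have e3 : star (q j) ≠ star z := fun h' => (h1 j hj).2.2.2.2.2.2.1 (star_injective h')
        have e4 : ¬ ∃ j' ∈ s, q j' = star (q j) := by
          rintro ⟨j', hj', h'⟩
          by_cases hjj : j' = j
          · rw [hjj] at h'
            exact (h1 j hj).2.2.2.2.2.1 h'.symm
          · exact (h3 j' hj' j hj hjj).2.1 h'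
        rw [if_neg e1, if_neg e2, if_neg e3, dif_neg e4] at h
        exact h
      have hc4 : cs x z = 1 := by
        have h := hx4 z (by
          rw [hA]
          exact Finset.mem_union_left _ (Finset.mem_union_right _ (Finset.mem_insert_self _ _)))
        rwa [if_neg hz3, if_pos rfl] at h
      have hc5 : cs x (star z) = 0 := by
        have h := hx4 (star z) (by
          rw [hA]
          exact Finset.mem_union_left _ (Finset.mem_union_right _ (Finset.mem_insert_of_mem
            (Finset.mem_singleton_self _))))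
        rwa [if_neg hz4, if_neg hz2, if_pos rfl] at h
      have hxs : star x ≠ x := by
        intro h
        have h4 := css hx1 hz1 hxz
        rw [h, hc4, hc5] at h4
        exact absurd h4 (by decide)
      refine ⟨Function.update q i₀ x, fun i hi => ?_, fun i hi => ?_, fun i hi j hj hij => ?_⟩
      · rcases Finset.mem_insert.1 hi with rfl | hi
        · rw [Function.update_self]
          exact ⟨hx1, hxP, hxT, hxT', hx3, hxs, hxz, hxz'⟩
        · rw [Function.update_of_ne (fun h => hi₀ (by rw [← h]; exact hi))]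
          exact h1 i hi
      · rcases Finset.mem_insert.1 hi with rfl | hi
        · rw [Function.update_self]
          exact hc1
        · rw [Function.update_of_ne (fun h => hi₀ (by rw [← h]; exact hi))]
          exact h2 i hi
      · rcases Finset.mem_insert.1 hi with rfl | hi'
        · rcases Finset.mem_insert.1 hj with rfl | hj'
          · exact absurd rfl hij
          · rw [Function.update_self, Function.update_of_ne (Ne.symm hij)]
            exact ⟨hxq j hj', hxq' j hj', hc2 j hj', hc3 j hj'⟩
        · have hi2 : i ≠ i₀ := fun h => hi₀ (by rw [← h]; exact hi')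
          rcases Finset.mem_insert.1 hj with rfl | hj'
          · rw [Function.update_self, Function.update_of_ne hi2]
            refine ⟨(hxq i hi').symm, fun h => hxq' i hi' (by rw [h, star_star]), ?_, ?_⟩
            · rw [← rec_cs (h1 i hi').1 hx1 (hxq i hi').symm, hc2 i hi', hX]
            · have h4 : star (q i) ≠ x := (hxq' i hi').symm
              have h5 := css' (h1 i hi').1 hx1 h4
              have h6 := rec_cs (pq_star (h1 i hi').1) hx1 h4
              rw [hc3 i hi', h5] at h6
              exact neg_eq_zero.1 h6.symm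
          · have hj2 : j ≠ i₀ := fun h => hi₀ (by rw [← h]; exact hj')
            rw [Function.update_of_ne hi2, Function.update_of_ne hj2]
            exact h3 i hi' j hj' hij
  obtain ⟨q, h1, h2, h3⟩ := key Finset.univ
  refine ⟨q, fun i => ?_, fun i => h2 i (Finset.mem_univ i),
    fun i j hij => h3 i (Finset.mem_univ i) j (Finset.mem_univ j) hij⟩
  obtain ⟨a1, a2, a3, a4, a5, a6, -⟩ := h1 i (Finset.mem_univ i)
  exact ⟨a1, a2, a3, a4, a5, a6⟩

/-- `Q` and the conjugates of its elements are a universal extension of `P`, for the weights with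
`u (star x) = - u x` on `Q` and `u (star z) = u z ≠ 0` -/
structure UnivS (P : Finset Ei) (z : Ei) (Q : Finset Ei) : Prop where
  pq : ∀ q ∈ Q, Pq q
  nine : ∀ q ∈ Q, nr q % 9 = 1
  st : ∀ q ∈ Q, star q ∉ Q
  disj : ∀ q ∈ Q, q ∉ P
  ne : Q.Nonempty
  good : ∀ (s : ZMod 3) (u : Ei → ZMod 3), s ≠ 0 → (∀ x ∈ Q, u x = s ∧ u (star x) = -s) →
    u z ≠ 0 → u (star z) = u z → Good (P ∪ sym Q) u

theorem exists_univS (P : Finset Ei) (hP : ∀ p ∈ P, Pq p) (hPs : ∀ p ∈ P, star p ∈ P) {z : Ei}
    (hz : z ∈ P) (T : Finset Ei) : ∃ Q : Finset Ei, UnivS P z Q ∧ ∀ q ∈ Q, q ∉ T ∧ star q ∉ T := by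
  set σ : {p : Ei // p ∈ P} → {p : Ei // p ∈ P} := fun p => ⟨star p.1, hPs p.1 p.2⟩ with hσd
  have hσ : ∀ p, σ (σ p) = p := fun p => Subtype.ext (star_star p.1)
  set z' : {p : Ei // p ∈ P} := ⟨z, hz⟩ with hz'
  obtain ⟨q, h1, h2, h3⟩ := realizeS P hP hPs T (I := Fin 4 ⊕ {p : Ei // p ∈ P})
    (fun i y => if h : y ∈ P then Ym σ z' i ⟨y, h⟩ else 0) Xm Xm_symm
  have hinj : Function.Injective q := by
    intro i j hij
    by_contra hne
    exact (h3 i j hne).1 hij
  have hst : ∀ i j, q i ≠ star (q j) := by
    intro i j h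
    by_cases hij : i = j
    · rw [hij] at h
      exact (h1 j).2.2.2.2.2 h.symm
    · exact (h3 i j hij).2.1 h
  have hmem : ∀ {x : Ei}, x ∈ Finset.univ.image q ↔ ∃ i, q i = x := by
    intro x
    simp
  refine ⟨Finset.univ.image q, ⟨?_, ?_, ?_, ?_, ?_, ?_⟩, ?_⟩
  · intro x hx
    obtain ⟨i, rfl⟩ := hmem.1 hx
    exact (h1 i).1
  · intro x hx
    obtain ⟨i, rfl⟩ := hmem.1 hx
    exact (h1 i).2.2.2.2.1
  · intro x hx h
    obtain ⟨i, rfl⟩ := hmem.1 hx
    obtain ⟨j, hj⟩ := hmem.1 h
    exact hst j i hj
  · intro x hx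
    obtain ⟨i, rfl⟩ := hmem.1 hx
    exact (h1 i).2.1
  · exact ⟨q (Sum.inl 0), hmem.2 ⟨_, rfl⟩⟩
  · intro s u hs hu huz huz' v hv
    have hq : ∀ i, u (q i) = s := fun i => (hu _ (hmem.2 ⟨i, rfl⟩)).1
    have hq' : ∀ i, u (star (q i)) = -s := fun i => (hu _ (hmem.2 ⟨i, rfl⟩)).2
    have hnP' : ∀ i, star (q i) ∉ P := fun i h => (h1 i).2.1 (by
      have := hPs _ h
      rwa [star_star] at this)
    have hdis : Disjoint P (sym (Finset.univ.image q)) := by
      rw [Finset.disjoint_right]
      intro x hx h
      rcases mem_sym.1 hx with h' | h'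
      · obtain ⟨i, rfl⟩ := hmem.1 h'
        exact (h1 i).2.1 h
      · obtain ⟨i, hi⟩ := hmem.1 h'
        apply (h1 i).2.1
        rw [hi]
        exact hPs _ h
    have hdis2 : Disjoint (Finset.univ.image q) ((Finset.univ.image q).image star) := by
      rw [Finset.disjoint_right]
      intro x hx h
      obtain ⟨y, hy, rfl⟩ := Finset.mem_image.1 hx
      obtain ⟨i, rfl⟩ := hmem.1 hy
      obtain ⟨k, hk⟩ := hmem.1 h
      exact hst k i hk
    have hsum : ∀ x, ∑ y ∈ P ∪ sym (Finset.univ.image q), u y * cs x y * (v y - v x) =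
        ∑ y : {p : Ei // p ∈ P}, u y.1 * cs x y.1 * (v y.1 - v x) +
          (∑ i, s * cs x (q i) * (v (q i) - v x) +
            ∑ i, -s * cs x (star (q i)) * (v (star (q i)) - v x)) := by
      intro x
      rw [Finset.sum_union hdis, Finset.sum_coe_sort P (fun y => u y * cs x y * (v y - v x))]
      congr 1
      unfold sym
      rw [Finset.sum_union hdis2, Finset.sum_image (g := star)
        (fun a _ b _ h => star_injective h), Finset.sum_image (fun i _ j _ h => hinj h),
        Finset.sum_image (fun i _ j _ h => hinj h)]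
      congr 1
      · exact Finset.sum_congr rfl fun i _ => by rw [hq]
      · exact Finset.sum_congr rfl fun i _ => by rw [hq']
    have hY : ∀ i (p : {p : Ei // p ∈ P}), cs (q i) p.1 = Ym σ z' i p := by
      intro i p
      rw [h2 i p.1 p.2, dif_pos p.2]
    have hpne : ∀ i (p : {p : Ei // p ∈ P}), q i ≠ p.1 := fun i p h => (h1 i).2.1 (by
      rw [h]; exact p.2)
    have hpne' : ∀ i (p : {p : Ei // p ∈ P}), star (q i) ≠ p.1 := fun i p h => hnP' i (by
      rw [h]; exact p.2)
    have hY' : ∀ i (p : {p : Ei // p ∈ P}), cs (star (q i)) p.1 = -Ym σ z' i (σ p) := by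
      intro i p
      rw [css' (h1 i).1 (hP p.1 p.2) (hpne' i p), ← hY]
    obtain ⟨c, hc1, hc2, hc3⟩ := netS σ hσ (fun p p' => cs p.1 p'.1) hs (fun p => u p.1)
      (fun p => v p.1) z' huz huz' (fun i => v (q i)) (fun i => v (star (q i)))
      (fun i => by
        have h := hv (q i) (Finset.mem_union_right _ (mem_sym.2 (Or.inl (hmem.2 ⟨i, rfl⟩))))
          (by rw [hq]; exact hs)
        rw [hsum] at h
        have e1 : ∑ k, -s * cs (q i) (star (q k)) * (v (star (q k)) - v (q i)) = 0 := by
          refine Finset.sum_eq_zero fun k _ => ?_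
          have e2 : cs (q i) (star (q k)) = 0 := by
            by_cases hik : i = k
            · rw [← hik]
              exact cs_self_star (h1 i).1 (h1 i).2.2.2.2.2
            · exact (h3 i k hik).2.2.2
          rw [e2, mul_zero, zero_mul]
        rw [e1, add_zero] at h
        rw [← h]
        congr 1
        · exact Finset.sum_congr rfl fun p _ => by rw [hY]
        · refine Finset.sum_congr rfl fun k _ => ?_
          by_cases hik : i = k
          · rw [hik, sub_self, mul_zero, mul_zero]
          · rw [(h3 i k hik).2.2.1])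
      (fun i => by
        have h := hv (star (q i)) (Finset.mem_union_right _ (mem_sym.2 (Or.inr (by
          rw [star_star]
          exact hmem.2 ⟨i, rfl⟩)))) (by rw [hq']; exact neg_ne_zero.2 hs)
        rw [hsum] at h
        have e1 : ∑ k, s * cs (star (q i)) (q k) * (v (q k) - v (star (q i))) = 0 := by
          refine Finset.sum_eq_zero fun k _ => ?_
          have e2 : cs (star (q i)) (q k) = 0 := by
            rw [css' (h1 i).1 (h1 k).1 (hst k i).symm]
            by_cases hik : i = k
            · rw [← hik, cs_self_star (h1 i).1 (h1 i).2.2.2.2.2, neg_zero]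
            · rw [(h3 i k hik).2.2.2, neg_zero]
          rw [e2, mul_zero, zero_mul]
        rw [e1, zero_add] at h
        rw [← h]
        congr 1
        · exact Finset.sum_congr rfl fun p _ => by rw [hY']
        · refine Finset.sum_congr rfl fun k _ => ?_
          by_cases hik : i = k
          · rw [hik, sub_self, mul_zero, mul_zero]
          · rw [css (h1 i).1 (h1 k).1 (h3 i k hik).1, (h3 i k hik).2.2.1]
            ring)
      (fun p hp => by
        have h := hv p.1 (Finset.mem_union_left _ p.2) hp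
        rw [hsum] at h
        rw [← h]
        congr 2
        · refine Finset.sum_congr rfl fun i _ => ?_
          rw [rec_cs (h1 i).1 (hP _ p.2) (hpne i p), hY]
        · refine Finset.sum_congr rfl fun i _ => ?_
          rw [rec_cs (pq_star (h1 i).1) (hP _ p.2) (hpne' i p), hY']
          ring)
    have hall : ∀ x ∈ P ∪ sym (Finset.univ.image q), u x ≠ 0 → v x = c := by
      intro x hx hux
      rcases Finset.mem_union.1 hx with hx | hx
      · exact hc1 ⟨x, hx⟩ hux
      · rcases mem_sym.1 hx with h | h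
        · obtain ⟨i, rfl⟩ := hmem.1 h
          exact hc2 i
        · obtain ⟨i, hi⟩ := hmem.1 h
          have h4 := hc3 i
          simp only [hi, star_star] at h4
          exact h4
    intro x hx y hy hux huy
    rw [hall x hx hux, hall y hy huy]
  · intro x hx
    obtain ⟨i, rfl⟩ := hmem.1 hx
    exact ⟨(h1 i).2.2.1, (h1 i).2.2.2.1⟩

end Pool.Agent.V5helper41.ST
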